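import Mathlib
import Pool.Agent.H438R2.PD.A3
set_option autoImplicit false

/-! From restricted estimates with a gain to estimates in `L^q`. -/

namespace Pool.Agent.K4H66.DF

open MeasureTheory Complex Set Filter Topology
open scoped ENNReal NNReal
open Pool.Agent.H438R2.PD.A3 (jensen_tsum tsum_geo)

section levels

variable {P : Type} [MeasurableSpace P]

/-- level sets of a function, relative to `l` -/
def Lv (S : Set P) (g : P → ℂ) (l : ℝ) (j : ℕ) : Set P :=
  {p | p ∈ S ∧ (j = 0 ∨ 2 ^ (j - 1) * l < ‖g p‖) ∧ ‖g p‖ ≤ 2 ^ j * l}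

theorem Lv_meas {S : Set P} (hS : MeasurableSet S) {g : P → ℂ} (hg : Measurable g) (l : ℝ) (j : ℕ) :
    MeasurableSet (Lv S g l j) := by
  exact hS.inter (MeasurableSet.inter ((MeasurableSet.const (j = 0)).union
    (hg.norm measurableSet_Ioi)) (hg.norm measurableSet_Iic))

omit [MeasurableSpace P] in
theorem Lv_disj {S : Set P} {g : P → ℂ} {l : ℝ} (hl : 0 < l) :
    Pairwise (Function.onFun Disjoint (Lv S g l)) := by
  have key : ∀ i j : ℕ, i < j → Disjoint (Lv S g l i) (Lv S g l j) := by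
    intro i j hij
    rw [Set.disjoint_left]
    intro p hp hq
    have h1 : (2 : ℝ) ^ i ≤ 2 ^ (j - 1) := pow_le_pow_right₀ (by norm_num) (by omega)
    have h2 := hp.2.2
    rcases hq.2.1 with h3 | h3
    · omega
    · have h4 : (2 : ℝ) ^ i * l ≤ 2 ^ (j - 1) * l := mul_le_mul_of_nonneg_right h1 hl.le
      linarith
  intro i j hij
  rcases lt_or_gt_of_ne hij with h | h
  · exact key i j h
  · exact (key j i h).symm

omit [MeasurableSpace P] in
theorem Lv_union (S : Set P) (g : P → ℂ) {l : ℝ} (hl : 0 < l) : ⋃ j, Lv S g l j = S := by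
  ext p
  simp only [mem_iUnion]
  constructor
  · rintro ⟨j, hj⟩
    exact hj.1
  · intro hp
    by_cases h0 : ‖g p‖ ≤ l
    · exact ⟨0, hp, Or.inl rfl, by simpa using h0⟩
    · have hex : ∃ n : ℕ, ‖g p‖ ≤ 2 ^ n * l := by
        obtain ⟨n, hn⟩ := pow_unbounded_of_one_lt (‖g p‖ / l) (one_lt_two (α := ℝ))
        exact ⟨n, ((div_lt_iff₀ hl).1 hn).le⟩
      classical
      refine ⟨Nat.find hex, hp, ?_, Nat.find_spec hex⟩
      right
      have hpos : 0 < Nat.find hex := by
        rw [Nat.find_pos]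
        simpa using h0
      have h1 := Nat.find_min hex (m := Nat.find hex - 1) (by omega)
      exact not_le.1 h1

end levels

theorem LL (q δ : ℝ) (hq : 1 < q) (hδ : 0 < δ) (V : ℝ≥0∞) (hV : V ≠ ∞) : ∃ C : ℝ≥0∞, C ≠ ∞ ∧
    ∀ (Ω P : Type) [MeasurableSpace Ω] [MeasurableSpace P] (π : Measure P) [SFinite π]
    (ν : Measure Ω) (S : Set P), MeasurableSet S → π S ≤ V →
    ∀ κ : Ω → P → ℂ, Measurable (Function.uncurry κ) → (∀ ω p, ‖κ ω p‖ ≤ 1) → ∀ M : ℝ≥0∞,
    (∀ A, MeasurableSet A → A ⊆ S → ∀ g : P → ℂ, Measurable g → (∀ p, ‖g p‖ ≤ 1) →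
      (∀ p, p ∉ A → g p = 0) → ∫⁻ ω, ‖∫ p, κ ω p * g p ∂π‖ₑ ^ q ∂ν ≤ M * π A ^ (1 + δ)) →
    ∀ g : P → ℂ, Measurable g → (∀ p, p ∉ S → g p = 0) → ∫⁻ p, ‖g p‖ₑ ^ q ∂π ≠ ∞ →
      ∫⁻ ω, ‖∫ p, κ ω p * g p ∂π‖ₑ ^ q ∂ν ≤ C * M * ∫⁻ p, ‖g p‖ₑ ^ q ∂π := by
  set e : ℝ := q * δ / (2 * (q - 1)) with he
  have hq0 : 0 < q := by linarith
  have he0 : 0 < e := div_pos (by positivity) (by linarith)
  set r : ℝ := (2 : ℝ) ^ (-e) with hr
  have hr0 : 0 < r := Real.rpow_pos_of_pos (by norm_num) _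
  have hr1 : r < 1 := Real.rpow_lt_one_of_one_lt_of_neg (by norm_num) (by linarith)
  set ρ : ℝ := (2 : ℝ) ^ (-(q * δ / 2)) with hρ
  have hρ0 : 0 < ρ := Real.rpow_pos_of_pos (by norm_num) _
  have hρ1 : ρ < 1 := Real.rpow_lt_one_of_one_lt_of_neg (by norm_num) (by
    have : 0 < q * δ / 2 := by positivity
    linarith)
  set c : ℕ → ℝ≥0∞ := fun k => ENNReal.ofReal (r ^ k) with hc
  have hc0 : ∀ k, c k ≠ 0 := fun k => by
    rw [hc]
    simp only [ne_eq, ENNReal.ofReal_eq_zero, not_le]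
    positivity
  have hc1 : ∀ k, c k ≠ ∞ := fun k => ENNReal.ofReal_ne_top
  have hcs : ∑' k, c k = ENNReal.ofReal ((1 - r)⁻¹) := tsum_geo r hr0.le hr1
  set D : ℝ≥0∞ := V ^ (1 + δ) + ENNReal.ofReal ((2 : ℝ) ^ (q * (1 + δ))) with hD
  have hDt : D ≠ ∞ := ENNReal.add_ne_top.2
    ⟨ENNReal.rpow_ne_top_of_nonneg (by linarith) hV, ENNReal.ofReal_ne_top⟩
  refine ⟨(∑' k, c k) ^ (q - 1) * (D * ENNReal.ofReal ((1 - ρ)⁻¹)), ?_, ?_⟩
  · rw [hcs]
    exact ENNReal.mul_ne_top (ENNReal.rpow_ne_top_of_nonneg (by linarith) ENNReal.ofReal_ne_top)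
      (ENNReal.mul_ne_top hDt ENNReal.ofReal_ne_top)
  intro Ω P _ _ π _ ν S hS hSV κ hκ hκ1 M hM g hg hgS hgt
  have hκm : ∀ ω, Measurable (κ ω) := fun ω => hκ.comp measurable_prodMk_left
  set G := ∫⁻ p, ‖g p‖ₑ ^ q ∂π with hG
  by_cases hG0 : G = 0
  · have h1 : ∀ᵐ p ∂π, g p = 0 := by
      have h2 := (lintegral_eq_zero_iff (hg.enorm.pow_const q)).1 hG0
      filter_upwards [h2] with p hp
      have h3 : ‖g p‖ₑ ^ q = 0 := hp
      rw [ENNReal.rpow_eq_zero_iff_of_pos hq0] at h3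
      exact enorm_eq_zero.1 h3
    have h2 : ∀ ω, ∫ p, κ ω p * g p ∂π = 0 := by
      intro ω
      refine integral_eq_zero_of_ae ?_
      filter_upwards [h1] with p hp
      rw [hp, mul_zero]; rfl
    simp_rw [h2]
    rw [enorm_zero, ENNReal.zero_rpow_of_pos hq0, lintegral_zero]
    exact zero_le
  set l : ℝ := G.toReal ^ (1 / q) with hl
  have hGr : 0 < G.toReal := ENNReal.toReal_pos hG0 hgt
  have hl0 : 0 < l := Real.rpow_pos_of_pos hGr _
  have hlq : ENNReal.ofReal l ^ q = G := by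
    rw [ENNReal.ofReal_rpow_of_pos hl0, hl, ← Real.rpow_mul hGr.le, one_div_mul_cancel hq0.ne',
      Real.rpow_one, ENNReal.ofReal_toReal hgt]
  -- integrability
  have hgi : Integrable g π := by
    refine ⟨hg.aestronglyMeasurable, ?_⟩
    have h1 : ∀ p, ‖g p‖ₑ ≤ S.indicator 1 p + ‖g p‖ₑ ^ q := by
      intro p
      by_cases hp : p ∈ S
      · rw [indicator_of_mem hp, Pi.one_apply]
        rcases le_or_gt ‖g p‖ₑ 1 with h2 | h2
        · exact h2.trans le_self_add
        · refine le_trans ?_ le_add_self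
          calc ‖g p‖ₑ = ‖g p‖ₑ ^ (1 : ℝ) := (ENNReal.rpow_one _).symm
            _ ≤ _ := ENNReal.rpow_le_rpow_of_exponent_le h2.le hq.le
      · rw [hgS p hp, enorm_zero]
        exact zero_le
    rw [hasFiniteIntegral_iff_enorm]
    calc ∫⁻ p, ‖g p‖ₑ ∂π ≤ ∫⁻ p, (S.indicator 1 p + ‖g p‖ₑ ^ q) ∂π := lintegral_mono h1
      _ = (∫⁻ p, S.indicator 1 p ∂π) + G := lintegral_add_left (measurable_one.indicator hS) _
      _ < ∞ := by
          rw [lintegral_indicator_one hS]
          exact ENNReal.add_lt_top.2 ⟨hSV.trans_lt hV.lt_top, hgt.lt_top⟩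
  have hki : ∀ ω, Integrable (fun p => κ ω p * g p) π := fun ω =>
    hgi.bdd_mul (c := 1) (hκm ω).aestronglyMeasurable (Eventually.of_forall fun p => hκ1 ω p)
  -- the normalized pieces
  set gj : ℕ → P → ℂ := fun j p => (((2 ^ j * l : ℝ) : ℂ))⁻¹ * (Lv S g l j).indicator g p with hgj
  have hgjm : ∀ j, Measurable (gj j) := fun j => (hg.indicator (Lv_meas hS hg l j)).const_mul _
  have hpos : ∀ j : ℕ, 0 < 2 ^ j * l := fun j => by positivity
  have hgj1 : ∀ j p, ‖gj j p‖ ≤ 1 := by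
    intro j p
    simp only [hgj]
    rw [norm_mul, norm_inv, Complex.norm_real, Real.norm_of_nonneg (hpos j).le,
      inv_mul_le_iff₀ (hpos j), mul_one]
    by_cases hp : p ∈ Lv S g l j
    · rw [indicator_of_mem hp]
      exact hp.2.2
    · rw [indicator_of_notMem hp, norm_zero]
      exact (hpos j).le
  have hgj0 : ∀ j p, p ∉ Lv S g l j → gj j p = 0 := by
    intro j p hp
    simp only [hgj]
    rw [indicator_of_notMem hp, mul_zero]
  have hpiece : ∀ j ω, ∫ p in Lv S g l j, κ ω p * g p ∂π =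
      ((2 ^ j * l : ℝ) : ℂ) * ∫ p, κ ω p * gj j p ∂π := by
    intro j ω
    rw [← integral_indicator (Lv_meas hS hg l j), ← integral_const_mul]
    refine integral_congr_ae (Eventually.of_forall fun p => ?_)
    simp only [hgj]
    by_cases hp : p ∈ Lv S g l j
    · rw [indicator_of_mem hp, indicator_of_mem hp]
      have : ((2 ^ j * l : ℝ) : ℂ) ≠ 0 := by exact_mod_cast (hpos j).ne'
      field_simp
    · rw [indicator_of_notMem hp, indicator_of_notMem hp]
      simp
  have hsum : ∀ ω, ‖∫ p, κ ω p * g p ∂π‖ₑ ≤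
      ∑' j, ENNReal.ofReal (2 ^ j * l) * ‖∫ p, κ ω p * gj j p ∂π‖ₑ := by
    intro ω
    have h1 : ∫ p, κ ω p * g p ∂π = ∫ p in ⋃ j, Lv S g l j, κ ω p * g p ∂π := by
      rw [Lv_union S g hl0, ← integral_indicator hS]
      refine integral_congr_ae (Eventually.of_forall fun p => ?_)
      simp only
      by_cases hp : p ∈ S
      · rw [indicator_of_mem hp]
      · rw [indicator_of_notMem hp, hgS p hp, mul_zero]
    have h2 := hasSum_integral_iUnion (μ := π) (f := fun p => κ ω p * g p)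
      (fun j => Lv_meas hS hg l j) (Lv_disj hl0) (hki ω).integrableOn
    rw [h1, ← h2.tsum_eq]
    refine (enorm_tsum_le_tsum_enorm).trans ?_
    refine ENNReal.tsum_le_tsum fun j => ?_
    rw [hpiece, enorm_mul, ← ofReal_norm (((2 ^ j * l : ℝ) : ℂ)), Complex.norm_real,
      Real.norm_of_nonneg (hpos j).le]
  have hTm : ∀ j, Measurable fun ω => ∫ p, κ ω p * gj j p ∂π := by
    intro j
    have : StronglyMeasurable (Function.uncurry fun (ω : Ω) (p : P) => κ ω p * gj j p) :=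
      (hκ.mul ((hgjm j).comp measurable_snd)).stronglyMeasurable
    exact this.integral_prod_right.measurable
  -- measure of the levels
  have hlev : ∀ j, ENNReal.ofReal (2 ^ j * l) ^ q * π (Lv S g l j) ^ (1 + δ) ≤
      G * (D * ENNReal.ofReal ((2 : ℝ) ^ (-((j : ℝ) * (q * δ))))) := by
    intro j
    rcases Nat.eq_zero_or_pos j with hj | hj
    · subst hj
      rw [pow_zero, one_mul, hlq]
      have h1 : π (Lv S g l 0) ≤ V := (measure_mono fun p hp => hp.1).trans hSV
      have h2 : ENNReal.ofReal ((2 : ℝ) ^ (-(((0 : ℕ) : ℝ) * (q * δ)))) = 1 := by simp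
      rw [h2, mul_one]
      refine mul_le_mul_right ?_ _
      exact (ENNReal.rpow_le_rpow h1 (by linarith)).trans le_self_add
    · obtain ⟨i, rfl⟩ : ∃ i, j = i + 1 := ⟨j - 1, by omega⟩
      -- Chebyshev
      have h2 := mul_meas_ge_le_lintegral (μ := π) (hg.enorm.pow_const q)
        (ENNReal.ofReal (2 ^ i * l) ^ q)
      have h3 : Lv S g l (i + 1) ⊆ {p | ENNReal.ofReal (2 ^ i * l) ^ q ≤ ‖g p‖ₑ ^ q} := by
        intro p hp
        rcases hp.2.1 with h4 | h4
        · omega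
        · rw [Nat.add_sub_cancel] at h4
          refine ENNReal.rpow_le_rpow ?_ hq0.le
          rw [← ofReal_norm]
          exact ENNReal.ofReal_le_ofReal h4.le
      have h5 : ENNReal.ofReal (2 ^ i * l) ^ q * π (Lv S g l (i + 1)) ≤ G :=
        (mul_le_mul_right (measure_mono h3) _).trans h2
      have h6 : ENNReal.ofReal (2 ^ i * l) ^ q = ENNReal.ofReal ((2 : ℝ) ^ ((i : ℝ) * q)) * G := by
        rw [ENNReal.ofReal_mul (by positivity), ENNReal.mul_rpow_of_nonneg _ _ hq0.le, hlq,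
          ENNReal.ofReal_rpow_of_pos (by positivity), ← Real.rpow_natCast, ← Real.rpow_mul (by norm_num)]
      have h7 : π (Lv S g l (i + 1)) ≤ ENNReal.ofReal ((2 : ℝ) ^ (-((i : ℝ) * q))) := by
        rw [h6] at h5
        have h8 : ENNReal.ofReal ((2 : ℝ) ^ (-((i : ℝ) * q))) *
            ENNReal.ofReal ((2 : ℝ) ^ ((i : ℝ) * q)) = 1 := by
          rw [← ENNReal.ofReal_mul (by positivity), ← Real.rpow_add (by norm_num), neg_add_cancel,
            Real.rpow_zero, ENNReal.ofReal_one]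
        have h9 : ENNReal.ofReal ((2 : ℝ) ^ ((i : ℝ) * q)) * π (Lv S g l (i + 1)) ≤ 1 := by
          have h10 : G * (ENNReal.ofReal ((2 : ℝ) ^ ((i : ℝ) * q)) * π (Lv S g l (i + 1))) ≤ G * 1 := by
            rw [mul_one]
            refine le_trans (le_of_eq ?_) h5
            ring
          exact (ENNReal.mul_le_mul_iff_right hG0 hgt).1 h10
        calc π (Lv S g l (i + 1)) = 1 * π (Lv S g l (i + 1)) := (one_mul _).symm
          _ = ENNReal.ofReal ((2 : ℝ) ^ (-((i : ℝ) * q))) *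
              (ENNReal.ofReal ((2 : ℝ) ^ ((i : ℝ) * q)) * π (Lv S g l (i + 1))) := by
              rw [← mul_assoc, h8]
          _ ≤ ENNReal.ofReal ((2 : ℝ) ^ (-((i : ℝ) * q))) * 1 := mul_le_mul_right h9 _
          _ = _ := mul_one _
      have h8 : ENNReal.ofReal (2 ^ (i + 1) * l) ^ q =
          ENNReal.ofReal ((2 : ℝ) ^ q) * ENNReal.ofReal (2 ^ i * l) ^ q := by
        rw [pow_succ, show (2 : ℝ) ^ i * 2 * l = 2 * (2 ^ i * l) by ring,
          ENNReal.ofReal_mul (by norm_num), ENNReal.mul_rpow_of_nonneg _ _ hq0.le,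
          ENNReal.ofReal_rpow_of_pos (by norm_num)]
      have h9 : π (Lv S g l (i + 1)) ^ (1 + δ) = π (Lv S g l (i + 1)) * π (Lv S g l (i + 1)) ^ δ := by
        rw [ENNReal.rpow_add_of_nonneg _ _ (by norm_num) hδ.le, ENNReal.rpow_one]
      rw [h8, h9]
      have h10 : π (Lv S g l (i + 1)) ^ δ ≤ ENNReal.ofReal ((2 : ℝ) ^ (-((i : ℝ) * q * δ))) := by
        refine (ENNReal.rpow_le_rpow h7 hδ.le).trans (le_of_eq ?_)
        rw [ENNReal.ofReal_rpow_of_pos (by positivity), ← Real.rpow_mul (by norm_num)]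
        congr 2
        ring
      calc ENNReal.ofReal ((2 : ℝ) ^ q) * ENNReal.ofReal (2 ^ i * l) ^ q *
            (π (Lv S g l (i + 1)) * π (Lv S g l (i + 1)) ^ δ)
          = (ENNReal.ofReal (2 ^ i * l) ^ q * π (Lv S g l (i + 1))) *
            (ENNReal.ofReal ((2 : ℝ) ^ q) * π (Lv S g l (i + 1)) ^ δ) := by ring
        _ ≤ G * (ENNReal.ofReal ((2 : ℝ) ^ q) * ENNReal.ofReal ((2 : ℝ) ^ (-((i : ℝ) * q * δ)))) := by
            gcongr
        _ = G * (ENNReal.ofReal ((2 : ℝ) ^ (q * (1 + δ))) *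
            ENNReal.ofReal ((2 : ℝ) ^ (-(((i + 1 : ℕ) : ℝ) * (q * δ))))) := by
            rw [← ENNReal.ofReal_mul (by positivity), ← ENNReal.ofReal_mul (by positivity),
              ← Real.rpow_add (by norm_num), ← Real.rpow_add (by norm_num)]
            congr 3
            push_cast
            ring
        _ ≤ _ := by
            gcongr
            exact le_add_self
  calc ∫⁻ ω, ‖∫ p, κ ω p * g p ∂π‖ₑ ^ q ∂ν
      ≤ ∫⁻ ω, (∑' k, c k) ^ (q - 1) * ∑' j, c j ^ (1 - q) *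
        (ENNReal.ofReal (2 ^ j * l) * ‖∫ p, κ ω p * gj j p ∂π‖ₑ) ^ q ∂ν := by
        refine lintegral_mono fun ω => ?_
        refine le_trans ?_ (jensen_tsum q hq _ c hc0 hc1)
        exact ENNReal.rpow_le_rpow (hsum ω) hq0.le
    _ = (∑' k, c k) ^ (q - 1) * ∑' j, c j ^ (1 - q) * (ENNReal.ofReal (2 ^ j * l) ^ q *
        ∫⁻ ω, ‖∫ p, κ ω p * gj j p ∂π‖ₑ ^ q ∂ν) := by
        have hmm : ∀ j, Measurable fun ω => c j ^ (1 - q) *
            (ENNReal.ofReal (2 ^ j * l) * ‖∫ p, κ ω p * gj j p ∂π‖ₑ) ^ q := fun j =>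
          (((hTm j).enorm.const_mul _).pow_const q).const_mul _
        rw [lintegral_const_mul _ (Measurable.tsum hmm)]
        congr 1
        rw [lintegral_tsum fun j => (hmm j).aemeasurable]
        congr 1
        ext j
        rw [lintegral_const_mul _ (((hTm j).enorm.const_mul _).pow_const q)]
        congr 1
        rw [← lintegral_const_mul _ ((hTm j).enorm.pow_const q)]
        refine lintegral_congr fun ω => ?_
        rw [ENNReal.mul_rpow_of_nonneg _ _ hq0.le]
    _ ≤ (∑' k, c k) ^ (q - 1) * ∑' j, (D * G * M) * ENNReal.ofReal (ρ ^ j) := by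
        refine mul_le_mul_right (ENNReal.tsum_le_tsum fun j => ?_) _
        have h1 := hM (Lv S g l j) (Lv_meas hS hg l j) (fun p hp => hp.1) (gj j) (hgjm j) (hgj1 j)
          (hgj0 j)
        calc c j ^ (1 - q) * (ENNReal.ofReal (2 ^ j * l) ^ q *
              ∫⁻ ω, ‖∫ p, κ ω p * gj j p ∂π‖ₑ ^ q ∂ν)
            ≤ c j ^ (1 - q) * (ENNReal.ofReal (2 ^ j * l) ^ q * (M * π (Lv S g l j) ^ (1 + δ))) := by
              gcongr
          _ = c j ^ (1 - q) * M * (ENNReal.ofReal (2 ^ j * l) ^ q * π (Lv S g l j) ^ (1 + δ)) := by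
              ring
          _ ≤ c j ^ (1 - q) * M * (G * (D * ENNReal.ofReal ((2 : ℝ) ^ (-((j : ℝ) * (q * δ)))))) :=
              mul_le_mul_right (hlev j) _
          _ = (D * G * M) * (c j ^ (1 - q) * ENNReal.ofReal ((2 : ℝ) ^ (-((j : ℝ) * (q * δ))))) := by
              ring
          _ = _ := by
              congr 1
              rw [hc]
              simp only
              rw [ENNReal.ofReal_rpow_of_pos (by positivity), ← ENNReal.ofReal_mul (by positivity)]
              congr 1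
              have h20 : (0 : ℝ) ≤ 2 := by norm_num
              have e1 : (r ^ j) ^ (1 - q) = (2 : ℝ) ^ (-e * j * (1 - q)) := by
                rw [hr, ← Real.rpow_natCast, ← Real.rpow_mul h20, ← Real.rpow_mul h20]
              have e2 : ρ ^ j = (2 : ℝ) ^ (-(q * δ / 2) * j) := by
                rw [hρ, ← Real.rpow_natCast, ← Real.rpow_mul h20]
              rw [e1, e2, ← Real.rpow_add (by norm_num)]
              congr 1
              have hk : e * (q - 1) = q * δ / 2 := by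
                rw [he]
                have : q - 1 ≠ 0 := by linarith
                field_simp
              linear_combination (j : ℝ) * hk
    _ = _ := by
        rw [ENNReal.tsum_mul_left, tsum_geo ρ hρ0.le hρ1]
        ring

end Pool.Agent.K4H66.DF
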