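import Mathlib
import Pool.Agent.K4H66.RV.A3
import Pool.Agent.K4H66.DF.B1
set_option autoImplicit false

/-! The planar estimate and its tensor square. -/

namespace Pool.Agent.K4H66.DF

open MeasureTheory Complex Set Filter Topology
open scoped ENNReal NNReal ComplexConjugate
open Pool.Agent.R412.RT (ee ee_norm ee_add ee_conj ee_meas ee_cont)
open Pool.Agent.R412.RH (planch1)
open Pool.Agent.K4H66.RV (Pf Pf_meas Vec Sq Sq_eq Sq_meas Kr Kr_ker Qf VP ph_int volA)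

/-- scaling on the line -/
theorem lsc {c : ℝ} (hc : c ≠ 0) (F : ℝ → ℝ≥0∞) (hF : Measurable F) :
    ∫⁻ x, F (c * x) = ENNReal.ofReal |c⁻¹| * ∫⁻ x, F x := by
  have h := Real.map_volume_mul_left hc
  rw [← smul_eq_mul, ← lintegral_smul_measure, ← h, lintegral_map hF (measurable_const_mul c)]

/-- scaling on the plane -/
theorem lsc2 {a b : ℝ} (ha : a ≠ 0) (hb : b ≠ 0) (F : ℝ × ℝ → ℝ≥0∞) (hF : Measurable F) :
    ∫⁻ τ : ℝ × ℝ, F (a * τ.1, b * τ.2) =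
      ENNReal.ofReal |a⁻¹| * (ENNReal.ofReal |b⁻¹| * ∫⁻ τ, F τ) := by
  rw [Measure.volume_eq_prod, lintegral_prod _ (by fun_prop), lintegral_prod _ (by fun_prop)]
  have h1 : ∀ x, ∫⁻ y, F (a * x, b * y) = ENNReal.ofReal |b⁻¹| * ∫⁻ y, F (a * x, y) := fun x =>
    lsc hb (fun y => F (a * x, y)) (by fun_prop)
  simp only [h1]
  rw [lintegral_const_mul _ (by
    have : Measurable fun x => ∫⁻ y, F (a * x, y) := by
      have h2 : Measurable fun z : ℝ × ℝ => F (a * z.1, z.2) := by fun_prop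
      exact h2.lintegral_prod_right'
    exact this)]
  rw [lsc ha (fun x => ∫⁻ y, F (x, y)) hF.lintegral_prod_right']
  ring

/-- the planar estimate, base interval -/
theorem SP1 (p : ℝ) (hp : 4 < p) : ∃ C : ℝ≥0∞, C ≠ ∞ ∧ ∀ h : ℝ → ℂ, Measurable h →
    (∀ x, x ∉ Icc (-(1 / 2) : ℝ) (1 / 2) → h x = 0) → ∫⁻ x, ‖h x‖ₑ ^ p ≠ ∞ →
    ∫⁻ τ : ℝ × ℝ, ‖Pf h τ.1 τ.2‖ₑ ^ p ≤ C * ∫⁻ x, ‖h x‖ₑ ^ p := by
  obtain ⟨K, hK, hVP⟩ := VP (p / 2) (by linarith)
  obtain ⟨C, hC, hL⟩ := LL p (p / 2 - 2) (by linarith) (by linarith) 1 ENNReal.one_ne_top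
  refine ⟨C * K, ENNReal.mul_ne_top hC hK, ?_⟩
  intro h hh hs ht
  refine hL (ℝ × ℝ) ℝ volume volume (Icc (-(1 / 2)) (1 / 2)) measurableSet_Icc
    (volA (subset_refl _)) (fun τ x => ee (x * τ.1 + x ^ 2 * τ.2)) ?_ ?_ K ?_ h hh hs ht
  · exact ee_meas.comp (by fun_prop)
  · intro τ x
    exact (ee_norm _).le
  · intro A hA hA1 g hg hg1 hg0
    have hv : Vec (ι := Unit) A (fun _ => g) := ⟨fun _ => hg, fun x => by
      simp only [Finset.univ_unique, Finset.sum_const, Finset.card_singleton, one_smul]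
      have := hg1 x
      have h0 := norm_nonneg (g x)
      nlinarith, fun _ x hx => by
      by_contra hne
      exact hx (hg0 x hne)⟩
    have h1 := hVP A hA hA1 _ (Kr_ker hv)
    have h2 : ∀ τ : ℝ × ℝ, ‖Pf g τ.1 τ.2‖ₑ ^ p = ‖Qf (Kr fun _ : Unit => g) τ‖ₑ ^ (p / 2) := by
      intro τ
      rw [← Sq_eq hA hA1 hv]
      unfold Sq
      simp only [Finset.univ_unique, Finset.sum_const, Finset.card_singleton, one_smul]
      rw [← ENNReal.rpow_natCast, ← ENNReal.rpow_mul]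
      congr 1
      push_cast
      ring
    have h3 : (1 : ℝ) + (p / 2 - 2) = p / 2 - 1 := by ring
    rw [h3]
    calc ∫⁻ τ : ℝ × ℝ, ‖∫ x, ee (x * τ.1 + x ^ 2 * τ.2) * g x‖ₑ ^ p
        = ∫⁻ τ : ℝ × ℝ, ‖Qf (Kr fun _ : Unit => g) τ‖ₑ ^ (p / 2) :=
          lintegral_congr fun τ => h2 τ
      _ ≤ _ := h1

theorem Pf_scale (h : ℝ → ℂ) {c : ℝ} (hc : 0 < c) (α u : ℝ) :
    Pf h α u = c * Pf (fun x => h (c * x)) (c * α) (c ^ 2 * u) := by
  unfold Pf
  have h1 := Measure.integral_comp_mul_left (fun x => ee (x * α + x ^ 2 * u) * h x) c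
  have h2 : ∀ x, ee (x * (c * α) + x ^ 2 * (c ^ 2 * u)) * h (c * x) =
      ee (c * x * α + (c * x) ^ 2 * u) * h (c * x) := by
    intro x
    congr 2
    ring
  simp_rw [h2]
  rw [h1, abs_of_pos (inv_pos.2 hc), Complex.real_smul, ← mul_assoc]
  push_cast
  rw [mul_inv_cancel₀ (by exact_mod_cast hc.ne'), one_mul]

/-- the planar estimate, any interval -/
theorem SPR (p : ℝ) (hp : 4 < p) (R : ℝ) (hR : 0 < R) : ∃ C : ℝ≥0∞, C ≠ ∞ ∧ ∀ h : ℝ → ℂ,
    Measurable h → (∀ x, x ∉ Icc (-R) R → h x = 0) → ∫⁻ x, ‖h x‖ₑ ^ p ≠ ∞ →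
    ∫⁻ τ : ℝ × ℝ, ‖Pf h τ.1 τ.2‖ₑ ^ p ≤ C * ∫⁻ x, ‖h x‖ₑ ^ p := by
  obtain ⟨C, hC, hS⟩ := SP1 p hp
  set c : ℝ := 2 * R with hc
  have hc0 : 0 < c := by positivity
  have hp0 : 0 < p := by linarith
  refine ⟨ENNReal.ofReal c ^ p * (ENNReal.ofReal |c⁻¹| * (ENNReal.ofReal |(c ^ 2)⁻¹| *
    (C * ENNReal.ofReal |c⁻¹|))), ?_, ?_⟩
  · exact ENNReal.mul_ne_top (ENNReal.rpow_ne_top_of_nonneg hp0.le ENNReal.ofReal_ne_top)
      (ENNReal.mul_ne_top ENNReal.ofReal_ne_top (ENNReal.mul_ne_top ENNReal.ofReal_ne_top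
        (ENNReal.mul_ne_top hC ENNReal.ofReal_ne_top)))
  intro h hh hs ht
  have hh' : Measurable fun x => h (c * x) := by fun_prop
  have h1 : ∫⁻ x, ‖h (c * x)‖ₑ ^ p = ENNReal.ofReal |c⁻¹| * ∫⁻ x, ‖h x‖ₑ ^ p :=
    lsc hc0.ne' (fun x => ‖h x‖ₑ ^ p) (hh.enorm.pow_const p)
  have h2 := hS (fun x => h (c * x)) hh' (by
    intro x hx
    refine hs _ fun h3 => hx ?_
    constructor
    · have := h3.1
      rw [hc] at this
      nlinarith
    · have := h3.2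
      rw [hc] at this
      nlinarith) (by
    rw [h1]
    exact ENNReal.mul_ne_top ENNReal.ofReal_ne_top ht)
  have hPm := Pf_meas _ hh'
  calc ∫⁻ τ : ℝ × ℝ, ‖Pf h τ.1 τ.2‖ₑ ^ p
      = ∫⁻ τ : ℝ × ℝ, ENNReal.ofReal c ^ p *
        ‖Pf (fun x => h (c * x)) (c * τ.1) (c ^ 2 * τ.2)‖ₑ ^ p := by
        refine lintegral_congr fun τ => ?_
        rw [Pf_scale h hc0, enorm_mul, ENNReal.mul_rpow_of_nonneg _ _ hp0.le, ← ofReal_norm (c : ℂ),
          Complex.norm_real, Real.norm_of_nonneg hc0.le]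
    _ = ENNReal.ofReal c ^ p * (ENNReal.ofReal |c⁻¹| * (ENNReal.ofReal |(c ^ 2)⁻¹| *
        ∫⁻ τ : ℝ × ℝ, ‖Pf (fun x => h (c * x)) τ.1 τ.2‖ₑ ^ p)) := by
        rw [lintegral_const_mul _ (by
          have h3 : Measurable fun τ : ℝ × ℝ => (c * τ.1, c ^ 2 * τ.2) := by fun_prop
          exact ((hPm.comp h3).enorm.pow_const p))]
        congr 1
        exact lsc2 hc0.ne' (by positivity)
          (fun τ => ‖Pf (fun x => h (c * x)) τ.1 τ.2‖ₑ ^ p) (hPm.enorm.pow_const p)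
    _ ≤ ENNReal.ofReal c ^ p * (ENNReal.ofReal |c⁻¹| * (ENNReal.ofReal |(c ^ 2)⁻¹| *
        (C * ∫⁻ x, ‖h (c * x)‖ₑ ^ p))) := by
        gcongr
    _ = _ := by
        rw [h1]
        ring

/-- Plancherel -/
theorem P2 (h : ℝ → ℂ) (hi : Integrable h) (v : ℝ) :
    ∫⁻ β, ‖Pf h β v‖ₑ ^ 2 ≤ ∫⁻ x, ‖h x‖ₑ ^ 2 := by
  have h1 : Integrable fun x => ee (x ^ 2 * v) * h x := by
    refine hi.bdd_mul (c := 1) ?_ (Eventually.of_forall fun x => (ee_norm _).le)
    exact (ee_meas.comp (by fun_prop)).aestronglyMeasurable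
  have h2 := planch1 _ h1
  calc ∫⁻ β, ‖Pf h β v‖ₑ ^ 2 = ∫⁻ β : ℝ, ‖∫ u, ee (u * β) * (ee (u ^ 2 * v) * h u)‖ₑ ^ 2 := by
        refine lintegral_congr fun β => ?_
        unfold Pf
        congr 2
        refine integral_congr_ae (Eventually.of_forall fun x => ?_)
        simp only
        rw [ee_add]
        ring
    _ ≤ ∫⁻ u, ‖ee (u ^ 2 * v) * h u‖ₑ ^ 2 := h2
    _ = _ := by
        refine lintegral_congr fun x => ?_
        rw [enorm_mul, ← ofReal_norm (ee _), ee_norm, ENNReal.ofReal_one, one_mul]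

/-- the bounded box -/
def Bx (R : ℝ) : Set (ℝ × ℝ) := Icc (-R) R ×ˢ Icc (-R) R

theorem Bx_meas (R : ℝ) : MeasurableSet (Bx R) := measurableSet_Icc.prod measurableSet_Icc

theorem Bx_vol (R : ℝ) : volume (Bx R) = ENNReal.ofReal (2 * R) ^ 2 := by
  unfold Bx
  rw [Measure.volume_eq_prod, Measure.prod_prod, Real.volume_Icc, sub_neg_eq_add, ← two_mul, sq]

theorem Bx_ne (R : ℝ) : volume (Bx R) ≠ ∞ := by
  rw [Bx_vol]
  exact ENNReal.pow_ne_top ENNReal.ofReal_ne_top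

/-- bounded functions on a subset of the box -/
structure Bd (R : ℝ) (A : Set (ℝ × ℝ)) (f : ℝ × ℝ → ℂ) : Prop where
  measA : MeasurableSet A
  sub : A ⊆ Bx R
  meas : Measurable f
  one : ∀ p, ‖f p‖ ≤ 1
  zero : ∀ p, p ∉ A → f p = 0

theorem Bd.en {R : ℝ} {A : Set (ℝ × ℝ)} {f : ℝ × ℝ → ℂ} (h : Bd R A f) (p : ℝ × ℝ) :
    ‖f p‖ₑ ≤ 1 := by
  rw [← ofReal_norm, ← ENNReal.ofReal_one]
  exact ENNReal.ofReal_le_ofReal (h.one p)

theorem Bd.fin {R : ℝ} {A : Set (ℝ × ℝ)} {f : ℝ × ℝ → ℂ} (h : Bd R A f) : volume A ≠ ∞ :=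
  ne_top_of_le_ne_top (Bx_ne R) (measure_mono h.sub)

theorem Bd.int {R : ℝ} {A : Set (ℝ × ℝ)} {f : ℝ × ℝ → ℂ} (h : Bd R A f) : Integrable f := by
  have h3 : Integrable (A.indicator fun _ : ℝ × ℝ => (1 : ℝ)) := by
    rw [integrable_indicator_iff h.measA]
    exact integrableOn_const h.fin
  refine h3.mono' h.meas.aestronglyMeasurable (Eventually.of_forall fun p => ?_)
  by_cases hp : p ∈ A
  · rw [indicator_of_mem hp]
    exact h.one p
  · rw [indicator_of_notMem hp, h.zero p hp, norm_zero]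

theorem Bd.lp {R : ℝ} {A : Set (ℝ × ℝ)} {f : ℝ × ℝ → ℂ} (h : Bd R A f) (p : ℝ) (hp : 0 < p) :
    ∫⁻ x, ‖f x‖ₑ ^ p ≤ volume A := by
  rw [← lintegral_indicator_one h.measA]
  refine lintegral_mono fun x => ?_
  by_cases hx : x ∈ A
  · rw [indicator_of_mem hx, Pi.one_apply]
    have h1 : ‖f x‖ₑ ≤ 1 := h.en x
    calc ‖f x‖ₑ ^ p ≤ 1 ^ p := ENNReal.rpow_le_rpow h1 hp.le
      _ = 1 := ENNReal.one_rpow _
  · rw [indicator_of_notMem hx, h.zero x hx, enorm_zero, ENNReal.zero_rpow_of_pos hp]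

/-- slices -/
theorem Bd.slice {R : ℝ} {A : Set (ℝ × ℝ)} {f : ℝ × ℝ → ℂ} (h : Bd R A f) (y : ℝ) :
    Integrable fun x => f (x, y) := by
  have h3 : Integrable ((Icc (-R) R).indicator fun _ : ℝ => (1 : ℝ)) := by
    rw [integrable_indicator_iff measurableSet_Icc]
    exact integrableOn_const (by
      rw [Real.volume_Icc]
      exact ENNReal.ofReal_ne_top)
  refine h3.mono' (h.meas.comp (by fun_prop)).aestronglyMeasurable (Eventually.of_forall fun x => ?_)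
  by_cases hp : x ∈ Icc (-R) R
  · rw [indicator_of_mem hp]
    exact h.one _
  · rw [indicator_of_notMem hp, h.zero _ fun h4 => hp (h.sub h4).1, norm_zero]

/-- the phase -/
def qph (a b p : ℝ × ℝ) : ℝ := (p.1 * a.1 + p.1 ^ 2 * a.2) + (p.2 * b.1 + p.2 ^ 2 * b.2)

/-- the extension operator of the product of two parabolas -/
noncomputable def Ff (f : ℝ × ℝ → ℂ) (a b : ℝ × ℝ) : ℂ := ∫ p, ee (qph a b p) * f p

theorem Ff_meas (f : ℝ × ℝ → ℂ) (hf : Measurable f) :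
    Measurable fun z : (ℝ × ℝ) × (ℝ × ℝ) => Ff f z.1 z.2 := by
  have : StronglyMeasurable (Function.uncurry fun (z : (ℝ × ℝ) × (ℝ × ℝ)) (p : ℝ × ℝ) =>
      ee (qph z.1 z.2 p) * f p) := by
    refine Measurable.stronglyMeasurable (Measurable.mul (ee_meas.comp ?_)
      (hf.comp measurable_snd))
    unfold qph
    fun_prop
  exact this.integral_prod_right.measurable

theorem qph_int (f : ℝ × ℝ → ℂ) (hf : Integrable f) (a b : ℝ × ℝ) :
    Integrable fun p => ee (qph a b p) * f p := by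
  refine hf.bdd_mul (c := 1) ?_ (Eventually.of_forall fun x => (ee_norm _).le)
  refine (ee_meas.comp ?_).aestronglyMeasurable
  unfold qph
  fun_prop

theorem Ff_le (f : ℝ × ℝ → ℂ) (a b : ℝ × ℝ) : ‖Ff f a b‖ₑ ≤ ∫⁻ p, ‖f p‖ₑ := by
  unfold Ff
  refine (enorm_integral_le_lintegral_enorm _).trans (le_of_eq ?_)
  refine lintegral_congr fun p => ?_
  rw [enorm_mul, ← ofReal_norm (ee _), ee_norm, ENNReal.ofReal_one, one_mul]

theorem Ff_iter (f : ℝ × ℝ → ℂ) (hf : Integrable f) (a b : ℝ × ℝ) :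
    Ff f a b = Pf (fun y => Pf (fun x => f (x, y)) a.1 a.2) b.1 b.2 := by
  have h1 := qph_int f hf a b
  unfold Ff Pf
  rw [Measure.volume_eq_prod] at h1 ⊢
  rw [integral_prod_symm _ h1]
  refine integral_congr_ae (Eventually.of_forall fun y => ?_)
  simp only
  rw [← integral_const_mul]
  refine integral_congr_ae (Eventually.of_forall fun x => ?_)
  simp only
  unfold qph
  rw [ee_add]
  ring

theorem inner_meas (f : ℝ × ℝ → ℂ) (hf : Measurable f) :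
    Measurable fun z : (ℝ × ℝ) × ℝ => Pf (fun x => f (x, z.2)) z.1.1 z.1.2 := by
  have : StronglyMeasurable (Function.uncurry fun (z : (ℝ × ℝ) × ℝ) (x : ℝ) =>
      ee (x * z.1.1 + x ^ 2 * z.1.2) * f (x, z.2)) := by
    refine Measurable.stronglyMeasurable (Measurable.mul (ee_meas.comp ?_) (hf.comp ?_)) <;>
    fun_prop
  exact this.integral_prod_right.measurable

theorem inner_meas1 (f : ℝ × ℝ → ℂ) (hf : Measurable f) (a : ℝ × ℝ) :
    Measurable fun y : ℝ => Pf (fun x => f (x, y)) a.1 a.2 := by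
  have : StronglyMeasurable (Function.uncurry fun (y : ℝ) (x : ℝ) =>
      ee (x * a.1 + x ^ 2 * a.2) * f (x, y)) := by
    refine Measurable.stronglyMeasurable (Measurable.mul (ee_meas.comp ?_) (hf.comp ?_)) <;>
    fun_prop
  exact this.integral_prod_right.measurable

theorem inner_meas2 (f : ℝ × ℝ → ℂ) (hf : Measurable f) :
    Measurable fun z : ℝ × (ℝ × ℝ) => Pf (fun x => f (x, z.1)) z.2.1 z.2.2 := by
  have : StronglyMeasurable (Function.uncurry fun (z : ℝ × (ℝ × ℝ)) (x : ℝ) =>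
      ee (x * z.2.1 + x ^ 2 * z.2.2) * f (x, z.1)) := by
    refine Measurable.stronglyMeasurable (Measurable.mul (ee_meas.comp ?_) (hf.comp ?_)) <;>
    fun_prop
  exact this.integral_prod_right.measurable

theorem inner_meas3 (f : ℝ × ℝ → ℂ) (hf : Measurable f) (u : ℝ) :
    Measurable fun z : ℝ × ℝ => Pf (fun x => f (x, z.2)) z.1 u := by
  have : StronglyMeasurable (Function.uncurry fun (z : ℝ × ℝ) (x : ℝ) =>
      ee (x * z.1 + x ^ 2 * u) * f (x, z.2)) := by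
    refine Measurable.stronglyMeasurable (Measurable.mul (ee_meas.comp ?_) (hf.comp ?_)) <;>
    fun_prop
  exact this.integral_prod_right.measurable

theorem Pf_le (h : ℝ → ℂ) (α u : ℝ) : ‖Pf h α u‖ₑ ≤ ∫⁻ x, ‖h x‖ₑ := by
  unfold Pf
  refine (enorm_integral_le_lintegral_enorm _).trans (le_of_eq ?_)
  refine lintegral_congr fun p => ?_
  rw [enorm_mul, ← ofReal_norm (ee _), ee_norm, ENNReal.ofReal_one, one_mul]

theorem Bd.slice_le {R : ℝ} {A : Set (ℝ × ℝ)} {f : ℝ × ℝ → ℂ} (h : Bd R A f) (y α u : ℝ) :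
    ‖Pf (fun x => f (x, y)) α u‖ₑ ≤ (Icc (-R) R).indicator (fun _ => ENNReal.ofReal (2 * R)) y := by
  by_cases hy : y ∈ Icc (-R) R
  · rw [indicator_of_mem hy]
    refine (Pf_le _ α u).trans ?_
    calc ∫⁻ x, ‖f (x, y)‖ₑ ≤ ∫⁻ x, (Icc (-R) R).indicator 1 x := by
          refine lintegral_mono fun x => ?_
          by_cases hp : x ∈ Icc (-R) R
          · rw [indicator_of_mem hp, Pi.one_apply]
            exact h.en (x, y)
          · rw [indicator_of_notMem hp, h.zero (x, y) fun h4 => hp (h.sub h4).1, enorm_zero]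
      _ = _ := by
          rw [lintegral_indicator_one measurableSet_Icc, Real.volume_Icc, sub_neg_eq_add, ← two_mul]
  · rw [indicator_of_notMem hy]
    refine (Pf_le _ α u).trans (le_of_eq ?_)
    have : ∀ x, ‖f (x, y)‖ₑ = 0 := fun x => by
      rw [h.zero (x, y) fun h4 => hy (h.sub h4).2, enorm_zero]
    simp_rw [this]
    exact lintegral_zero

/-- the four dimensional estimate -/
theorem S4 (p : ℝ) (hp : 4 < p) (R : ℝ) (hR : 0 < R) : ∃ C : ℝ≥0∞, C ≠ ∞ ∧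
    ∀ (A : Set (ℝ × ℝ)) (f : ℝ × ℝ → ℂ), Bd R A f →
    ∫⁻ a, ∫⁻ b, ‖Ff f a b‖ₑ ^ p ≤ C * volume A := by
  obtain ⟨C, hC, hS⟩ := SPR p hp R hR
  have hp0 : 0 < p := by linarith
  refine ⟨C * C, ENNReal.mul_ne_top hC hC, ?_⟩
  intro A f hf
  have hi := hf.int
  have hIm := inner_meas f hf.meas
  have h1 : ∀ a : ℝ × ℝ, ∫⁻ b, ‖Ff f a b‖ₑ ^ p ≤
      C * ∫⁻ y, ‖Pf (fun x => f (x, y)) a.1 a.2‖ₑ ^ p := by
    intro a
    simp_rw [Ff_iter f hi]
    refine hS (fun y => Pf (fun x => f (x, y)) a.1 a.2) ?_ ?_ ?_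
    · exact inner_meas1 f hf.meas a
    · intro y hy
      have h2 := hf.slice_le y a.1 a.2
      rw [indicator_of_notMem hy] at h2
      exact enorm_eq_zero.1 (le_antisymm h2 zero_le)
    · refine ne_top_of_le_ne_top ?_ (lintegral_mono fun y =>
        ENNReal.rpow_le_rpow (hf.slice_le y a.1 a.2) hp0.le)
      have h3 : ∀ y, (Icc (-R) R).indicator (fun _ => ENNReal.ofReal (2 * R)) y ^ p =
          (Icc (-R) R).indicator (fun _ => ENNReal.ofReal (2 * R) ^ p) y := by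
        intro y
        by_cases hy : y ∈ Icc (-R) R
        · rw [indicator_of_mem hy, indicator_of_mem hy]
        · rw [indicator_of_notMem hy, indicator_of_notMem hy, ENNReal.zero_rpow_of_pos hp0]
      simp_rw [h3]
      rw [lintegral_indicator measurableSet_Icc, setLIntegral_const, Real.volume_Icc]
      exact ENNReal.mul_ne_top (ENNReal.rpow_ne_top_of_nonneg hp0.le ENNReal.ofReal_ne_top)
        ENNReal.ofReal_ne_top
  have h2 : ∀ y : ℝ, ∫⁻ a : ℝ × ℝ, ‖Pf (fun x => f (x, y)) a.1 a.2‖ₑ ^ p ≤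
      C * ∫⁻ x, ‖f (x, y)‖ₑ ^ p := by
    intro y
    refine hS (fun x => f (x, y)) (hf.meas.comp (by fun_prop)) ?_ ?_
    · intro x hx
      exact hf.zero _ fun h4 => hx (hf.sub h4).1
    · have h3 : ∀ x, ‖f (x, y)‖ₑ ^ p ≤ (Icc (-R) R).indicator 1 x := by
        intro x
        by_cases hp : x ∈ Icc (-R) R
        · rw [indicator_of_mem hp, Pi.one_apply]
          have h4 : ‖f (x, y)‖ₑ ≤ 1 := hf.en (x, y)
          calc ‖f (x, y)‖ₑ ^ p ≤ 1 ^ p := ENNReal.rpow_le_rpow h4 hp0.le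
            _ = 1 := ENNReal.one_rpow _
        · rw [indicator_of_notMem hp, hf.zero (x, y) fun h4 => hp (hf.sub h4).1, enorm_zero,
            ENNReal.zero_rpow_of_pos hp0]
      refine ne_top_of_le_ne_top ?_ (lintegral_mono h3)
      rw [lintegral_indicator_one measurableSet_Icc, Real.volume_Icc]
      exact ENNReal.ofReal_ne_top
  calc ∫⁻ a, ∫⁻ b, ‖Ff f a b‖ₑ ^ p
      ≤ ∫⁻ a : ℝ × ℝ, C * ∫⁻ y, ‖Pf (fun x => f (x, y)) a.1 a.2‖ₑ ^ p := lintegral_mono h1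
    _ = C * ∫⁻ a : ℝ × ℝ, ∫⁻ y, ‖Pf (fun x => f (x, y)) a.1 a.2‖ₑ ^ p := by
        rw [lintegral_const_mul]
        exact (hIm.enorm.pow_const p).lintegral_prod_right'
    _ = C * ∫⁻ y, ∫⁻ a : ℝ × ℝ, ‖Pf (fun x => f (x, y)) a.1 a.2‖ₑ ^ p := by
        rw [lintegral_lintegral_swap]
        exact (hIm.enorm.pow_const p).aemeasurable
    _ ≤ C * ∫⁻ y, C * ∫⁻ x, ‖f (x, y)‖ₑ ^ p := by
        gcongr with y
        exact h2 y
    _ = C * (C * ∫⁻ y, ∫⁻ x, ‖f (x, y)‖ₑ ^ p) := by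
        rw [lintegral_const_mul]
        exact (hf.meas.enorm.pow_const p).lintegral_prod_left'
    _ = C * (C * ∫⁻ z, ‖f z‖ₑ ^ p) := by
        congr 2
        rw [Measure.volume_eq_prod, lintegral_prod_symm _ (hf.meas.enorm.pow_const p).aemeasurable]
    _ ≤ C * (C * volume A) := by
        gcongr
        exact hf.lp p hp0
    _ = _ := by ring

/-- Plancherel in the two frequencies -/
theorem S2 {R : ℝ} {A : Set (ℝ × ℝ)} {f : ℝ × ℝ → ℂ} (hf : Bd R A f) (u v : ℝ) :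
    ∫⁻ w : ℝ × ℝ, ‖Ff f (w.1, u) (w.2, v)‖ₑ ^ 2 ≤ volume A := by
  have hi := hf.int
  have hIm := inner_meas f hf.meas
  have hm : Measurable fun w : ℝ × ℝ => ‖Ff f (w.1, u) (w.2, v)‖ₑ ^ 2 :=
    ((Ff_meas f hf.meas).comp (by fun_prop : Measurable fun w : ℝ × ℝ =>
      (((w.1, u), (w.2, v)) : (ℝ × ℝ) × (ℝ × ℝ)))).enorm.pow_const 2
  rw [Measure.volume_eq_prod, lintegral_prod _ hm.aemeasurable]
  have h1 : ∀ α : ℝ, ∫⁻ β, ‖Ff f (α, u) (β, v)‖ₑ ^ 2 ≤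
      ∫⁻ y, ‖Pf (fun x => f (x, y)) α u‖ₑ ^ 2 := by
    intro α
    simp_rw [Ff_iter f hi]
    refine P2 (fun y => Pf (fun x => f (x, y)) α u) ?_ v
    have h3 : Integrable ((Icc (-R) R).indicator fun _ : ℝ => 2 * R) := by
      rw [integrable_indicator_iff measurableSet_Icc]
      exact integrableOn_const (by
        rw [Real.volume_Icc]
        exact ENNReal.ofReal_ne_top)
    refine h3.mono' (inner_meas1 f hf.meas (α, u)).aestronglyMeasurable
      (Eventually.of_forall fun y => ?_)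
    have h4 := hf.slice_le y α u
    by_cases hy : y ∈ Icc (-R) R
    · rw [indicator_of_mem hy] at h4 ⊢
      rw [← ofReal_norm] at h4
      have hR : 0 ≤ 2 * R := by
        have := hy.1.trans hy.2
        linarith
      exact (ENNReal.ofReal_le_ofReal_iff hR).1 h4
    · rw [indicator_of_notMem hy] at h4 ⊢
      have h5 := enorm_eq_zero.1 (le_antisymm h4 zero_le)
      exact (norm_eq_zero.2 h5).le
  calc ∫⁻ α, ∫⁻ β, ‖Ff f (α, u) (β, v)‖ₑ ^ 2
      ≤ ∫⁻ α, ∫⁻ y, ‖Pf (fun x => f (x, y)) α u‖ₑ ^ 2 := lintegral_mono h1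
    _ = ∫⁻ y, ∫⁻ α, ‖Pf (fun x => f (x, y)) α u‖ₑ ^ 2 := by
        rw [lintegral_lintegral_swap]
        exact ((inner_meas3 f hf.meas u).enorm.pow_const 2).aemeasurable
    _ ≤ ∫⁻ y, ∫⁻ x, ‖f (x, y)‖ₑ ^ 2 := by
        refine lintegral_mono fun y => ?_
        exact P2 (fun x => f (x, y)) (hf.slice y) u
    _ = ∫⁻ z, ‖f z‖ₑ ^ 2 := by
        rw [Measure.volume_eq_prod, lintegral_prod_symm _ (hf.meas.enorm.pow_const 2).aemeasurable]
    _ = ∫⁻ z, ‖f z‖ₑ ^ (2 : ℝ) := by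
        refine lintegral_congr fun z => ?_
        rw [← ENNReal.rpow_natCast]
        norm_num
    _ ≤ _ := hf.lp 2 (by norm_num)

end Pool.Agent.K4H66.DF
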