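import Mathlib
import Pool.Agent.K4H66.DF.B2
set_option autoImplicit false

/-! Local constancy in the last frequency. -/

namespace Pool.Agent.K4H66.DF

open MeasureTheory Complex Set Filter Topology
open scoped ENNReal NNReal ComplexConjugate
open Pool.Agent.R412.RT (ee ee_norm ee_add ee_conj ee_meas ee_cont)

/-- Jensen -/
theorem HJ {Ω : Type*} [MeasurableSpace Ω] (μ : Measure Ω) (p : ℝ) (hp : 1 < p) (h : Ω → ℝ≥0∞)
    (hh : AEMeasurable h μ) : (∫⁻ x, h x ∂μ) ^ p ≤ μ univ ^ (p - 1) * ∫⁻ x, h x ^ p ∂μ := by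
  have hp0 : 0 < p := by linarith
  have hp1 : 0 < p - 1 := by linarith
  have hc : p.HolderConjugate (p / (p - 1)) := by
    rw [Real.holderConjugate_iff]
    refine ⟨hp, ?_⟩
    field_simp
    ring
  have h1 := ENNReal.lintegral_mul_le_Lp_mul_Lq μ hc hh (g := fun _ => 1) aemeasurable_const
  have h2 : ∫⁻ x, ((h * fun _ => 1 : Ω → ℝ≥0∞)) x ∂μ = ∫⁻ x, h x ∂μ := by
    refine lintegral_congr fun x => ?_
    simp
  have h3 : ∫⁻ _ : Ω, (1 : ℝ≥0∞) ^ (p / (p - 1)) ∂μ = μ univ := by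
    simp
  rw [h2, h3] at h1
  calc (∫⁻ x, h x ∂μ) ^ p ≤ ((∫⁻ x, h x ^ p ∂μ) ^ (1 / p) * μ univ ^ (1 / (p / (p - 1)))) ^ p :=
        ENNReal.rpow_le_rpow h1 hp0.le
    _ = _ := by
        rw [ENNReal.mul_rpow_of_nonneg _ _ hp0.le, ← ENNReal.rpow_mul, ← ENNReal.rpow_mul,
          one_div_mul_cancel hp0.ne', ENNReal.rpow_one, mul_comm]
        congr 2
        field_simp

/-- multiplication by the square of the second coordinate, normalized -/
noncomputable def sq2 (R : ℝ) (f : ℝ × ℝ → ℂ) (p : ℝ × ℝ) : ℂ := ((p.2 ^ 2 / R ^ 2 : ℝ) : ℂ) * f p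

theorem Bd.sq2 {R : ℝ} (hR : 0 < R) {A : Set (ℝ × ℝ)} {f : ℝ × ℝ → ℂ} (h : Bd R A f) :
    Bd R A (sq2 R f) := by
  refine ⟨h.measA, h.sub, ?_, ?_, ?_⟩
  · unfold DF.sq2
    exact (Complex.measurable_ofReal.comp (by fun_prop)).mul h.meas
  · intro p
    unfold DF.sq2
    by_cases hp : p ∈ A
    · have h1 := (h.sub hp).2
      rw [norm_mul, Complex.norm_real, Real.norm_of_nonneg (by positivity)]
      have h2 : p.2 ^ 2 / R ^ 2 ≤ 1 := by
        rw [div_le_one (by positivity)]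
        exact sq_le_sq' h1.1 h1.2
      exact mul_le_one₀ h2 (norm_nonneg _) (h.one p)
    · rw [h.zero p hp, mul_zero, norm_zero]
      exact zero_le_one
  · intro p hp
    unfold DF.sq2
    rw [h.zero p hp, mul_zero]

theorem ee_deriv (c v : ℝ) : HasDerivAt (fun v : ℝ => ee (c * v)) (2 * Real.pi * c * I * ee (c * v)) v := by
  unfold ee
  have h1 : HasDerivAt (fun v : ℝ => 2 * (Real.pi : ℂ) * ((c * v : ℝ) : ℂ) * I)
      (2 * Real.pi * c * I) v := by
    have h2 : HasDerivAt (fun v : ℝ => ((c * v : ℝ) : ℂ)) (c : ℂ) v := by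
      have h3 : HasDerivAt (fun v : ℝ => c * v) c v := by
        simpa using (hasDerivAt_id v).const_mul c
      exact h3.ofReal_comp
    have h4 := (h2.const_mul (2 * (Real.pi : ℂ))).mul_const I
    exact h4
  have h5 := h1.cexp
  convert h5 using 1
  ring

/-- derivative in the last frequency -/
theorem Ff_deriv {R : ℝ} (hR : 0 < R) {A : Set (ℝ × ℝ)} {f : ℝ × ℝ → ℂ} (h : Bd R A f)
    (a : ℝ × ℝ) (β v : ℝ) : HasDerivAt (fun v => Ff f a (β, v))
      (2 * Real.pi * R ^ 2 * I * Ff (sq2 R f) a (β, v)) v := by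
  unfold Ff
  have hi := h.int
  have hE : ∀ w : ℝ, AEStronglyMeasurable (fun p : ℝ × ℝ => ee (qph a (β, w) p)) volume := by
    intro w
    refine (ee_meas.comp ?_).aestronglyMeasurable
    unfold qph
    fun_prop
  have h1 := hasDerivAt_integral_of_dominated_loc_of_deriv_le (μ := (volume : Measure (ℝ × ℝ)))
    (F := fun (w : ℝ) (p : ℝ × ℝ) => ee (qph a (β, w) p) * f p) (x₀ := v) (s := univ)
    (F' := fun (w : ℝ) (p : ℝ × ℝ) => 2 * Real.pi * R ^ 2 * I * (ee (qph a (β, w) p) * sq2 R f p))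
    (bound := fun p => 2 * Real.pi * R ^ 2 * ‖f p‖) Filter.univ_mem
    (Eventually.of_forall fun w => (hE w).mul h.meas.aestronglyMeasurable)
    (qph_int f hi a (β, v))
    (((hE v).mul (h.sq2 hR).meas.aestronglyMeasurable).const_mul _)
    (Eventually.of_forall fun p w _ => by
      have h2 : ‖(2 * Real.pi * R ^ 2 * I : ℂ)‖ = 2 * Real.pi * R ^ 2 := by
        rw [norm_mul, Complex.norm_I, mul_one]
        have : (2 * Real.pi * R ^ 2 : ℂ) = ((2 * Real.pi * R ^ 2 : ℝ) : ℂ) := by push_cast; ring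
        rw [this, Complex.norm_real, Real.norm_of_nonneg (by positivity)]
      rw [norm_mul, h2, norm_mul, ee_norm, one_mul]
      refine mul_le_mul_of_nonneg_left ?_ (by positivity)
      unfold sq2
      by_cases hp : p ∈ A
      · have h1 := (h.sub hp).2
        rw [norm_mul, Complex.norm_real, Real.norm_of_nonneg (by positivity)]
        have h2 : p.2 ^ 2 / R ^ 2 ≤ 1 := by
          rw [div_le_one (by positivity)]
          exact sq_le_sq' h1.1 h1.2
        exact mul_le_of_le_one_left (norm_nonneg _) h2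
      · rw [h.zero p hp, mul_zero])
    (hi.norm.const_mul _)
    (Eventually.of_forall fun p w _ => by
      have h2 := ee_deriv (p.2 ^ 2) w
      have h3 : ∀ w, ee (qph a (β, w) p) * f p =
          ee (p.2 ^ 2 * w) * (ee (p.1 * a.1 + p.1 ^ 2 * a.2 + p.2 * β) * f p) := by
        intro w
        unfold qph
        rw [show p.1 * a.1 + p.1 ^ 2 * a.2 + (p.2 * β + p.2 ^ 2 * w) =
          p.2 ^ 2 * w + (p.1 * a.1 + p.1 ^ 2 * a.2 + p.2 * β) by ring, ee_add]
        ring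
      simp_rw [h3]
      refine (h2.mul_const (ee (p.1 * a.1 + p.1 ^ 2 * a.2 + p.2 * β) * f p)).congr_deriv ?_
      have h6 : ee (qph a (β, w) p) =
          ee (p.2 ^ 2 * w) * ee (p.1 * a.1 + p.1 ^ 2 * a.2 + p.2 * β) := by
        unfold qph
        rw [show p.1 * a.1 + p.1 ^ 2 * a.2 + (p.2 * β + p.2 ^ 2 * w) =
          p.2 ^ 2 * w + (p.1 * a.1 + p.1 ^ 2 * a.2 + p.2 * β) by ring, ee_add]
      have hRc : (R : ℂ) ≠ 0 := by exact_mod_cast hR.ne'
      rw [h6]
      unfold sq2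
      generalize ee (p.2 ^ 2 * w) = e1
      generalize ee (p.1 * a.1 + p.1 ^ 2 * a.2 + p.2 * β) = e2
      push_cast
      field_simp)
  have h3 := h1.2
  rw [integral_const_mul] at h3
  exact h3

theorem Ff_measv (f : ℝ × ℝ → ℂ) (hf : Measurable f) (a : ℝ × ℝ) (β : ℝ) :
    Measurable fun w : ℝ => Ff f a (β, w) := by
  have : StronglyMeasurable (Function.uncurry fun (w : ℝ) (p : ℝ × ℝ) =>
      ee (qph a (β, w) p) * f p) := by
    refine Measurable.stronglyMeasurable (Measurable.mul (ee_meas.comp ?_)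
      (hf.comp measurable_snd))
    unfold qph
    fun_prop
  exact this.integral_prod_right.measurable

/-- local constancy -/
theorem LC (p : ℝ) (hp : 1 < p) (R : ℝ) (hR : 0 < R) : ∃ C : ℝ≥0∞, C ≠ ∞ ∧
    ∀ (A : Set (ℝ × ℝ)) (f : ℝ × ℝ → ℂ), Bd R A f → ∀ (a : ℝ × ℝ) (β v : ℝ),
    ‖Ff f a (β, v)‖ₑ ^ p ≤ C * ∫⁻ w in Icc (v - 1) (v + 1),
      (‖Ff f a (β, w)‖ₑ ^ p + ‖Ff (sq2 R f) a (β, w)‖ₑ ^ p) := by
  have hp0 : 0 < p := by linarith
  set c : ℝ≥0∞ := ENNReal.ofReal (2 * Real.pi * R ^ 2) with hc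
  refine ⟨2 ^ (p - 1) * (1 + c ^ p * 2 ^ p), ?_, ?_⟩
  · refine ENNReal.mul_ne_top (ENNReal.rpow_ne_top_of_nonneg (by linarith) (by norm_num))
      (ENNReal.add_ne_top.2 ⟨ENNReal.one_ne_top, ENNReal.mul_ne_top
        (ENNReal.rpow_ne_top_of_nonneg hp0.le ENNReal.ofReal_ne_top)
        (ENNReal.rpow_ne_top_of_nonneg hp0.le (by norm_num))⟩)
  intro A f hf a β v
  set J : Set ℝ := Icc (v - 1) (v + 1) with hJ
  have hJv : volume J = 2 := by
    rw [hJ, Real.volume_Icc]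
    norm_num
  have hf2 := hf.sq2 hR
  have hm1 : Measurable fun w => Ff f a (β, w) := Ff_measv f hf.meas a β
  have hm2 : Measurable fun w => Ff (sq2 R f) a (β, w) := Ff_measv _ hf2.meas a β
  have hcont : Continuous fun w => 2 * Real.pi * R ^ 2 * I * Ff (sq2 R f) a (β, w) := by
    refine continuous_const.mul ?_
    exact continuous_iff_continuousAt.2 fun w => (Ff_deriv hR hf2 a β w).continuousAt
  set X := ∫⁻ w in J, ‖Ff (sq2 R f) a (β, w)‖ₑ with hX
  have h1 : ∀ w ∈ J, ‖Ff f a (β, v)‖ₑ ≤ ‖Ff f a (β, w)‖ₑ + c * X := by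
    intro w hw
    have h2 := intervalIntegral.integral_eq_sub_of_hasDerivAt (a := w) (b := v)
      (fun x _ => Ff_deriv hR hf a β x) (hcont.intervalIntegrable _ _)
    have h3 : Ff f a (β, v) = Ff f a (β, w) +
        ∫ x in w..v, 2 * Real.pi * R ^ 2 * I * Ff (sq2 R f) a (β, x) := by
      rw [h2]; ring
    rw [h3]
    refine (enorm_add_le _ _).trans (add_le_add le_rfl ?_)
    have h4 : ‖∫ x in w..v, 2 * Real.pi * R ^ 2 * I * Ff (sq2 R f) a (β, x)‖ₑ ≤
        ∫⁻ x in Set.uIoc w v, ‖2 * Real.pi * R ^ 2 * I * Ff (sq2 R f) a (β, x)‖ₑ := by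
      rw [← ofReal_norm, intervalIntegral.norm_intervalIntegral_eq, ofReal_norm]
      exact enorm_integral_le_lintegral_enorm _
    refine h4.trans ?_
    have h5 : Set.uIoc w v ⊆ J := by
      intro x hx
      rw [Set.mem_uIoc] at hx
      rw [hJ] at hw ⊢
      rcases hx with hx | hx
      · exact ⟨by linarith [hw.1, hx.1], by linarith [hx.2]⟩
      · exact ⟨by linarith [hx.1], by linarith [hx.2, hw.2]⟩
    refine (lintegral_mono_set h5).trans ?_
    rw [hX, ← lintegral_const_mul _ hm2.enorm]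
    refine lintegral_mono fun x => ?_
    rw [enorm_mul]
    gcongr
    rw [hc, ← ofReal_norm]
    refine ENNReal.ofReal_le_ofReal ?_
    rw [norm_mul, Complex.norm_I, mul_one]
    have : (2 * Real.pi * R ^ 2 : ℂ) = ((2 * Real.pi * R ^ 2 : ℝ) : ℂ) := by push_cast; ring
    rw [this, Complex.norm_real, Real.norm_of_nonneg (by positivity)]
  have h2 : ∀ w ∈ J, ‖Ff f a (β, v)‖ₑ ^ p ≤
      2 ^ (p - 1) * (‖Ff f a (β, w)‖ₑ ^ p + (c * X) ^ p) := by
    intro w hw
    exact (ENNReal.rpow_le_rpow (h1 w hw) hp0.le).trans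
      (ENNReal.rpow_add_le_mul_rpow_add_rpow _ _ hp.le)
  have hXp : X ^ p ≤ 2 ^ (p - 1) * ∫⁻ w in J, ‖Ff (sq2 R f) a (β, w)‖ₑ ^ p := by
    have h3 := HJ (volume.restrict J) p hp (fun w => ‖Ff (sq2 R f) a (β, w)‖ₑ)
      hm2.enorm.aemeasurable
    rwa [Measure.restrict_apply_univ, hJv] at h3
  have h3 : 2 * ‖Ff f a (β, v)‖ₑ ^ p ≤
      2 ^ (p - 1) * ((∫⁻ w in J, ‖Ff f a (β, w)‖ₑ ^ p) + 2 * (c * X) ^ p) := by
    calc 2 * ‖Ff f a (β, v)‖ₑ ^ p = ∫⁻ w in J, ‖Ff f a (β, v)‖ₑ ^ p := by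
          rw [setLIntegral_const, hJv, mul_comm]
      _ ≤ ∫⁻ w in J, 2 ^ (p - 1) * (‖Ff f a (β, w)‖ₑ ^ p + (c * X) ^ p) :=
          setLIntegral_mono' measurableSet_Icc h2
      _ = _ := by
          rw [lintegral_const_mul _ ((hm1.enorm.pow_const p).add_const _),
            lintegral_add_right _ measurable_const, setLIntegral_const, hJv, mul_comm _ (2 : ℝ≥0∞)]
  have h4 : ‖Ff f a (β, v)‖ₑ ^ p ≤ 2 * ‖Ff f a (β, v)‖ₑ ^ p := by
    rw [two_mul]
    exact le_self_add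
  refine h4.trans (h3.trans ?_)
  rw [mul_assoc]
  refine mul_le_mul_right ?_ _
  rw [lintegral_add_left (hm1.enorm.pow_const p)]
  set Y := ∫⁻ w in J, ‖Ff f a (β, w)‖ₑ ^ p
  set Z := ∫⁻ w in J, ‖Ff (sq2 R f) a (β, w)‖ₑ ^ p
  have h5 : 2 * (c * X) ^ p ≤ c ^ p * 2 ^ p * Z := by
    rw [ENNReal.mul_rpow_of_nonneg _ _ hp0.le]
    calc 2 * (c ^ p * X ^ p) ≤ 2 * (c ^ p * (2 ^ (p - 1) * Z)) := by gcongr
      _ = c ^ p * (2 ^ (1 : ℝ) * 2 ^ (p - 1)) * Z := by
          rw [ENNReal.rpow_one]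
          ring
      _ = _ := by
          rw [← ENNReal.rpow_add_of_nonneg _ _ (by norm_num) (by linarith)]
          congr 3
          ring
  calc Y + 2 * (c * X) ^ p ≤ Y + c ^ p * 2 ^ p * Z := by gcongr
    _ ≤ (1 + c ^ p * 2 ^ p) * Y + (1 + c ^ p * 2 ^ p) * Z := by
        refine add_le_add ?_ ?_
        · calc Y = 1 * Y := (one_mul Y).symm
            _ ≤ _ := by
              gcongr
              exact le_self_add
        · gcongr
          exact le_add_self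
    _ = _ := by ring

end Pool.Agent.K4H66.DF
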