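import Mathlib
import Pool.Agent.K4H66.DF.B3
set_option autoImplicit false

/-! The basic weighted estimate. -/

namespace Pool.Agent.K4H66.DF

open MeasureTheory Complex Set Filter Topology
open scoped ENNReal NNReal ComplexConjugate
open Pool.Agent.R412.RT (ee ee_norm ee_add ee_conj ee_meas ee_cont)

/-- the operator with the second vertical frequency on the line of slope `ω.1` -/
noncomputable def Gf (f : ℝ × ℝ → ℂ) (ω : ℝ × ((ℝ × ℝ) × ℝ)) : ℂ :=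
  Ff f ω.2.1 (ω.2.2, ω.1 * ω.2.1.2)

/-- the measure -/
noncomputable def rho (Sh : Set ℝ) : Measure (ℝ × ℝ) := (volume : Measure ℝ).prod (volume.restrict Sh)

instance (Sh : Set ℝ) : SFinite (rho Sh) := by unfold rho; infer_instance

noncomputable def nu (μ : Measure ℝ) (Sh : Set ℝ) : Measure (ℝ × ((ℝ × ℝ) × ℝ)) :=
  μ.prod ((rho Sh).prod volume)

/-- admissible data -/
structure Adm (T L : ℝ) (k : ℝ≥0∞) (μ : Measure ℝ) (Sh : Set ℝ) : Prop where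
  Tpos : 0 < T
  mass : μ univ ≤ 1
  small : ∀ x, μ (Icc x (x + 2 / T)) ≤ k
  measSh : MeasurableSet Sh
  low : ∀ t ∈ Sh, T ≤ |t|
  vol : volume Sh ≤ ENNReal.ofReal (L * T)

theorem Gker_meas : Measurable (Function.uncurry fun (ω : ℝ × ((ℝ × ℝ) × ℝ)) (p : ℝ × ℝ) =>
    ee (qph ω.2.1 (ω.2.2, ω.1 * ω.2.1.2) p)) := by
  refine ee_meas.comp ?_
  unfold qph
  fun_prop

theorem Gf_meas (f : ℝ × ℝ → ℂ) (hf : Measurable f) : Measurable (Gf f) := by
  have : StronglyMeasurable (Function.uncurry fun (ω : ℝ × ((ℝ × ℝ) × ℝ)) (p : ℝ × ℝ) =>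
      ee (qph ω.2.1 (ω.2.2, ω.1 * ω.2.1.2) p) * f p) := by
    exact (Measurable.mul Gker_meas (hf.comp measurable_snd)).stronglyMeasurable
  exact this.integral_prod_right.measurable

theorem Ff_measb (f : ℝ × ℝ → ℂ) (hf : Measurable f) (a : ℝ × ℝ) :
    Measurable fun b : ℝ × ℝ => Ff f a b := by
  have : StronglyMeasurable (Function.uncurry fun (b : ℝ × ℝ) (p : ℝ × ℝ) =>
      ee (qph a b p) * f p) := by
    refine Measurable.stronglyMeasurable (Measurable.mul (ee_meas.comp ?_)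
      (hf.comp measurable_snd))
    unfold qph
    fun_prop
  exact this.integral_prod_right.measurable

theorem Ff_measw (f : ℝ × ℝ → ℂ) (hf : Measurable f) (u v : ℝ) :
    Measurable fun w : ℝ × ℝ => Ff f (w.1, u) (w.2, v) := by
  have : StronglyMeasurable (Function.uncurry fun (w : ℝ × ℝ) (p : ℝ × ℝ) =>
      ee (qph (w.1, u) (w.2, v) p) * f p) := by
    refine Measurable.stronglyMeasurable (Measurable.mul (ee_meas.comp ?_)
      (hf.comp measurable_snd))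
    unfold qph
    fun_prop
  exact this.integral_prod_right.measurable

/-- the interval of slopes -/
theorem slopes {T L : ℝ} {k : ℝ≥0∞} {μ : Measure ℝ} {Sh : Set ℝ} (h : Adm T L k μ Sh) {t : ℝ}
    (ht : T ≤ |t|) (w : ℝ) : μ {b | b * t - 1 ≤ w ∧ w ≤ b * t + 1} ≤ k := by
  refine (measure_mono ?_).trans (h.small (w / t - 1 / T))
  intro b hb
  have hT := h.Tpos
  have ht0 : 0 < |t| := hT.trans_le ht
  have htn : t ≠ 0 := abs_pos.1 ht0
  have h1 : |b - w / t| ≤ 1 / T := by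
    have h2 : |b * t - w| ≤ 1 := abs_le.2 ⟨by linarith [hb.2], by linarith [hb.1]⟩
    have h3 : b - w / t = (b * t - w) / t := by field_simp
    rw [h3, abs_div]
    calc |b * t - w| / |t| ≤ 1 / |t| := by gcongr
      _ ≤ 1 / T := by gcongr
  have h2 := abs_le.1 h1
  constructor
  · linarith [h2.1]
  · have : 2 / T = 1 / T + 1 / T := by ring
    rw [this]
    linarith [h2.2]

/-- the L^p part -/
theorem Wp (p : ℝ) (hp : 4 < p) (R : ℝ) (hR : 0 < R) : ∃ C : ℝ≥0∞, C ≠ ∞ ∧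
    ∀ (T L : ℝ) (k : ℝ≥0∞) (μ : Measure ℝ) [SFinite μ] (Sh : Set ℝ), Adm T L k μ Sh →
    ∀ (A : Set (ℝ × ℝ)) (f : ℝ × ℝ → ℂ), Bd R A f →
    ∫⁻ ω, ‖Gf f ω‖ₑ ^ p ∂(nu μ Sh) ≤ C * k * volume A := by
  obtain ⟨C1, hC1, hS4⟩ := S4 p hp R hR
  obtain ⟨C2, hC2, hLC⟩ := LC p (by linarith) R hR
  refine ⟨C2 * (C1 + C1), ENNReal.mul_ne_top hC2 (ENNReal.add_ne_top.2 ⟨hC1, hC1⟩), ?_⟩
  intro T L k μ _ Sh hadm A f hf
  have hf2 := hf.sq2 hR
  have hGm := Gf_meas f hf.meas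
  -- the majorant
  set Ψ : ℝ × ℝ → ℝ × ℝ → ℝ≥0∞ := fun a b => ‖Ff f a b‖ₑ ^ p + ‖Ff (sq2 R f) a b‖ₑ ^ p with hΨ
  have hΨm : ∀ a, Measurable (Ψ a) := fun a =>
    ((Ff_measb f hf.meas a).enorm.pow_const p).add ((Ff_measb _ hf2.meas a).enorm.pow_const p)
  have hfix : ∀ a : ℝ × ℝ, T ≤ |a.2| →
      ∫⁻ β, ∫⁻ b, ‖Gf f (b, (a, β))‖ₑ ^ p ∂μ ≤ C2 * k * ∫⁻ b, Ψ a b := by
    intro a ha
    have h1 : ∀ β b, ‖Gf f (b, (a, β))‖ₑ ^ p ≤
        C2 * ∫⁻ w, {z : ℝ × ℝ | z.1 * a.2 - 1 ≤ z.2 ∧ z.2 ≤ z.1 * a.2 + 1}.indicator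
          (fun z => Ψ a (β, z.2)) (b, w) := by
      intro β b
      refine (hLC A f hf a β (b * a.2)).trans (mul_le_mul_right (le_of_eq ?_) _)
      rw [← lintegral_indicator measurableSet_Icc]
      rfl
    have hSm : MeasurableSet {z : ℝ × ℝ | z.1 * a.2 - 1 ≤ z.2 ∧ z.2 ≤ z.1 * a.2 + 1} := by
      have e1 : MeasurableSet {z : ℝ × ℝ | z.1 * a.2 - 1 ≤ z.2} :=
        measurableSet_le (by fun_prop) (by fun_prop)
      have e2 : MeasurableSet {z : ℝ × ℝ | z.2 ≤ z.1 * a.2 + 1} :=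
        measurableSet_le (by fun_prop) (by fun_prop)
      exact e1.inter e2
    have hIm : ∀ β, Measurable fun z : ℝ × ℝ =>
        {z : ℝ × ℝ | z.1 * a.2 - 1 ≤ z.2 ∧ z.2 ≤ z.1 * a.2 + 1}.indicator
          (fun z => Ψ a (β, z.2)) z := fun β =>
      ((hΨm a).comp (measurable_const.prodMk measurable_snd)).indicator hSm
    have h2 : ∀ β, ∫⁻ b, ‖Gf f (b, (a, β))‖ₑ ^ p ∂μ ≤ C2 * (k * ∫⁻ w, Ψ a (β, w)) := by
      intro β
      calc ∫⁻ b, ‖Gf f (b, (a, β))‖ₑ ^ p ∂μ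
          ≤ ∫⁻ b, (C2 * ∫⁻ w, {z : ℝ × ℝ | z.1 * a.2 - 1 ≤ z.2 ∧ z.2 ≤ z.1 * a.2 + 1}.indicator
            (fun z => Ψ a (β, z.2)) (b, w)) ∂μ := lintegral_mono (h1 β)
        _ = C2 * ∫⁻ b, (∫⁻ w, {z : ℝ × ℝ | z.1 * a.2 - 1 ≤ z.2 ∧ z.2 ≤ z.1 * a.2 + 1}.indicator
            (fun z => Ψ a (β, z.2)) (b, w)) ∂μ :=
            lintegral_const_mul _ (hIm β).lintegral_prod_right'
        _ = C2 * ∫⁻ w, ∫⁻ b, {z : ℝ × ℝ | z.1 * a.2 - 1 ≤ z.2 ∧ z.2 ≤ z.1 * a.2 + 1}.indicator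
            (fun z => Ψ a (β, z.2)) (b, w) ∂μ := by
            rw [lintegral_lintegral_swap]
            exact (hIm β).aemeasurable
        _ ≤ C2 * ∫⁻ w, k * Ψ a (β, w) := by
            refine mul_le_mul_right (lintegral_mono fun w => ?_) _
            have h3 : ∀ b, {z : ℝ × ℝ | z.1 * a.2 - 1 ≤ z.2 ∧ z.2 ≤ z.1 * a.2 + 1}.indicator
                (fun z => Ψ a (β, z.2)) (b, w) =
                {b : ℝ | b * a.2 - 1 ≤ w ∧ w ≤ b * a.2 + 1}.indicator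
                  (fun _ => Ψ a (β, w)) b := fun b => rfl
            simp_rw [h3]
            have hSb : MeasurableSet {b : ℝ | b * a.2 - 1 ≤ w ∧ w ≤ b * a.2 + 1} := by
              have e1 : MeasurableSet {b : ℝ | b * a.2 - 1 ≤ w} :=
                measurableSet_le (by fun_prop) (by fun_prop)
              have e2 : MeasurableSet {b : ℝ | w ≤ b * a.2 + 1} :=
                measurableSet_le (by fun_prop) (by fun_prop)
              exact e1.inter e2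
            rw [lintegral_indicator hSb, setLIntegral_const, mul_comm]
            exact mul_le_mul_left (slopes hadm ha w) _
        _ = _ := by
            have e3 : Measurable fun w => Ψ a (β, w) :=
              (hΨm a).comp (measurable_const.prodMk measurable_id)
            rw [lintegral_const_mul _ e3]
    calc ∫⁻ β, ∫⁻ b, ‖Gf f (b, (a, β))‖ₑ ^ p ∂μ
        ≤ ∫⁻ β, C2 * (k * ∫⁻ w, Ψ a (β, w)) := lintegral_mono h2
      _ = C2 * (k * ∫⁻ β, ∫⁻ w, Ψ a (β, w)) := by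
          rw [lintegral_const_mul, lintegral_const_mul]
          · exact (hΨm a).lintegral_prod_right'
          · exact ((hΨm a).lintegral_prod_right').const_mul _
      _ = _ := by
          rw [Measure.volume_eq_prod, lintegral_prod _ (hΨm a).aemeasurable, mul_assoc]
  have hΨj : Measurable fun z : (ℝ × ℝ) × (ℝ × ℝ) => Ψ z.1 z.2 :=
    ((Ff_meas f hf.meas).enorm.pow_const p).add ((Ff_meas _ hf2.meas).enorm.pow_const p)
  have hswm : Measurable fun z : (ℝ × ℝ) × ℝ => ∫⁻ b, ‖Gf f (b, z)‖ₑ ^ p ∂μ :=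
    (hGm.enorm.pow_const p).lintegral_prod_left'
  calc ∫⁻ ω, ‖Gf f ω‖ₑ ^ p ∂(nu μ Sh)
      = ∫⁻ z, (∫⁻ b, ‖Gf f (b, z)‖ₑ ^ p ∂μ) ∂((rho Sh).prod volume) := by
        unfold nu
        rw [lintegral_prod_symm _ (hGm.enorm.pow_const p).aemeasurable]
    _ = ∫⁻ a, (∫⁻ β, ∫⁻ b, ‖Gf f (b, (a, β))‖ₑ ^ p ∂μ) ∂(rho Sh) := by
        rw [lintegral_prod _ hswm.aemeasurable]
    _ ≤ ∫⁻ a, (C2 * k * ∫⁻ b, Ψ a b) ∂(rho Sh) := by
        have hae : ∀ᵐ a ∂(rho Sh), T ≤ |a.2| := by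
          have h1 : ∀ᵐ t ∂(volume.restrict Sh), T ≤ |t| := by
            filter_upwards [ae_restrict_mem hadm.measSh] with t ht
            exact hadm.low t ht
          unfold rho
          exact Measure.quasiMeasurePreserving_snd.ae h1
        refine lintegral_mono_ae ?_
        filter_upwards [hae] with a ha
        exact hfix a ha
    _ ≤ ∫⁻ a, C2 * k * ∫⁻ b, Ψ a b := by
        refine lintegral_mono' ?_ le_rfl
        unfold rho
        rw [Measure.volume_eq_prod]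
        exact Measure.prod_mono le_rfl Measure.restrict_le_self
    _ = C2 * k * ∫⁻ a, ∫⁻ b, Ψ a b := lintegral_const_mul _ hΨj.lintegral_prod_right'
    _ = C2 * k * ((∫⁻ a, ∫⁻ b, ‖Ff f a b‖ₑ ^ p) + ∫⁻ a, ∫⁻ b, ‖Ff (sq2 R f) a b‖ₑ ^ p) := by
        congr 1
        rw [← lintegral_add_left]
        · refine lintegral_congr fun a => ?_
          rw [← lintegral_add_left ((Ff_measb f hf.meas a).enorm.pow_const p)]
        · exact ((Ff_meas f hf.meas).enorm.pow_const p).lintegral_prod_right'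
    _ ≤ C2 * k * (C1 * volume A + C1 * volume A) := by
        gcongr
        · exact hS4 A f hf
        · exact hS4 A _ hf2
    _ = _ := by ring

/-- the L^2 part -/
theorem W2 {R : ℝ} {T L : ℝ} {k : ℝ≥0∞} {μ : Measure ℝ} [SFinite μ] {Sh : Set ℝ}
    (hadm : Adm T L k μ Sh) {A : Set (ℝ × ℝ)} {f : ℝ × ℝ → ℂ} (hf : Bd R A f) :
    ∫⁻ ω, ‖Gf f ω‖ₑ ^ (2 : ℝ) ∂(nu μ Sh) ≤ ENNReal.ofReal (L * T) * volume A := by
  have hGm := (Gf_meas f hf.meas).enorm.pow_const (2 : ℝ)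
  have h1 : ∀ b, ∫⁻ z, ‖Gf f (b, z)‖ₑ ^ (2 : ℝ) ∂((rho Sh).prod volume) ≤
      ENNReal.ofReal (L * T) * volume A := by
    intro b
    have hm1 : Measurable fun z : (ℝ × ℝ) × ℝ => ‖Gf f (b, z)‖ₑ ^ (2 : ℝ) :=
      hGm.comp measurable_prodMk_left
    rw [lintegral_prod _ hm1.aemeasurable]
    unfold rho
    rw [lintegral_prod_symm _ hm1.lintegral_prod_right'.aemeasurable]
    calc ∫⁻ t in Sh, ∫⁻ α, ∫⁻ β, ‖Gf f (b, ((α, t), β))‖ₑ ^ (2 : ℝ)
        ≤ ∫⁻ _ in Sh, volume A := by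
          refine lintegral_mono fun t => ?_
          have h2 := S2 hf t (b * t)
          rw [Measure.volume_eq_prod, lintegral_prod _
            ((Ff_measw f hf.meas t (b * t)).enorm.pow_const 2).aemeasurable] at h2
          refine le_trans (le_of_eq ?_) h2
          refine lintegral_congr fun α => lintegral_congr fun β => ?_
          rw [← ENNReal.rpow_natCast]
          rfl
      _ = volume A * volume Sh := setLIntegral_const _ _
      _ ≤ _ := by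
          rw [mul_comm]
          exact mul_le_mul_left hadm.vol _
  unfold nu
  rw [lintegral_prod _ hGm.aemeasurable]
  calc ∫⁻ b, (∫⁻ z, ‖Gf f (b, z)‖ₑ ^ (2 : ℝ) ∂((rho Sh).prod volume)) ∂μ
      ≤ ∫⁻ _, ENNReal.ofReal (L * T) * volume A ∂μ := lintegral_mono h1
    _ = ENNReal.ofReal (L * T) * volume A * μ univ := lintegral_const _
    _ ≤ ENNReal.ofReal (L * T) * volume A * 1 := mul_le_mul_right hadm.mass _
    _ = _ := mul_one _

/-- the basic estimate -/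
theorem W (q θ : ℝ) (hθ0 : 0 < θ) (hθ1 : θ < 1) (hθ2 : 2 * θ < q - 2) (R : ℝ) (hR : 0 < R) :
    ∃ C : ℝ≥0∞, C ≠ ∞ ∧
    ∀ (T L : ℝ) (k : ℝ≥0∞) (μ : Measure ℝ) [SFinite μ] (Sh : Set ℝ), Adm T L k μ Sh →
    ∀ f : ℝ × ℝ → ℂ, Measurable f → (∀ p, p ∉ Bx R → f p = 0) → ∫⁻ p, ‖f p‖ₑ ^ q ≠ ∞ →
    ∫⁻ ω, ‖Gf f ω‖ₑ ^ q ∂(nu μ Sh) ≤
      C * (ENNReal.ofReal (L * T) ^ (1 - θ) * k ^ θ) * ∫⁻ p, ‖f p‖ₑ ^ q := by
  set p : ℝ := 3 + (q - 2) / (2 * θ) with hp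
  have hp4 : 4 < p := by
    have : 1 < (q - 2) / (2 * θ) := by
      rw [lt_div_iff₀ (by positivity)]
      linarith
    linarith
  set δ : ℝ := (q - 2) / 2 - θ with hδ
  have hδ0 : 0 < δ := by linarith
  set q0 : ℝ := q - δ with hq0
  have hq0e : 2 * (1 - θ) + p * θ = q0 := by
    rw [hq0, hδ, hp]
    field_simp
    ring
  have hq02 : 0 < q0 := by
    rw [← hq0e]
    have : 0 < p * θ := by positivity
    linarith
  obtain ⟨C1, hC1, hWp⟩ := Wp p hp4 R hR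
  obtain ⟨C2, hC2, hL⟩ := LL q δ (by linarith) hδ0 (volume (Bx R)) (Bx_ne R)
  refine ⟨C2 * C1 ^ θ, ENNReal.mul_ne_top hC2
    (ENNReal.rpow_ne_top_of_nonneg hθ0.le hC1), ?_⟩
  intro T L k μ _ Sh hadm f hfm hf0 hft
  have key := hL (ℝ × ((ℝ × ℝ) × ℝ)) (ℝ × ℝ) volume (nu μ Sh) (Bx R) (Bx_meas R) le_rfl
    (fun ω p => ee (qph ω.2.1 (ω.2.2, ω.1 * ω.2.1.2) p)) Gker_meas
    (fun ω p => (ee_norm _).le) (C1 ^ θ * (ENNReal.ofReal (L * T) ^ (1 - θ) * k ^ θ)) ?_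
    f hfm hf0 hft
  · calc ∫⁻ ω, ‖Gf f ω‖ₑ ^ q ∂(nu μ Sh)
        ≤ C2 * (C1 ^ θ * (ENNReal.ofReal (L * T) ^ (1 - θ) * k ^ θ)) * ∫⁻ p, ‖f p‖ₑ ^ q := key
      _ = _ := by ring
  · intro A hA hAS g hg hg1 hg0
    have hgB : Bd R A g := ⟨hA, hAS, hg, hg1, hg0⟩
    have hGm := (Gf_meas g hg).enorm
    have h1 : ∀ ω, ‖Gf g ω‖ₑ ≤ volume A := by
      intro ω
      refine (Ff_le g _ _).trans ?_
      have h2 := hgB.lp 1 one_pos
      simpa using h2
    show ∫⁻ ω, ‖Gf g ω‖ₑ ^ q ∂(nu μ Sh) ≤ _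
    calc ∫⁻ ω, ‖Gf g ω‖ₑ ^ q ∂(nu μ Sh)
        ≤ ∫⁻ ω, volume A ^ δ * ‖Gf g ω‖ₑ ^ q0 ∂(nu μ Sh) := by
          refine lintegral_mono fun ω => ?_
          have h3 : q = δ + q0 := by rw [hq0]; ring
          rw [h3, ENNReal.rpow_add_of_nonneg _ _ hδ0.le hq02.le]
          gcongr
          exact h1 ω
      _ = volume A ^ δ * ∫⁻ ω, ‖Gf g ω‖ₑ ^ q0 ∂(nu μ Sh) :=
          lintegral_const_mul _ (hGm.pow_const q0)
      _ = volume A ^ δ * ∫⁻ ω, (‖Gf g ω‖ₑ ^ (2 : ℝ)) ^ (1 - θ) * (‖Gf g ω‖ₑ ^ p) ^ θ ∂(nu μ Sh) := by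
          congr 1
          refine lintegral_congr fun ω => ?_
          rw [← ENNReal.rpow_mul, ← ENNReal.rpow_mul, ← ENNReal.rpow_add_of_nonneg _ _
            (by linarith) (by positivity), hq0e]
      _ ≤ volume A ^ δ * ((∫⁻ ω, ‖Gf g ω‖ₑ ^ (2 : ℝ) ∂(nu μ Sh)) ^ (1 - θ) *
          (∫⁻ ω, ‖Gf g ω‖ₑ ^ p ∂(nu μ Sh)) ^ θ) := by
          refine mul_le_mul_right ?_ _
          exact ENNReal.lintegral_mul_norm_pow_le (hGm.pow_const 2).aemeasurable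
            (hGm.pow_const p).aemeasurable (by linarith) hθ0.le (by ring)
      _ ≤ volume A ^ δ * ((ENNReal.ofReal (L * T) * volume A) ^ (1 - θ) *
          (C1 * k * volume A) ^ θ) := by
          refine mul_le_mul_right (mul_le_mul ?_ ?_ zero_le zero_le) _
          · exact ENNReal.rpow_le_rpow (W2 hadm hgB) (by linarith)
          · exact ENNReal.rpow_le_rpow (hWp T L k μ Sh hadm A g hgB) hθ0.le
      _ = _ := by
          rw [ENNReal.mul_rpow_of_nonneg _ _ (by linarith : 0 ≤ 1 - θ),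
            ENNReal.mul_rpow_of_nonneg _ _ hθ0.le, ENNReal.mul_rpow_of_nonneg _ _ hθ0.le]
          have h4 : volume A ^ (1 + δ) = volume A ^ δ * (volume A ^ (1 - θ) * volume A ^ θ) := by
            rw [← ENNReal.rpow_add_of_nonneg _ _ (by linarith) hθ0.le,
              ← ENNReal.rpow_add_of_nonneg _ _ hδ0.le (by linarith)]
            congr 1
            ring
          rw [h4]
          ring

end Pool.Agent.K4H66.DF
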