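import Mathlib
import Pool.Agent.K4H66.DF.B4
import Pool.Agent.K4H66.RV.A3
set_option autoImplicit false

/-! Norms on shells and dilations. -/

namespace Pool.Agent.K4H66.DF

open MeasureTheory Complex Set Filter Topology
open scoped ENNReal NNReal ComplexConjugate
open Pool.Agent.R412.RT (ee ee_norm ee_add ee_conj ee_meas ee_cont)
open Pool.Agent.K4H66.RV (Ef pph Ef_meas pph_int)

/-- the `q`-th power of the norm over a set of heights, for the slope `b` -/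
noncomputable def Nq (q b : ℝ) (f : ℝ × ℝ → ℂ) (Sh : Set ℝ) : ℝ≥0∞ :=
  ∫⁻ t in Sh, ∫⁻ w : ℝ × ℝ, ‖Ff f (w.1, t) (w.2, b * t)‖ₑ ^ q

theorem Fftw_meas (f : ℝ × ℝ → ℂ) (hf : Measurable f) (b : ℝ) :
    Measurable fun z : ℝ × (ℝ × ℝ) => Ff f (z.2.1, z.1) (z.2.2, b * z.1) := by
  have : StronglyMeasurable (Function.uncurry fun (z : ℝ × (ℝ × ℝ)) (p : ℝ × ℝ) =>
      ee (qph (z.2.1, z.1) (z.2.2, b * z.1) p) * f p) := by
    refine Measurable.stronglyMeasurable (Measurable.mul (ee_meas.comp ?_)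
      (hf.comp measurable_snd))
    unfold qph
    fun_prop
  exact this.integral_prod_right.measurable

theorem Fftwb_meas (f : ℝ × ℝ → ℂ) (hf : Measurable f) :
    Measurable fun z : (ℝ × ℝ) × (ℝ × ℝ) => Ff f (z.2.1, z.1.2) (z.2.2, z.1.1 * z.1.2) := by
  have : StronglyMeasurable (Function.uncurry fun (z : (ℝ × ℝ) × (ℝ × ℝ)) (p : ℝ × ℝ) =>
      ee (qph (z.2.1, z.1.2) (z.2.2, z.1.1 * z.1.2) p) * f p) := by
    refine Measurable.stronglyMeasurable (Measurable.mul (ee_meas.comp ?_)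
      (hf.comp measurable_snd))
    unfold qph
    fun_prop
  exact this.integral_prod_right.measurable

theorem Fl_meas (q : ℝ) (f : ℝ × ℝ → ℂ) (hf : Measurable f) (b : ℝ) :
    Measurable fun t => ∫⁻ w : ℝ × ℝ, ‖Ff f (w.1, t) (w.2, b * t)‖ₑ ^ q :=
  ((Fftw_meas f hf b).enorm.pow_const q).lintegral_prod_right'

theorem Nq_meas (q : ℝ) (f : ℝ × ℝ → ℂ) (hf : Measurable f) (Sh : Set ℝ) :
    Measurable fun b => Nq q b f Sh := by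
  unfold Nq
  have h1 : Measurable fun z : ℝ × ℝ => ∫⁻ w : ℝ × ℝ, ‖Ff f (w.1, z.2) (w.2, z.1 * z.2)‖ₑ ^ q :=
    ((Fftwb_meas f hf).enorm.pow_const q).lintegral_prod_right'
  exact h1.lintegral_prod_right'

theorem nu_eq (q : ℝ) (f : ℝ × ℝ → ℂ) (hf : Measurable f) (μ : Measure ℝ) [SFinite μ] (Sh : Set ℝ) :
    ∫⁻ ω, ‖Gf f ω‖ₑ ^ q ∂(nu μ Sh) = ∫⁻ b, Nq q b f Sh ∂μ := by
  have hGm := (Gf_meas f hf).enorm.pow_const q
  unfold nu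
  rw [lintegral_prod _ hGm.aemeasurable]
  refine lintegral_congr fun b => ?_
  have hm1 : Measurable fun z : (ℝ × ℝ) × ℝ => ‖Gf f (b, z)‖ₑ ^ q :=
    hGm.comp measurable_prodMk_left
  rw [lintegral_prod _ hm1.aemeasurable]
  unfold rho Nq
  rw [lintegral_prod_symm _ hm1.lintegral_prod_right'.aemeasurable]
  refine lintegral_congr fun t => ?_
  rw [Measure.volume_eq_prod, lintegral_prod _
    ((Ff_measw f hf t (b * t)).enorm.pow_const q).aemeasurable]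
  rfl

/-- the basic estimate, in terms of `Nq` -/
theorem WN (q θ : ℝ) (hθ0 : 0 < θ) (hθ1 : θ < 1) (hθ2 : 2 * θ < q - 2) (R : ℝ) (hR : 0 < R) :
    ∃ C : ℝ≥0∞, C ≠ ∞ ∧
    ∀ (T L : ℝ) (k : ℝ≥0∞) (μ : Measure ℝ) [SFinite μ] (Sh : Set ℝ), Adm T L k μ Sh →
    ∀ f : ℝ × ℝ → ℂ, Measurable f → (∀ p, p ∉ Bx R → f p = 0) → ∫⁻ p, ‖f p‖ₑ ^ q ≠ ∞ →
    ∫⁻ b, Nq q b f Sh ∂μ ≤
      C * (ENNReal.ofReal (L * T) ^ (1 - θ) * k ^ θ) * ∫⁻ p, ‖f p‖ₑ ^ q := by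
  obtain ⟨C, hC, hW⟩ := W q θ hθ0 hθ1 hθ2 R hR
  refine ⟨C, hC, ?_⟩
  intro T L k μ _ Sh hadm f hfm hf0 hft
  rw [← nu_eq q f hfm μ Sh]
  exact hW T L k μ Sh hadm f hfm hf0 hft

/-- dilations of functions on the plane -/
def dil (c₁ c₂ : ℝ) (f : ℝ × ℝ → ℂ) (p : ℝ × ℝ) : ℂ := f (c₁ * p.1, c₂ * p.2)

theorem dil_meas {c₁ c₂ : ℝ} {f : ℝ × ℝ → ℂ} (hf : Measurable f) : Measurable (dil c₁ c₂ f) :=
  hf.comp (by fun_prop)

/-- scaling of integrals on the plane -/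
theorem isc2 {a b : ℝ} (ha : 0 < a) (hb : 0 < b) (F : ℝ × ℝ → ℂ) :
    ∫ p : ℝ × ℝ, F (a * p.1, b * p.2) = ((a * b)⁻¹ : ℝ) * ∫ p, F p := by
  have e1 : MeasurableEmbedding fun p : ℝ × ℝ => (a * p.1, b * p.2) := by
    have h1 : MeasurableEmbedding fun x : ℝ => a * x := measurableEmbedding_mulLeft₀ ha.ne'
    have h2 : MeasurableEmbedding fun x : ℝ => b * x := measurableEmbedding_mulLeft₀ hb.ne'
    exact h1.prodMap h2
  have e2 : Measure.map (fun p : ℝ × ℝ => (a * p.1, b * p.2)) volume =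
      ENNReal.ofReal ((a * b)⁻¹) • (volume : Measure (ℝ × ℝ)) := by
    have h1 : Measure.map (fun x : ℝ => a * x) volume = ENNReal.ofReal |a⁻¹| • volume :=
      Real.map_volume_mul_left ha.ne'
    have h2 : Measure.map (fun x : ℝ => b * x) volume = ENNReal.ofReal |b⁻¹| • volume :=
      Real.map_volume_mul_left hb.ne'
    have h3 := Measure.map_prod_map (volume : Measure ℝ) (volume : Measure ℝ)
      (measurable_const_mul a) (measurable_const_mul b)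
    rw [Measure.volume_eq_prod]
    have h4 : (fun p : ℝ × ℝ => (a * p.1, b * p.2)) = Prod.map (fun x => a * x) fun x => b * x := rfl
    rw [h4, ← h3, h1, h2, Measure.prod_smul_left, Measure.prod_smul_right, smul_smul,
      ← ENNReal.ofReal_mul (abs_nonneg _), abs_of_pos (inv_pos.2 ha), abs_of_pos (inv_pos.2 hb),
      mul_inv]
  rw [← e1.integral_map (g := F), e2, integral_smul_measure, ENNReal.toReal_ofReal (by positivity),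
    Complex.real_smul]

theorem Ef_dil {c₁ c₂ : ℝ} (h1 : 0 < c₁) (h2 : 0 < c₂) (f : ℝ × ℝ → ℂ) (t α β : ℝ) :
    Ef (dil c₁ c₂ f) (t, (α, β)) = ((c₁ * c₂)⁻¹ : ℝ) *
      Ff f (c₁⁻¹ * α, (c₁ ^ 2)⁻¹ * t) (c₂⁻¹ * β, (c₁ ^ 2 / c₂ ^ 2) * ((c₁ ^ 2)⁻¹ * t)) := by
  unfold Ef Ff
  rw [← isc2 h1 h2]
  refine integral_congr_ae (Eventually.of_forall fun p => ?_)
  simp only
  unfold dil
  congr 2
  unfold pph qph
  simp only
  field_simp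
  ring

/-- the constant in the dilation law -/
noncomputable def Kd (q c₁ c₂ : ℝ) : ℝ := ((c₁ * c₂)⁻¹) ^ q * (c₁ * c₂ * c₁ ^ 2)

theorem Kd_pos (q : ℝ) {c₁ c₂ : ℝ} (h1 : 0 < c₁) (h2 : 0 < c₂) : 0 < Kd q c₁ c₂ := by
  unfold Kd
  have : 0 < ((c₁ * c₂)⁻¹) ^ q := Real.rpow_pos_of_pos (by positivity) _
  positivity

theorem EfN (q : ℝ) (hq : 0 < q) {c₁ c₂ : ℝ} (h1 : 0 < c₁) (h2 : 0 < c₂) (f : ℝ × ℝ → ℂ)
    (hf : Measurable f) (Sh : Set ℝ) (hSh : MeasurableSet Sh) :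
    ∫⁻ t in Sh, ∫⁻ w : ℝ × ℝ, ‖Ef (dil c₁ c₂ f) (t, w)‖ₑ ^ q =
      ENNReal.ofReal (Kd q c₁ c₂) * Nq q (c₁ ^ 2 / c₂ ^ 2) f {t | c₁ ^ 2 * t ∈ Sh} := by
  set b := c₁ ^ 2 / c₂ ^ 2 with hb
  set H : ℝ → ℝ≥0∞ := fun t => ∫⁻ w : ℝ × ℝ, ‖Ff f (w.1, t) (w.2, b * t)‖ₑ ^ q with hH
  have hHm : Measurable H := Fl_meas q f hf b
  have hin : ∀ t, ∫⁻ w : ℝ × ℝ, ‖Ef (dil c₁ c₂ f) (t, w)‖ₑ ^ q =
      ENNReal.ofReal (((c₁ * c₂)⁻¹) ^ q * (c₁ * c₂)) * H ((c₁ ^ 2)⁻¹ * t) := by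
    intro t
    have e1 : ∀ w : ℝ × ℝ, ‖Ef (dil c₁ c₂ f) (t, w)‖ₑ ^ q =
        ENNReal.ofReal (((c₁ * c₂)⁻¹) ^ q) *
        ‖Ff f (c₁⁻¹ * w.1, (c₁ ^ 2)⁻¹ * t) (c₂⁻¹ * w.2, b * ((c₁ ^ 2)⁻¹ * t))‖ₑ ^ q := by
      intro w
      have := Ef_dil h1 h2 f t w.1 w.2
      rw [show (t, w) = (t, (w.1, w.2)) from rfl, this, enorm_mul,
        ENNReal.mul_rpow_of_nonneg _ _ hq.le, ← ofReal_norm ((((c₁ * c₂)⁻¹ : ℝ) : ℂ)),
        Complex.norm_real, Real.norm_of_nonneg (by positivity),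
        ENNReal.ofReal_rpow_of_pos (by positivity)]
    simp_rw [e1]
    have e2 := lsc2 (inv_ne_zero h1.ne') (inv_ne_zero h2.ne')
      (fun w : ℝ × ℝ => ‖Ff f (w.1, (c₁ ^ 2)⁻¹ * t) (w.2, b * ((c₁ ^ 2)⁻¹ * t))‖ₑ ^ q)
      ((Ff_measw f hf _ _).enorm.pow_const q)
    simp only at e2
    rw [lintegral_const_mul _ (by
      have h3 : Measurable fun w : ℝ × ℝ => (c₁⁻¹ * w.1, c₂⁻¹ * w.2) := by fun_prop
      exact ((Ff_measw f hf ((c₁ ^ 2)⁻¹ * t) (b * ((c₁ ^ 2)⁻¹ * t))).comp h3).enorm.pow_const q),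
      e2, inv_inv, inv_inv, abs_of_pos h1, abs_of_pos h2]
    rw [ENNReal.ofReal_mul (by positivity), ENNReal.ofReal_mul h1.le]
    ring
  have hout : ∫⁻ t in Sh, H ((c₁ ^ 2)⁻¹ * t) = ENNReal.ofReal (c₁ ^ 2) *
      ∫⁻ t in {t | c₁ ^ 2 * t ∈ Sh}, H t := by
    have hS' : MeasurableSet {t | c₁ ^ 2 * t ∈ Sh} := hSh.preimage (measurable_const_mul _)
    rw [← lintegral_indicator hSh, ← lintegral_indicator hS']
    have e3 := lsc (c := (c₁ ^ 2)⁻¹) (by positivity) ({t | c₁ ^ 2 * t ∈ Sh}.indicator H)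
      (hHm.indicator hS')
    rw [inv_inv, abs_of_pos (by positivity)] at e3
    rw [← e3]
    refine lintegral_congr fun t => ?_
    have e4 : c₁ ^ 2 * ((c₁ ^ 2)⁻¹ * t) = t := by field_simp
    by_cases ht : t ∈ Sh
    · rw [indicator_of_mem ht, indicator_of_mem]
      show c₁ ^ 2 * ((c₁ ^ 2)⁻¹ * t) ∈ Sh
      rwa [e4]
    · rw [indicator_of_notMem ht, indicator_of_notMem]
      show ¬ (c₁ ^ 2 * ((c₁ ^ 2)⁻¹ * t) ∈ Sh)
      rwa [e4]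
  simp_rw [hin]
  have hHm2 : Measurable fun t => H ((c₁ ^ 2)⁻¹ * t) := hHm.comp (measurable_const_mul _)
  rw [lintegral_const_mul _ hHm2, hout, ← mul_assoc, ← ENNReal.ofReal_mul (by positivity)]
  unfold Kd Nq
  rw [mul_assoc (((c₁ * c₂)⁻¹) ^ q)]

end Pool.Agent.K4H66.DF
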