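import Mathlib
import Pool.Agent.K4H66.DF.B5
set_option autoImplicit false

/-! Summation over shells: averages over slopes. -/

namespace Pool.Agent.K4H66.DF

open MeasureTheory Complex Set Filter Topology
open scoped ENNReal NNReal ComplexConjugate
open Pool.Agent.R412.RT (ee ee_norm ee_add ee_conj ee_meas ee_cont)
open Pool.Agent.K4H66.RV (Ef pph Ef_meas pph_int)
open Pool.Agent.H438R2.PD.A3 (tsum_geo)

/-- dyadic shells -/
def Shell (T : ℝ) : Set ℝ := {t | T ≤ |t| ∧ |t| < 2 * T}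

theorem Shell_meas (T : ℝ) : MeasurableSet (Shell T) := by
  have h : Measurable fun t : ℝ => |t| := by fun_prop
  exact (h measurableSet_Ici).inter (h measurableSet_Iio)

theorem Shell_vol {T : ℝ} (hT : 0 < T) : volume (Shell T) ≤ ENNReal.ofReal (2 * T) := by
  have h1 : Shell T ⊆ Icc (-(2 * T)) (-T) ∪ Icc T (2 * T) := by
    intro t ht
    obtain ⟨h2, h3⟩ := ht
    rcases le_or_gt 0 t with h4 | h4
    · rw [abs_of_nonneg h4] at h2 h3
      exact Or.inr ⟨h2, h3.le⟩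
    · rw [abs_of_neg h4] at h2 h3
      exact Or.inl ⟨by linarith, by linarith⟩
  refine (measure_mono h1).trans ((measure_union_le _ _).trans ?_)
  rw [Real.volume_Icc, Real.volume_Icc, ← ENNReal.ofReal_add (by linarith) (by linarith)]
  exact ENNReal.ofReal_le_ofReal (by linarith)

theorem Shell_adm {T : ℝ} (hT : 0 < T) (μ : Measure ℝ) (hm : μ univ ≤ 1) {k : ℝ≥0∞}
    (hk : ∀ x, μ (Icc x (x + 2 / T)) ≤ k) : Adm T 2 k μ (Shell T) :=
  ⟨hT, hm, hk, Shell_meas T, fun t ht => ht.1, Shell_vol hT⟩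

theorem shells_cover : (univ : Set ℝ) ⊆
    {0} ∪ ((⋃ k : ℕ, Shell (2 ^ k)) ∪ ⋃ k : ℕ, Shell ((1 / 2) ^ (k + 1))) := by
  intro t _
  rcases eq_or_ne t 0 with h0 | h0
  · exact Or.inl h0
  · right
    have hpos : 0 < |t| := abs_pos.2 h0
    rcases le_or_gt 1 |t| with h1 | h1
    · left
      obtain ⟨n, hn1, hn2⟩ := exists_nat_pow_near h1 (one_lt_two (α := ℝ))
      refine mem_iUnion.2 ⟨n, hn1, ?_⟩
      rw [pow_succ] at hn2
      linarith
    · right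
      obtain ⟨n, hn1, hn2⟩ := exists_nat_pow_near_of_lt_one hpos h1.le
        (by norm_num : (0 : ℝ) < 1 / 2) (by norm_num)
      rcases lt_or_eq_of_le hn2 with h3 | h3
      · refine mem_iUnion.2 ⟨n, hn1.le, ?_⟩
        rw [pow_succ]
        linarith
      · -- `|t| = (1/2)^n`
        rcases Nat.eq_zero_or_pos n with h4 | h4
        · subst h4
          rw [pow_zero] at h3
          linarith
        · obtain ⟨m, rfl⟩ : ∃ m, n = m + 1 := ⟨n - 1, by omega⟩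
          refine mem_iUnion.2 ⟨m, h3.ge, ?_⟩
          rw [h3]
          have : (0 : ℝ) < (1 / 2) ^ (m + 1) := by positivity
          linarith

theorem tot_le (q b : ℝ) (f : ℝ × ℝ → ℂ) :
    Nq q b f univ ≤ (∑' k : ℕ, Nq q b f (Shell (2 ^ k))) +
      ∑' k : ℕ, Nq q b f (Shell ((1 / 2) ^ (k + 1))) := by
  unfold Nq
  refine (lintegral_mono_set shells_cover).trans ?_
  refine (lintegral_union_le _ _ _).trans ?_
  have h1 : ∫⁻ t in ({0} : Set ℝ), ∫⁻ w : ℝ × ℝ, ‖Ff f (w.1, t) (w.2, b * t)‖ₑ ^ q = 0 := by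
    rw [Measure.restrict_eq_zero.2 (measure_singleton _), lintegral_zero_measure]
  rw [h1, zero_add]
  refine (lintegral_union_le _ _ _).trans ?_
  exact add_le_add (lintegral_iUnion_le _ _) (lintegral_iUnion_le _ _)

theorem low_sum (q θ : ℝ) (hθ0 : 0 < θ) (hθ1 : θ < 1) (hθ2 : 2 * θ < q - 2) (R : ℝ) (hR : 0 < R) :
    ∃ C : ℝ≥0∞, C ≠ ∞ ∧ ∀ (μ : Measure ℝ) [SFinite μ], μ univ ≤ 1 →
    ∀ f : ℝ × ℝ → ℂ, Measurable f → (∀ p, p ∉ Bx R → f p = 0) → ∫⁻ p, ‖f p‖ₑ ^ q ≠ ∞ →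
    ∫⁻ b, ∑' k : ℕ, Nq q b f (Shell ((1 / 2) ^ (k + 1))) ∂μ ≤ C * ∫⁻ p, ‖f p‖ₑ ^ q := by
  obtain ⟨C, hC, hW⟩ := WN q θ hθ0 hθ1 hθ2 R hR
  set r : ℝ := (1 / 2 : ℝ) ^ (1 - θ) with hr
  have hr0 : 0 < r := Real.rpow_pos_of_pos (by norm_num) _
  have hr1 : r < 1 := Real.rpow_lt_one (by norm_num) (by norm_num) (by linarith)
  refine ⟨C * ENNReal.ofReal ((1 - r)⁻¹), ENNReal.mul_ne_top hC ENNReal.ofReal_ne_top, ?_⟩
  intro μ _ hm f hf hf0 hft
  rw [lintegral_tsum fun k => (Nq_meas q f hf _).aemeasurable]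
  calc ∑' k : ℕ, ∫⁻ b, Nq q b f (Shell ((1 / 2) ^ (k + 1))) ∂μ
      ≤ ∑' k : ℕ, C * (ENNReal.ofReal (2 * (1 / 2) ^ (k + 1)) ^ (1 - θ) * 1 ^ θ) *
        ∫⁻ p, ‖f p‖ₑ ^ q := by
        refine ENNReal.tsum_le_tsum fun k => ?_
        exact hW _ 2 1 μ _ (Shell_adm (by positivity) μ hm
          fun x => (measure_mono (subset_univ _)).trans hm) f hf hf0 hft
    _ = ∑' k : ℕ, C * ENNReal.ofReal (r ^ k) * ∫⁻ p, ‖f p‖ₑ ^ q := by
        congr 1
        ext k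
        congr 2
        rw [ENNReal.one_rpow, mul_one, ENNReal.ofReal_rpow_of_pos (by positivity)]
        congr 1
        rw [pow_succ, show (2 : ℝ) * ((1 / 2) ^ k * (1 / 2)) = (1 / 2) ^ k by ring, hr,
          ← Real.rpow_natCast, ← Real.rpow_natCast, ← Real.rpow_mul (by norm_num),
          ← Real.rpow_mul (by norm_num)]
        congr 1
        ring
    _ = _ := by
        rw [ENNReal.tsum_mul_right, ENNReal.tsum_mul_left, tsum_geo r hr0.le hr1]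

/-- averages over Frostman measures -/
theorem TA (q α K : ℝ) (hα : 0 < α) (hK : 0 < K) (hq : 4 - q < α * (q - 2))
    (R : ℝ) (hR : 0 < R) : ∃ C : ℝ≥0∞, C ≠ ∞ ∧ ∀ (μ : Measure ℝ) [SFinite μ], μ univ ≤ 1 →
    (∀ x r, 0 < r → μ (Icc x (x + r)) ≤ ENNReal.ofReal (K * r ^ α)) →
    ∀ f : ℝ × ℝ → ℂ, Measurable f → (∀ p, p ∉ Bx R → f p = 0) → ∫⁻ p, ‖f p‖ₑ ^ q ≠ ∞ →
    ∫⁻ b, Nq q b f univ ∂μ ≤ C * ∫⁻ p, ‖f p‖ₑ ^ q := by
  have hq2 : 2 < q := by nlinarith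
  obtain ⟨θ, h1, h2, h3⟩ : ∃ θ : ℝ, 1 / (1 + α) < θ ∧ θ < 1 ∧ 2 * θ < q - 2 := by
    have h4 : 1 / (1 + α) < min 1 ((q - 2) / 2) := by
      refine lt_min ?_ ?_
      · rw [div_lt_one (by linarith)]
        linarith
      · rw [div_lt_div_iff₀ (by linarith) (by norm_num)]
        nlinarith
    obtain ⟨θ, h5, h6⟩ := exists_between h4
    exact ⟨θ, h5, h6.trans_le (min_le_left _ _), by
      have := h6.trans_le (min_le_right _ _)
      linarith⟩
  have hθ0 : 0 < θ := lt_trans (by positivity) h1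
  have he : 1 - θ - α * θ < 0 := by
    rw [div_lt_iff₀ (by linarith)] at h1
    linarith
  obtain ⟨C, hC, hW⟩ := WN q θ hθ0 h2 h3 R hR
  obtain ⟨C', hC', hlow⟩ := low_sum q θ hθ0 h2 h3 R hR
  set ρ : ℝ := (2 : ℝ) ^ (1 - θ - α * θ) with hρ
  have hρ0 : 0 < ρ := Real.rpow_pos_of_pos (by norm_num) _
  have hρ1 : ρ < 1 := Real.rpow_lt_one_of_one_lt_of_neg (by norm_num) he
  set c : ℝ := 2 ^ (1 - θ) * (K ^ θ * 2 ^ (α * θ)) with hc
  have hc0 : 0 < c := by positivity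
  refine ⟨C * (ENNReal.ofReal c * ENNReal.ofReal ((1 - ρ)⁻¹)) + C', ENNReal.add_ne_top.2
    ⟨ENNReal.mul_ne_top hC (ENNReal.mul_ne_top ENNReal.ofReal_ne_top ENNReal.ofReal_ne_top),
      hC'⟩, ?_⟩
  intro μ _ hm hF f hf hf0 hft
  have hup : ∫⁻ b, ∑' k : ℕ, Nq q b f (Shell (2 ^ k)) ∂μ ≤
      C * (ENNReal.ofReal c * ENNReal.ofReal ((1 - ρ)⁻¹)) * ∫⁻ p, ‖f p‖ₑ ^ q := by
    rw [lintegral_tsum fun k => (Nq_meas q f hf _).aemeasurable]
    calc ∑' k : ℕ, ∫⁻ b, Nq q b f (Shell (2 ^ k)) ∂μ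
        ≤ ∑' k : ℕ, C * (ENNReal.ofReal (2 * 2 ^ k) ^ (1 - θ) *
          ENNReal.ofReal (K * (2 / 2 ^ k) ^ α) ^ θ) * ∫⁻ p, ‖f p‖ₑ ^ q := by
          refine ENNReal.tsum_le_tsum fun k => ?_
          exact hW _ 2 _ μ _ (Shell_adm (by positivity) μ hm
            fun x => hF x _ (by positivity)) f hf hf0 hft
      _ = ∑' k : ℕ, C * (ENNReal.ofReal c * ENNReal.ofReal (ρ ^ k)) * ∫⁻ p, ‖f p‖ₑ ^ q := by
          congr 1
          ext k
          congr 2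
          rw [ENNReal.ofReal_rpow_of_pos (by positivity), ENNReal.ofReal_rpow_of_pos (by positivity),
            ← ENNReal.ofReal_mul (by positivity), ← ENNReal.ofReal_mul hc0.le]
          congr 1
          have h20 : (0 : ℝ) < 2 := by norm_num
          have e1 : ((2 : ℝ) * 2 ^ k) ^ (1 - θ) = 2 ^ (1 - θ) * 2 ^ ((k : ℝ) * (1 - θ)) := by
            rw [Real.mul_rpow (by norm_num) (by positivity), ← Real.rpow_natCast,
              ← Real.rpow_mul h20.le]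
          have e2 : (K * ((2 : ℝ) / 2 ^ k) ^ α) ^ θ = K ^ θ * (2 ^ (α * θ) * 2 ^ (-(k : ℝ) * (α * θ))) := by
            rw [Real.mul_rpow hK.le (by positivity), ← Real.rpow_mul (by positivity), div_eq_mul_inv,
              Real.mul_rpow (by norm_num) (by positivity), ← Real.rpow_natCast, ← Real.rpow_neg h20.le,
              ← Real.rpow_mul h20.le]
          rw [e1, e2, hc]
          have e3 : ρ ^ k = 2 ^ ((k : ℝ) * (1 - θ)) * 2 ^ (-(k : ℝ) * (α * θ)) := by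
            rw [hρ, ← Real.rpow_natCast, ← Real.rpow_mul h20.le, ← Real.rpow_add h20]
            congr 1
            ring
          rw [e3]
          ring
      _ = _ := by
          rw [ENNReal.tsum_mul_right, ENNReal.tsum_mul_left, ENNReal.tsum_mul_left,
            tsum_geo ρ hρ0.le hρ1]
  calc ∫⁻ b, Nq q b f univ ∂μ
      ≤ ∫⁻ b, ((∑' k : ℕ, Nq q b f (Shell (2 ^ k))) +
        ∑' k : ℕ, Nq q b f (Shell ((1 / 2) ^ (k + 1)))) ∂μ := lintegral_mono fun b => tot_le q b f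
    _ = (∫⁻ b, ∑' k : ℕ, Nq q b f (Shell (2 ^ k)) ∂μ) +
        ∫⁻ b, ∑' k : ℕ, Nq q b f (Shell ((1 / 2) ^ (k + 1))) ∂μ :=
        lintegral_add_left (Measurable.tsum fun k => Nq_meas q f hf _) _
    _ ≤ _ := by
        rw [add_mul]
        exact add_le_add hup (hlow μ hm f hf hf0 hft)

end Pool.Agent.K4H66.DF
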