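import Mathlib
import Pool.Agent.K4H66.DF.B6
set_option autoImplicit false

/-! Exceptional slopes. -/

namespace Pool.Agent.K4H66.DF

open MeasureTheory Complex Set Filter Topology Metric
open scoped ENNReal NNReal ComplexConjugate
open Pool.Agent.R412.RT (ee ee_norm ee_add ee_conj ee_meas ee_cont)
open Pool.Agent.K4H66.RV (Ef pph Ef_meas pph_int)
open Pool.Agent.H438R2.PD.A3 (tsum_geo)

open Classical in
theorem count3 (I : Finset ℤ) (h : ℝ) (hh : 0 < h) (b : ℤ → ℝ)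
    (hb : ∀ i ∈ I, b i ∈ Icc ((i : ℝ) * h) ((i + 1) * h)) (x : ℝ) :
    (I.filter fun i => b i ∈ Icc x (x + h)).card ≤ 3 := by
  have h1 : (I.filter fun i => b i ∈ Icc x (x + h)) ⊆
      Finset.Icc (⌈x / h⌉ - 1) (⌊x / h⌋ + 1) := by
    intro i hi
    rw [Finset.mem_filter] at hi
    have h2 := hb i hi.1
    have h3 := hi.2
    rw [Finset.mem_Icc]
    constructor
    · have : ⌈x / h⌉ ≤ i + 1 := by
        rw [Int.ceil_le]
        push_cast
        rw [div_le_iff₀ hh]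
        exact h3.1.trans h2.2
      omega
    · have : i - 1 ≤ ⌊x / h⌋ := by
        rw [Int.le_floor]
        push_cast
        rw [le_div_iff₀ hh]
        have h4 := h2.1
        have h5 := h3.2
        nlinarith
      omega
  refine (Finset.card_le_card h1).trans ?_
  rw [Int.card_Icc]
  have := Int.floor_le_ceil (x / h)
  omega

/-- the number of bad slopes -/
theorem count_bound (q θ : ℝ) (hθ0 : 0 < θ) (hθ1 : θ < 1) (hθ2 : 2 * θ < q - 2) (R : ℝ)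
    (hR : 0 < R) : ∃ C : ℝ≥0∞, C ≠ ∞ ∧ ∀ (T : ℝ), 0 < T → ∀ (v : ℝ≥0∞) (I : Finset ℤ)
    (b : ℤ → ℝ), (∀ i ∈ I, b i ∈ Icc ((i : ℝ) * (2 / T)) ((i + 1) * (2 / T))) →
    ∀ f : ℝ × ℝ → ℂ, Measurable f → (∀ p, p ∉ Bx R → f p = 0) → ∫⁻ p, ‖f p‖ₑ ^ q ≠ ∞ →
    (∀ i ∈ I, v ≤ Nq q (b i) f (Shell T)) →
    v * (I.card : ℝ≥0∞) ^ θ ≤ C * ENNReal.ofReal T ^ (1 - θ) * ∫⁻ p, ‖f p‖ₑ ^ q := by
  classical
  obtain ⟨C, hC, hW⟩ := WN q θ hθ0 hθ1 hθ2 R hR
  refine ⟨C * (2 ^ (1 - θ) * 3 ^ θ), ENNReal.mul_ne_top hC (ENNReal.mul_ne_top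
    (ENNReal.rpow_ne_top_of_nonneg (by linarith) (by norm_num))
    (ENNReal.rpow_ne_top_of_nonneg hθ0.le (by norm_num))), ?_⟩
  intro T hT v I b hb f hf hf0 hft hv
  rcases I.eq_empty_or_nonempty with hI | hI
  · subst hI
    rw [Finset.card_empty, Nat.cast_zero, ENNReal.zero_rpow_of_pos hθ0, mul_zero]
    exact zero_le
  set n : ℝ≥0∞ := (I.card : ℝ≥0∞) with hn
  have hn0 : n ≠ 0 := by
    rw [hn]
    exact_mod_cast (Finset.card_pos.2 hI).ne'
  have hnt : n ≠ ∞ := ENNReal.natCast_ne_top _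
  set μ : Measure ℝ := ∑ i ∈ I, n⁻¹ • Measure.dirac (b i) with hμ
  have hμS : ∀ S : Set ℝ, MeasurableSet S →
      μ S = n⁻¹ * ((I.filter fun i => b i ∈ S).card : ℝ≥0∞) := by
    intro S hS
    rw [hμ, Measure.finsetSum_apply]
    simp only [Measure.smul_apply, smul_eq_mul, Measure.dirac_apply' _ hS]
    rw [← Finset.mul_sum]
    congr 1
    simp only [indicator_apply, Pi.one_apply]
    rw [Finset.sum_ite, Finset.sum_const_zero, add_zero, Finset.sum_const, nsmul_eq_mul, mul_one]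
  have hmass : μ univ ≤ 1 := by
    rw [hμS _ MeasurableSet.univ]
    simp only [mem_univ, Finset.filter_true]
    rw [← hn, ENNReal.inv_mul_cancel hn0 hnt]
  have hsm : ∀ x, μ (Icc x (x + 2 / T)) ≤ 3 * n⁻¹ := by
    intro x
    rw [hμS _ measurableSet_Icc, mul_comm]
    refine mul_le_mul_left ?_ _
    exact_mod_cast count3 I (2 / T) (by positivity) b hb x
  have : IsFiniteMeasure μ := ⟨hmass.trans_lt ENNReal.one_lt_top⟩
  have h1 := hW T 2 _ μ _ (Shell_adm hT μ hmass hsm) f hf hf0 hft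
  have h2 : ∫⁻ b, Nq q b f (Shell T) ∂μ = ∑ i ∈ I, n⁻¹ * Nq q (b i) f (Shell T) := by
    rw [hμ, lintegral_finsetSum_measure]
    refine Finset.sum_congr rfl fun i _ => ?_
    rw [lintegral_smul_measure, lintegral_dirac' _ (Nq_meas q f hf _), smul_eq_mul]
  have h3 : v ≤ ∫⁻ b, Nq q b f (Shell T) ∂μ := by
    rw [h2]
    calc v = n * (n⁻¹ * v) := by rw [← mul_assoc, ENNReal.mul_inv_cancel hn0 hnt, one_mul]
      _ = ∑ i ∈ I, n⁻¹ * v := by rw [Finset.sum_const, nsmul_eq_mul]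
      _ ≤ _ := Finset.sum_le_sum fun i hi => mul_le_mul_right (hv i hi) _
  have h4 := h3.trans h1
  calc v * n ^ θ ≤ C * (ENNReal.ofReal (2 * T) ^ (1 - θ) * (3 * n⁻¹) ^ θ) *
        (∫⁻ p, ‖f p‖ₑ ^ q) * n ^ θ := mul_le_mul_left h4 _
    _ = C * (2 ^ (1 - θ) * 3 ^ θ) * ENNReal.ofReal T ^ (1 - θ) * (∫⁻ p, ‖f p‖ₑ ^ q) *
        ((n⁻¹) ^ θ * n ^ θ) := by
        rw [ENNReal.ofReal_mul (by norm_num), ENNReal.mul_rpow_of_nonneg _ _ (by linarith),
          ENNReal.mul_rpow_of_nonneg _ _ hθ0.le, show ENNReal.ofReal 2 = 2 by norm_num]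
        ring
    _ = _ := by
        rw [← ENNReal.mul_rpow_of_nonneg _ _ hθ0.le, ENNReal.inv_mul_cancel hn0 hnt,
          ENNReal.one_rpow, mul_one]

theorem WD (q θ : ℝ) (hθ0 : 0 < θ) (hθ1 : θ < 1) (hθ2 : 2 * θ < q - 2) (R : ℝ) (hR : 0 < R) :
    ∃ C : ℝ≥0∞, C ≠ ∞ ∧ ∀ (T L : ℝ), 0 < T → ∀ Sh : Set ℝ, MeasurableSet Sh →
    (∀ t ∈ Sh, T ≤ |t|) → volume Sh ≤ ENNReal.ofReal (L * T) → ∀ b : ℝ,
    ∀ f : ℝ × ℝ → ℂ, Measurable f → (∀ p, p ∉ Bx R → f p = 0) → ∫⁻ p, ‖f p‖ₑ ^ q ≠ ∞ →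
    Nq q b f Sh ≤ C * ENNReal.ofReal (L * T) ^ (1 - θ) * ∫⁻ p, ‖f p‖ₑ ^ q := by
  obtain ⟨C, hC, hW⟩ := WN q θ hθ0 hθ1 hθ2 R hR
  refine ⟨C, hC, ?_⟩
  intro T L hT Sh hSh h1 h2 b f hf hf0 hft
  have h3 := hW T L 1 (Measure.dirac b) Sh ⟨hT, by simp, fun x => (measure_mono
    (subset_univ _)).trans (by simp), hSh, h1, h2⟩ f hf hf0 hft
  rw [lintegral_dirac' _ (Nq_meas q f hf _), ENNReal.one_rpow, mul_one] at h3
  exact h3

theorem low_fin (q θ : ℝ) (hθ0 : 0 < θ) (hθ1 : θ < 1) (hθ2 : 2 * θ < q - 2) (R : ℝ) (hR : 0 < R)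
    (b : ℝ) (f : ℝ × ℝ → ℂ) (hf : Measurable f) (hf0 : ∀ p, p ∉ Bx R → f p = 0)
    (hft : ∫⁻ p, ‖f p‖ₑ ^ q ≠ ∞) : ∑' k : ℕ, Nq q b f (Shell ((1 / 2) ^ (k + 1))) ≠ ∞ := by
  obtain ⟨C, hC, hL⟩ := low_sum q θ hθ0 hθ1 hθ2 R hR
  have h1 := hL (Measure.dirac b) (by simp) f hf hf0 hft
  rw [lintegral_dirac' _ (Measurable.tsum fun k => Nq_meas q f hf _)] at h1
  exact ne_top_of_le_ne_top (ENNReal.mul_ne_top hC hft) h1

/-- if all but finitely many shells are small then the norm is finite -/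
theorem tot_fin (q θ : ℝ) (hθ0 : 0 < θ) (hθ1 : θ < 1) (hθ2 : 2 * θ < q - 2) (R : ℝ) (hR : 0 < R)
    (b : ℝ) (f : ℝ × ℝ → ℂ) (hf : Measurable f) (hf0 : ∀ p, p ∉ Bx R → f p = 0)
    (hft : ∫⁻ p, ‖f p‖ₑ ^ q ≠ ∞) (r : ℝ) (hr0 : 0 < r) (hr1 : r < 1) (m : ℕ)
    (hm : ∀ k, m ≤ k → Nq q b f (Shell (2 ^ k)) ≤ ENNReal.ofReal (r ^ k)) :
    Nq q b f univ ≠ ∞ := by
  obtain ⟨C, hC, hD⟩ := WD q θ hθ0 hθ1 hθ2 R hR
  refine ne_top_of_le_ne_top (ENNReal.add_ne_top.2 ⟨?_, low_fin q θ hθ0 hθ1 hθ2 R hR b f hf hf0 hft⟩)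
    (tot_le q b f)
  have h1 : ∀ k, Nq q b f (Shell (2 ^ k)) ≤
      (if k < m then Nq q b f (Shell (2 ^ k)) else 0) + ENNReal.ofReal (r ^ k) := by
    intro k
    by_cases hk : k < m
    · rw [if_pos hk]
      exact le_self_add
    · rw [if_neg hk, zero_add]
      exact hm k (not_lt.1 hk)
  refine ne_top_of_le_ne_top ?_ (ENNReal.tsum_le_tsum h1)
  rw [ENNReal.tsum_add, tsum_geo r hr0.le hr1]
  refine ENNReal.add_ne_top.2 ⟨?_, ENNReal.ofReal_ne_top⟩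
  rw [tsum_eq_sum (s := Finset.range m) (fun k hk => if_neg (by simpa using hk))]
  refine ENNReal.sum_ne_top.2 fun k _ => ?_
  split_ifs
  · refine ne_top_of_le_ne_top ?_ (hD (2 ^ k) 2 (by positivity) _ (Shell_meas _) (fun t ht => ht.1)
      (Shell_vol (by positivity)) b f hf hf0 hft)
    exact ENNReal.mul_ne_top (ENNReal.mul_ne_top hC (ENNReal.rpow_ne_top_of_nonneg (by linarith)
      ENNReal.ofReal_ne_top)) hft
  · exact ENNReal.zero_ne_top

/-- dimension of the set of exceptional slopes -/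
theorem dimF (q : ℝ) (hq2 : 2 < q) (hq4 : q ≤ 4) (R : ℝ) (hR : 0 < R)
    (f : ℝ × ℝ → ℂ) (hf : Measurable f) (hf0 : ∀ p, p ∉ Bx R → f p = 0)
    (hft : ∫⁻ p, ‖f p‖ₑ ^ q ≠ ∞) :
    dimH {b : ℝ | Nq q b f univ = ∞} ≤ ENNReal.ofReal ((4 - q) / (q - 2)) := by
  classical
  refine le_of_forall_gt_imp_ge_of_dense fun s' hs' => ?_
  obtain ⟨s, hs1, hs2⟩ := ENNReal.lt_iff_exists_nnreal_btwn.1 hs'
  refine le_trans ?_ hs2.le
  have hβ : 0 ≤ (4 - q) / (q - 2) := div_nonneg (by linarith) (by linarith)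
  have hs : (4 - q) / (q - 2) < (s : ℝ) := by
    have h1 : ENNReal.ofReal ((4 - q) / (q - 2)) < ENNReal.ofReal (s : ℝ) := by
      rwa [ENNReal.ofReal_coe_nnreal]
    exact (ENNReal.ofReal_lt_ofReal_iff_of_nonneg hβ).1 h1
  have hs0 : (0 : ℝ) < s := hβ.trans_lt hs
  obtain ⟨θ, hθa, hθb⟩ : ∃ θ : ℝ, 1 / (1 + (s : ℝ)) < θ ∧ θ < (q - 2) / 2 := by
    refine exists_between ?_
    rw [div_lt_div_iff₀ (by linarith) (by norm_num)]
    rw [div_lt_iff₀ (by linarith)] at hs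
    nlinarith
  have hθ0 : 0 < θ := lt_trans (by positivity) hθa
  have hθ1 : θ < 1 := by linarith
  have hθ2 : 2 * θ < q - 2 := by linarith
  have hθs : 1 - θ < s * θ := by
    rw [div_lt_iff₀ (by linarith)] at hθa
    linarith
  set ε : ℝ := (s * θ - (1 - θ)) / 2 with hε
  have hε0 : 0 < ε := by linarith
  obtain ⟨C, hC, hcount⟩ := count_bound q θ hθ0 hθ1 hθ2 R hR
  set F := ∫⁻ p, ‖f p‖ₑ ^ q with hF
  have hsplit : {b : ℝ | Nq q b f univ = ∞} =
      ⋃ M : ℕ, {b : ℝ | Nq q b f univ = ∞} ∩ Icc (-(M : ℝ)) M := by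
    rw [← inter_iUnion]
    ext b
    simp only [mem_inter_iff, mem_iUnion]
    constructor
    · intro hb
      obtain ⟨M, hM⟩ := exists_nat_ge |b|
      exact ⟨hb, M, abs_le.1 hM⟩
    · exact fun hb => hb.1
  rw [hsplit, dimH_iUnion]
  refine iSup_le fun M => ?_
  refine dimH_le_of_hausdorffMeasure_ne_top ?_
  -- grid
  set h : ℕ → ℝ := fun k => 2 / 2 ^ k with hh
  have hh0 : ∀ k, 0 < h k := fun k => by positivity
  set v : ℕ → ℝ≥0∞ := fun k => ENNReal.ofReal (((2 : ℝ) ^ (-ε)) ^ k) with hv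
  have hr0 : (0 : ℝ) < 2 ^ (-ε) := Real.rpow_pos_of_pos (by norm_num) _
  have hr1 : (2 : ℝ) ^ (-ε) < 1 := Real.rpow_lt_one_of_one_lt_of_neg (by norm_num) (by linarith)
  set Ik : ℕ → Set ℤ := fun k => {i | ∃ b, b ∈ Icc ((i : ℝ) * h k) ((i + 1) * h k) ∧
    b ∈ Icc (-(M : ℝ)) M ∧ v k ≤ Nq q b f (Shell (2 ^ k))} with hIk
  have hIfin : ∀ k, (Ik k).Finite := by
    intro k
    refine (Set.finite_Icc (⌈-(M : ℝ) / h k⌉ - 1) ⌊(M : ℝ) / h k⌋).subset ?_
    rintro i ⟨b, hb1, hb2, -⟩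
    constructor
    · have : ⌈-(M : ℝ) / h k⌉ ≤ i + 1 := by
        rw [Int.ceil_le]
        push_cast
        rw [div_le_iff₀ (hh0 k)]
        exact hb2.1.trans hb1.2
      omega
    · rw [Int.le_floor, le_div_iff₀ (hh0 k)]
      exact hb1.1.trans hb2.2
  set Fk : ℕ → Finset ℤ := fun k => (hIfin k).toFinset with hFk
  have hmem : ∀ k i, i ∈ Fk k ↔ i ∈ Ik k := fun k i => by
    rw [hFk]
    exact (hIfin k).mem_toFinset
  set A : ℝ≥0∞ := (C * F) ^ (1 / θ) with hA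
  have hAt : A ≠ ∞ := ENNReal.rpow_ne_top_of_nonneg (by positivity) (ENNReal.mul_ne_top hC hft)
  have hcard : ∀ k, ((Fk k).card : ℝ≥0∞) ≤
      A * ENNReal.ofReal ((2 : ℝ) ^ ((k : ℝ) * ((1 - θ + ε) / θ))) := by
    intro k
    have h1 : ∀ i : ℤ, ∃ b, i ∈ Fk k → b ∈ Icc ((i : ℝ) * h k) ((i + 1) * h k) ∧
        v k ≤ Nq q b f (Shell (2 ^ k)) := by
      intro i
      by_cases hi : i ∈ Fk k
      · obtain ⟨b, hb1, -, hb3⟩ := (hmem k i).1 hi
        exact ⟨b, fun _ => ⟨hb1, hb3⟩⟩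
      · exact ⟨0, fun h => absurd h hi⟩
    choose b hb using h1
    have h2 := hcount (2 ^ k) (by positivity) (v k) (Fk k) b (fun i hi => (hb i hi).1) f hf hf0 hft
      (fun i hi => (hb i hi).2)
    have hv0 : v k ≠ 0 := by
      rw [hv]
      simp only [ne_eq, ENNReal.ofReal_eq_zero, not_le]
      positivity
    have hvt : v k ≠ ∞ := ENNReal.ofReal_ne_top
    have h3 : ((Fk k).card : ℝ≥0∞) ^ θ ≤
        C * F * ENNReal.ofReal ((2 : ℝ) ^ ((k : ℝ) * (1 - θ + ε))) := by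
      have h4 : ((Fk k).card : ℝ≥0∞) ^ θ = (v k)⁻¹ * (v k * ((Fk k).card : ℝ≥0∞) ^ θ) := by
        rw [← mul_assoc, ENNReal.inv_mul_cancel hv0 hvt, one_mul]
      rw [h4]
      refine (mul_le_mul_right h2 _).trans (le_of_eq ?_)
      have h5 : (v k)⁻¹ * ENNReal.ofReal (2 ^ k) ^ (1 - θ) =
          ENNReal.ofReal ((2 : ℝ) ^ ((k : ℝ) * (1 - θ + ε))) := by
        rw [hv]
        simp only
        rw [← ENNReal.ofReal_inv_of_pos (by positivity), ENNReal.ofReal_rpow_of_pos (by positivity),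
          ← ENNReal.ofReal_mul (by positivity)]
        congr 1
        rw [← Real.rpow_natCast, ← Real.rpow_natCast, ← Real.rpow_mul (by norm_num),
          ← Real.rpow_mul (by norm_num), ← Real.rpow_neg (by norm_num), ← Real.rpow_add (by norm_num)]
        congr 1
        ring
      rw [← h5]
      ring
    have h6 := ENNReal.rpow_le_rpow h3 (by positivity : (0 : ℝ) ≤ 1 / θ)
    rw [← ENNReal.rpow_mul, mul_one_div_cancel hθ0.ne', ENNReal.rpow_one,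
      ENNReal.mul_rpow_of_nonneg _ _ (by positivity), ENNReal.ofReal_rpow_of_pos (by positivity),
      ← Real.rpow_mul (by norm_num)] at h6
    refine h6.trans (le_of_eq ?_)
    rw [hA]
    congr 3
    field_simp
  -- the covering
  set t : ℕ → ℕ × ℤ → Set ℝ := fun m a =>
    if m ≤ a.1 ∧ a.2 ∈ Fk a.1 then Icc ((a.2 : ℝ) * h a.1) ((a.2 + 1) * h a.1) else ∅ with ht
  have hdiam : ∀ k (i : ℤ), ediam (Icc ((i : ℝ) * h k) ((i + 1) * h k)) = ENNReal.ofReal (h k) := by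
    intro k i
    rw [Real.ediam_Icc]
    congr 1
    ring
  have hH := Measure.hausdorffMeasure_le_liminf_tsum (X := ℝ) (ι := fun _ : ℕ => ℕ × ℤ) (s : ℝ)
    ({b : ℝ | Nq q b f univ = ∞} ∩ Icc (-(M : ℝ)) M) (l := atTop)
    (fun m => ENNReal.ofReal (h m)) ?_ t ?_ ?_
  · refine ne_top_of_le_ne_top ?_ hH
    set ρ : ℝ := (2 : ℝ) ^ ((1 - θ + ε) / θ - s) with hρ
    have hρ0 : 0 < ρ := Real.rpow_pos_of_pos (by norm_num) _
    have hρ1 : ρ < 1 := by
      refine Real.rpow_lt_one_of_one_lt_of_neg (by norm_num) ?_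
      rw [sub_neg, div_lt_iff₀ hθ0]
      linarith
    have hbd : ∀ m, ∑' a, ediam (t m a) ^ (s : ℝ) ≤
        A * (ENNReal.ofReal ((2 : ℝ) ^ (s : ℝ)) * ENNReal.ofReal ((1 - ρ)⁻¹)) := by
      intro m
      have e0 := ENNReal.tsum_prod (f := fun (k : ℕ) (i : ℤ) => ediam (t m (k, i)) ^ (s : ℝ))
      calc ∑' a, ediam (t m a) ^ (s : ℝ) = ∑' k, ∑' i, ediam (t m (k, i)) ^ (s : ℝ) := e0
        _ ≤ ∑' k, A * (ENNReal.ofReal ((2 : ℝ) ^ (s : ℝ)) * ENNReal.ofReal (ρ ^ k)) := by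
            refine ENNReal.tsum_le_tsum fun k => ?_
            have h1 : ∀ i, ediam (t m (k, i)) ^ (s : ℝ) ≤
                if i ∈ Fk k then ENNReal.ofReal (h k) ^ (s : ℝ) else 0 := by
              intro i
              simp only [ht]
              by_cases hi : i ∈ Fk k
              · rw [if_pos hi]
                by_cases hm : m ≤ k
                · rw [if_pos ⟨hm, hi⟩, hdiam]
                · rw [if_neg (fun h => hm h.1), ediam_empty, ENNReal.zero_rpow_of_pos hs0]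
                  exact zero_le
              · rw [if_neg hi, if_neg (fun h => hi h.2), ediam_empty, ENNReal.zero_rpow_of_pos hs0]
            refine (ENNReal.tsum_le_tsum h1).trans ?_
            rw [tsum_eq_sum (s := Fk k) (fun i hi => if_neg hi), Finset.sum_congr rfl
              (fun i hi => if_pos hi), Finset.sum_const, nsmul_eq_mul]
            refine (mul_le_mul_left (hcard k) _).trans (le_of_eq ?_)
            rw [mul_assoc, ENNReal.ofReal_rpow_of_pos (hh0 k), ← ENNReal.ofReal_mul (by positivity),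
              ← ENNReal.ofReal_mul (by positivity)]
            congr 2
            simp only [hh]
            have h20 : (0 : ℝ) ≤ 2 := by norm_num
            have e1 : ((2 : ℝ) / 2 ^ k) ^ (s : ℝ) = 2 ^ (s : ℝ) * 2 ^ (-(k : ℝ) * s) := by
              rw [div_eq_mul_inv, Real.mul_rpow h20 (by positivity), ← Real.rpow_natCast,
                ← Real.rpow_neg h20, ← Real.rpow_mul h20]
            have e2 : ρ ^ k = 2 ^ ((k : ℝ) * ((1 - θ + ε) / θ)) * 2 ^ (-(k : ℝ) * s) := by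
              rw [hρ, ← Real.rpow_natCast, ← Real.rpow_mul h20, ← Real.rpow_add (by norm_num)]
              congr 1
              ring
            rw [e1, e2]
            ring
        _ = _ := by rw [ENNReal.tsum_mul_left, ENNReal.tsum_mul_left, tsum_geo ρ hρ0.le hρ1]
    have hfin : A * (ENNReal.ofReal ((2 : ℝ) ^ (s : ℝ)) * ENNReal.ofReal ((1 - ρ)⁻¹)) ≠ ∞ :=
      ENNReal.mul_ne_top hAt (ENNReal.mul_ne_top ENNReal.ofReal_ne_top ENNReal.ofReal_ne_top)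
    exact ne_top_of_le_ne_top hfin
      (liminf_le_of_frequently_le' (Frequently.of_forall fun m => hbd m))
  · rw [← ENNReal.ofReal_zero]
    refine ENNReal.tendsto_ofReal ?_
    have h1 : Tendsto (fun m : ℕ => (2 : ℝ) * (1 / 2) ^ m) atTop (𝓝 (2 * 0)) :=
      (tendsto_pow_atTop_nhds_zero_of_lt_one (by norm_num) (by norm_num)).const_mul 2
    rw [mul_zero] at h1
    refine h1.congr fun m => ?_
    simp only [hh]
    rw [one_div, inv_pow]
    rfl
  · refine Eventually.of_forall fun m a => ?_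
    simp only [ht]
    split_ifs with h1
    · rw [hdiam]
      refine ENNReal.ofReal_le_ofReal ?_
      simp only [hh]
      have : (2 : ℝ) ^ m ≤ 2 ^ a.1 := pow_le_pow_right₀ (by norm_num) h1.1
      gcongr
    · rw [ediam_empty]
      exact zero_le
  · refine Eventually.of_forall fun m => ?_
    rintro b ⟨hb1, hb2⟩
    by_contra hne
    have h1 : ∀ k, m ≤ k → Nq q b f (Shell (2 ^ k)) ≤ ENNReal.ofReal (((2 : ℝ) ^ (-ε)) ^ k) := by
      intro k hk
      by_contra hlt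
      rw [not_le] at hlt
      refine hne (mem_iUnion.2 ⟨(k, ⌊b / h k⌋), ?_⟩)
      have hbI : b ∈ Icc ((⌊b / h k⌋ : ℝ) * h k) ((⌊b / h k⌋ + 1) * h k) := by
        constructor
        · rw [← le_div_iff₀ (hh0 k)]
          exact Int.floor_le _
        · rw [← div_le_iff₀ (hh0 k)]
          exact (Int.lt_floor_add_one _).le
      simp only [ht]
      rw [if_pos ⟨hk, (hmem k _).2 ⟨b, hbI, hb2, hlt.le⟩⟩]
      exact hbI
    exact tot_fin q θ hθ0 hθ1 hθ2 R hR b f hf hf0 hft _ hr0 hr1 m h1 hb1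

end Pool.Agent.K4H66.DF
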