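import Mathlib
import Pool.Agent.K4H66.DF.B7
import Pool.Agent.K4H66.RV.A7
set_option autoImplicit false

/-! Averages along the flow. -/

namespace Pool.Agent.K4H66.DF

open MeasureTheory Complex Set Filter Topology Metric
open scoped ENNReal NNReal ComplexConjugate
open Pool.Agent.R412.RT (ee ee_norm ee_add ee_conj ee_meas ee_cont)
open Pool.Agent.K4H66.RV (Ef pph Ef_meas pph_int Ef_add Ef_sub Ef_smul)

/-- composition with the flow -/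
noncomputable def fl (l₁ l₂ s : ℝ) (f : ℝ × ℝ → ℂ) : ℝ × ℝ → ℂ :=
  dil (Real.exp (l₁ * s)) (Real.exp (l₂ * s)) f

theorem fl_add (l₁ l₂ s h : ℝ) (f : ℝ × ℝ → ℂ) : fl l₁ l₂ s (fl l₁ l₂ h f) = fl l₁ l₂ (s + h) f := by
  ext p
  unfold fl dil
  simp only
  congr 1
  rw [mul_add, mul_add, Real.exp_add, Real.exp_add]
  ext <;> simp only <;> ring

theorem fl_meas {l₁ l₂ : ℝ} {s : ℝ} {f : ℝ × ℝ → ℂ} (hf : Measurable f) :
    Measurable (fl l₁ l₂ s f) := dil_meas hf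

/-- slope -/
noncomputable def bs (l₁ l₂ s : ℝ) : ℝ := Real.exp (2 * (l₁ - l₂) * s)

theorem bs_eq (l₁ l₂ s : ℝ) : Real.exp (l₁ * s) ^ 2 / Real.exp (l₂ * s) ^ 2 = bs l₁ l₂ s := by
  unfold bs
  rw [← Real.exp_nat_mul, ← Real.exp_nat_mul, ← Real.exp_sub]
  congr 1
  push_cast
  ring

theorem bs_meas (l₁ l₂ : ℝ) : Measurable (bs l₁ l₂) := by
  unfold bs
  fun_prop

theorem exp_lower {x y m : ℝ} (hx : |x| ≤ m) (hy : |y| ≤ m) :
    Real.exp (-m) * |x - y| ≤ |Real.exp x - Real.exp y| := by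
  have key : ∀ x y : ℝ, |y| ≤ m → y ≤ x → Real.exp (-m) * |x - y| ≤ |Real.exp x - Real.exp y| := by
    intro x y hy hxy
    rw [abs_of_nonneg (by linarith), abs_of_nonneg (by
      have := Real.exp_le_exp.2 hxy
      linarith)]
    have h1 : Real.exp x = Real.exp y * Real.exp (x - y) := by
      rw [← Real.exp_add]
      congr 1
      ring
    have h2 := Real.add_one_le_exp (x - y)
    have h3 : Real.exp (-m) ≤ Real.exp y := Real.exp_le_exp.2 (neg_le_of_abs_le hy)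
    have h4 := Real.exp_pos y
    rw [h1]
    nlinarith
  rcases le_total y x with h | h
  · exact key x y hy h
  · have := key y x hx h
    rwa [abs_sub_comm, abs_sub_comm (Real.exp y)] at this

theorem bs_lower {l₁ l₂ s s' : ℝ} (hs : s ∈ Icc (0 : ℝ) 1) (hs' : s' ∈ Icc (0 : ℝ) 1) :
    (|2 * (l₁ - l₂)| * Real.exp (-|2 * (l₁ - l₂)|)) * |s - s'| ≤ |bs l₁ l₂ s - bs l₁ l₂ s'| := by
  unfold bs
  have h1 : ∀ s ∈ Icc (0 : ℝ) 1, |2 * (l₁ - l₂) * s| ≤ |2 * (l₁ - l₂)| := by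
    intro s hs
    rw [abs_mul, abs_of_nonneg hs.1]
    exact mul_le_of_le_one_right (abs_nonneg _) hs.2
  have h2 := exp_lower (h1 s hs) (h1 s' hs')
  refine le_trans (le_of_eq ?_) h2
  rw [← mul_sub, abs_mul (2 * (l₁ - l₂))]
  ring

/-- the normalized measure on `(0, h]` -/
noncomputable def mh (h : ℝ) : Measure ℝ := ENNReal.ofReal h⁻¹ • volume.restrict (Ioc 0 h)

theorem mh_univ {h : ℝ} (hh : 0 < h) : mh h univ = 1 := by
  unfold mh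
  rw [Measure.smul_apply, Measure.restrict_apply_univ, Real.volume_Ioc, smul_eq_mul,
    ← ENNReal.ofReal_mul (by positivity), sub_zero, inv_mul_cancel₀ hh.ne', ENNReal.ofReal_one]

theorem mh_fin {h : ℝ} (hh : 0 < h) : IsFiniteMeasure (mh h) :=
  ⟨by rw [mh_univ hh]; exact ENNReal.one_lt_top⟩

instance (h : ℝ) : SFinite (mh h) := by unfold mh; infer_instance

theorem Efl_meas (l₁ l₂ : ℝ) (f : ℝ × ℝ → ℂ) (hf : Measurable f) :
    Measurable fun z : ℝ × (ℝ × (ℝ × ℝ)) => Ef (fl l₁ l₂ z.1 f) z.2 := by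
  have : StronglyMeasurable (Function.uncurry fun (z : ℝ × (ℝ × (ℝ × ℝ))) (p : ℝ × ℝ) =>
      ee (pph z.2 p) * fl l₁ l₂ z.1 f p) := by
    refine Measurable.stronglyMeasurable (Measurable.mul (ee_meas.comp ?_) ?_)
    · unfold pph
      fun_prop
    · unfold fl dil
      exact hf.comp (by fun_prop)
  exact this.integral_prod_right.measurable

theorem Efl_meas1 (l₁ l₂ : ℝ) (f : ℝ × ℝ → ℂ) (hf : Measurable f) (ω : ℝ × (ℝ × ℝ)) :
    Measurable fun s : ℝ => Ef (fl l₁ l₂ s f) ω := by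
  have : StronglyMeasurable (Function.uncurry fun (s : ℝ) (p : ℝ × ℝ) =>
      ee (pph ω p) * fl l₁ l₂ s f p) := by
    refine Measurable.stronglyMeasurable (Measurable.mul (ee_meas.comp ?_) ?_)
    · unfold pph
      fun_prop
    · unfold fl dil
      exact hf.comp (by fun_prop)
  exact this.integral_prod_right.measurable

/-- the averaged extension -/
noncomputable def Av (l₁ l₂ h : ℝ) (f : ℝ × ℝ → ℂ) (ω : ℝ × (ℝ × ℝ)) : ℂ :=
  ((h⁻¹ : ℝ) : ℂ) * ∫ s in (0 : ℝ)..h, Ef (fl l₁ l₂ s f) ω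

theorem Av_meas (l₁ l₂ h : ℝ) (hh : 0 < h) (f : ℝ × ℝ → ℂ) (hf : Measurable f) :
    Measurable (Av l₁ l₂ h f) := by
  unfold Av
  refine Measurable.const_mul ?_ _
  simp_rw [intervalIntegral.integral_of_le hh.le]
  have h1 : StronglyMeasurable (Function.uncurry fun (ω : ℝ × (ℝ × ℝ)) (s : ℝ) =>
      Ef (fl l₁ l₂ s f) ω) :=
    ((Efl_meas l₁ l₂ f hf).comp measurable_swap).stronglyMeasurable
  exact h1.integral_prod_right.measurable

theorem avg_le (q : ℝ) (hq : 1 < q) {h : ℝ} (hh : 0 < h) (G : ℝ → ℂ) (hG : Measurable G) :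
    ‖((h⁻¹ : ℝ) : ℂ) * ∫ s in (0 : ℝ)..h, G s‖ₑ ^ q ≤ ∫⁻ s, ‖G s‖ₑ ^ q ∂(mh h) := by
  have h1 : ‖((h⁻¹ : ℝ) : ℂ) * ∫ s in (0 : ℝ)..h, G s‖ₑ ≤ ∫⁻ s, ‖G s‖ₑ ∂(mh h) := by
    rw [enorm_mul, intervalIntegral.integral_of_le hh.le]
    unfold mh
    rw [lintegral_smul_measure, smul_eq_mul]
    refine mul_le_mul (le_of_eq ?_) (enorm_integral_le_lintegral_enorm _) zero_le zero_le
    rw [← ofReal_norm, Complex.norm_real, Real.norm_of_nonneg (by positivity)]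
  refine (ENNReal.rpow_le_rpow h1 (by linarith)).trans ?_
  have h2 := HJ (mh h) q hq (fun s => ‖G s‖ₑ) hG.enorm.aemeasurable
  rwa [mh_univ hh, ENNReal.one_rpow, one_mul] at h2

/-- shells are moved within a fixed ratio -/
def Sh' (l₁ T : ℝ) : Set ℝ := {t | T * Real.exp (-(2 * |l₁|)) ≤ |t| ∧ |t| < 2 * T * Real.exp (2 * |l₁|)}

theorem Sh'_meas (l₁ T : ℝ) : MeasurableSet (Sh' l₁ T) := by
  have h : Measurable fun t : ℝ => |t| := by fun_prop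
  exact (h measurableSet_Ici).inter (h measurableSet_Iio)

theorem Sh'_vol {l₁ T : ℝ} (hT : 0 < T) : volume (Sh' l₁ T) ≤
    ENNReal.ofReal (4 * Real.exp (4 * |l₁|) * (T * Real.exp (-(2 * |l₁|)))) := by
  have h1 : Sh' l₁ T ⊆ Icc (-(2 * T * Real.exp (2 * |l₁|))) (2 * T * Real.exp (2 * |l₁|)) := by
    intro t ht
    exact abs_le.1 ht.2.le
  refine (measure_mono h1).trans ?_
  rw [Real.volume_Icc]
  refine ENNReal.ofReal_le_ofReal (le_of_eq ?_)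
  have h2 : Real.exp (4 * |l₁|) * Real.exp (-(2 * |l₁|)) = Real.exp (2 * |l₁|) := by
    rw [← Real.exp_add]
    congr 1
    ring
  calc 2 * T * Real.exp (2 * |l₁|) - -(2 * T * Real.exp (2 * |l₁|))
      = 4 * T * Real.exp (2 * |l₁|) := by ring
    _ = 4 * T * (Real.exp (4 * |l₁|) * Real.exp (-(2 * |l₁|))) := by rw [h2]
    _ = _ := by ring

theorem Sh'_sub {l₁ T s : ℝ} (hT : 0 < T) (hs : s ∈ Icc (0 : ℝ) 1) :
    {t | Real.exp (l₁ * s) ^ 2 * t ∈ Shell T} ⊆ Sh' l₁ T := by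
  intro t ht
  obtain ⟨h1, h2⟩ := ht
  have e1 : Real.exp (l₁ * s) ^ 2 = Real.exp (2 * (l₁ * s)) := by
    rw [← Real.exp_nat_mul]
    push_cast
    rfl
  rw [e1, abs_mul, abs_of_pos (Real.exp_pos _)] at h1 h2
  have h3 : |2 * (l₁ * s)| ≤ 2 * |l₁| := by
    rw [abs_mul, abs_mul, abs_of_nonneg hs.1, abs_of_pos (by norm_num : (0 : ℝ) < 2)]
    have := abs_nonneg l₁
    nlinarith [hs.2]
  have h4 := abs_le.1 h3
  have h5 : Real.exp (2 * (l₁ * s)) ≤ Real.exp (2 * |l₁|) := Real.exp_le_exp.2 h4.2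
  have h6 : Real.exp (-(2 * |l₁|)) ≤ Real.exp (2 * (l₁ * s)) := Real.exp_le_exp.2 h4.1
  have h7 : Real.exp (2 * |l₁|) * Real.exp (-(2 * |l₁|)) = 1 := by
    rw [← Real.exp_add, add_neg_cancel, Real.exp_zero]
  have h8 := Real.exp_pos (2 * |l₁|)
  have h9 := Real.exp_pos (-(2 * |l₁|))
  have h10 := abs_nonneg t
  constructor
  · calc T * Real.exp (-(2 * |l₁|)) ≤ (Real.exp (2 * (l₁ * s)) * |t|) * Real.exp (-(2 * |l₁|)) := by
          gcongr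
      _ ≤ (Real.exp (2 * |l₁|) * |t|) * Real.exp (-(2 * |l₁|)) := by gcongr
      _ = |t| * (Real.exp (2 * |l₁|) * Real.exp (-(2 * |l₁|))) := by ring
      _ = |t| := by rw [h7, mul_one]
  · calc |t| = (Real.exp (-(2 * |l₁|)) * |t|) * Real.exp (2 * |l₁|) := by
          rw [mul_comm (Real.exp (-(2 * |l₁|))), mul_assoc, mul_comm (Real.exp (-(2 * |l₁|))), h7,
            mul_one]
      _ ≤ (Real.exp (2 * (l₁ * s)) * |t|) * Real.exp (2 * |l₁|) := by gcongr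
      _ < 2 * T * Real.exp (2 * |l₁|) := by gcongr

theorem Kd_le (q : ℝ) (hq : 0 < q) {l₁ l₂ s : ℝ} (hs : s ∈ Icc (0 : ℝ) 1) :
    Kd q (Real.exp (l₁ * s)) (Real.exp (l₂ * s)) ≤
      Real.exp ((|l₁| + |l₂|) * q + 3 * (|l₁| + |l₂|)) := by
  unfold Kd
  have e1 : (Real.exp (l₁ * s) * Real.exp (l₂ * s))⁻¹ ^ q = Real.exp (-(l₁ * s + l₂ * s) * q) := by
    rw [← Real.exp_add, ← Real.exp_neg, ← Real.exp_mul]
  have e2 : Real.exp (l₁ * s) * Real.exp (l₂ * s) * Real.exp (l₁ * s) ^ 2 =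
      Real.exp (3 * (l₁ * s) + l₂ * s) := by
    rw [← Real.exp_nat_mul, ← Real.exp_add, ← Real.exp_add]
    congr 1
    push_cast
    ring
  rw [e1, e2, ← Real.exp_add]
  refine Real.exp_le_exp.2 ?_
  have h1 : ∀ l : ℝ, |l * s| ≤ |l| := by
    intro l
    rw [abs_mul, abs_of_nonneg hs.1]
    exact mul_le_of_le_one_right (abs_nonneg _) hs.2
  have h2 := abs_le.1 (h1 l₁)
  have h3 := abs_le.1 (h1 l₂)
  have h4 := abs_nonneg l₁
  have h5 := abs_nonneg l₂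
  have h6 : -(l₁ * s + l₂ * s) ≤ |l₁| + |l₂| := by linarith
  have h7 : -(l₁ * s + l₂ * s) * q ≤ (|l₁| + |l₂|) * q := mul_le_mul_of_nonneg_right h6 hq.le
  linarith

/-- the slope measure is admissible -/
theorem map_adm {l₁ l₂ : ℝ} (hl : l₁ ≠ l₂) {T h : ℝ} (hT : 0 < T) (hh : 0 < h) (hh1 : h ≤ 1) :
    Adm (T * Real.exp (-(2 * |l₁|))) (4 * Real.exp (4 * |l₁|))
      (ENNReal.ofReal (2 * Real.exp (2 * |l₁|) /
        (|2 * (l₁ - l₂)| * Real.exp (-|2 * (l₁ - l₂)|)) * (h * T)⁻¹))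
      (Measure.map (bs l₁ l₂) (mh h)) (Sh' l₁ T) := by
  have hc : 0 < |2 * (l₁ - l₂)| * Real.exp (-|2 * (l₁ - l₂)|) := by
    have : 0 < |2 * (l₁ - l₂)| := abs_pos.2 (mul_ne_zero two_ne_zero (sub_ne_zero.2 hl))
    positivity
  set c := |2 * (l₁ - l₂)| * Real.exp (-|2 * (l₁ - l₂)|) with hcd
  refine ⟨by positivity, ?_, ?_, Sh'_meas _ _, fun t ht => ht.1, Sh'_vol hT⟩
  · rw [Measure.map_apply (bs_meas l₁ l₂) MeasurableSet.univ, preimage_univ, mh_univ hh]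
  · intro x
    rw [Measure.map_apply (bs_meas l₁ l₂) measurableSet_Icc]
    unfold mh
    rw [Measure.smul_apply, smul_eq_mul, Measure.restrict_apply
      ((bs_meas l₁ l₂) measurableSet_Icc)]
    set A := bs l₁ l₂ ⁻¹' Icc x (x + 2 / (T * Real.exp (-(2 * |l₁|)))) ∩ Ioc 0 h with hA
    have h1 : volume A ≤ ENNReal.ofReal (2 / (T * Real.exp (-(2 * |l₁|))) / c) := by
      refine (Real.volume_le_diam A).trans ?_
      refine ediam_le fun s hs s' hs' => ?_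
      rw [edist_dist]
      refine ENNReal.ofReal_le_ofReal ?_
      rw [Real.dist_eq, le_div_iff₀ hc, mul_comm]
      have hm : ∀ s ∈ A, s ∈ Icc (0 : ℝ) 1 := fun s hs => ⟨hs.2.1.le, hs.2.2.trans hh1⟩
      refine (bs_lower (hm s hs) (hm s' hs')).trans ?_
      have h2 := hs.1
      have h3 := hs'.1
      rw [abs_le]
      constructor
      · linarith [h2.1, h3.2]
      · linarith [h2.2, h3.1]
    refine (mul_le_mul_right h1 _).trans ?_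
    rw [← ENNReal.ofReal_mul (by positivity)]
    refine ENNReal.ofReal_le_ofReal (le_of_eq ?_)
    rw [Real.exp_neg]
    field_simp

theorem Efl_meas2 (l₁ l₂ : ℝ) (f : ℝ × ℝ → ℂ) (hf : Measurable f) (t : ℝ) :
    Measurable fun z : (ℝ × ℝ) × ℝ => Ef (fl l₁ l₂ z.2 f) (t, z.1) := by
  have : StronglyMeasurable (Function.uncurry fun (z : (ℝ × ℝ) × ℝ) (p : ℝ × ℝ) =>
      ee (pph (t, z.1) p) * fl l₁ l₂ z.2 f p) := by
    refine Measurable.stronglyMeasurable (Measurable.mul (ee_meas.comp ?_) ?_)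
    · unfold pph
      fun_prop
    · unfold fl dil
      exact hf.comp (by fun_prop)
  exact this.integral_prod_right.measurable

theorem Efl_meas3 (l₁ l₂ : ℝ) (f : ℝ × ℝ → ℂ) (hf : Measurable f) :
    Measurable fun y : (ℝ × ℝ) × (ℝ × ℝ) => Ef (fl l₁ l₂ y.1.2 f) (y.1.1, y.2) := by
  have : StronglyMeasurable (Function.uncurry fun (y : (ℝ × ℝ) × (ℝ × ℝ)) (p : ℝ × ℝ) =>
      ee (pph (y.1.1, y.2) p) * fl l₁ l₂ y.1.2 f p) := by
    refine Measurable.stronglyMeasurable (Measurable.mul (ee_meas.comp ?_) ?_)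
    · unfold pph
      fun_prop
    · unfold fl dil
      exact hf.comp (by fun_prop)
  exact this.integral_prod_right.measurable

theorem Nqbs_meas (q : ℝ) (l₁ l₂ : ℝ) (f : ℝ × ℝ → ℂ) (hf : Measurable f) (S : Set ℝ) :
    Measurable fun s => Nq q (bs l₁ l₂ s) f S := (Nq_meas q f hf S).comp (bs_meas l₁ l₂)

/-- swapping the average and the norm -/
theorem C1a (q : ℝ) (hq : 1 < q) (l₁ l₂ : ℝ) {T h : ℝ} (hh : 0 < h)
    (f : ℝ × ℝ → ℂ) (hf : Measurable f) :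
    ∫⁻ t in Shell T, ∫⁻ w, ‖Av l₁ l₂ h f (t, w)‖ₑ ^ q ≤
      ∫⁻ s, (∫⁻ t in Shell T, ∫⁻ w, ‖Ef (fl l₁ l₂ s f) (t, w)‖ₑ ^ q) ∂(mh h) := by
  have hm5 : ∀ t : ℝ, Measurable fun z : (ℝ × ℝ) × ℝ => ‖Ef (fl l₁ l₂ z.2 f) (t, z.1)‖ₑ ^ q :=
    fun t => (Efl_meas2 l₁ l₂ f hf t).enorm.pow_const q
  have hm6 : Measurable fun z : ℝ × ℝ => ∫⁻ w : ℝ × ℝ, ‖Ef (fl l₁ l₂ z.2 f) (z.1, w)‖ₑ ^ q :=
    ((Efl_meas3 l₁ l₂ f hf).enorm.pow_const q).lintegral_prod_right'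
  calc ∫⁻ t in Shell T, ∫⁻ w, ‖Av l₁ l₂ h f (t, w)‖ₑ ^ q
      ≤ ∫⁻ t in Shell T, ∫⁻ w, ∫⁻ s, ‖Ef (fl l₁ l₂ s f) (t, w)‖ₑ ^ q ∂(mh h) := by
        refine lintegral_mono fun t => lintegral_mono fun w => ?_
        exact avg_le q hq hh _ (Efl_meas1 l₁ l₂ f hf (t, w))
    _ = ∫⁻ t in Shell T, ∫⁻ s, (∫⁻ w, ‖Ef (fl l₁ l₂ s f) (t, w)‖ₑ ^ q) ∂(mh h) := by
        refine lintegral_congr fun t => ?_
        rw [lintegral_lintegral_swap]
        exact (hm5 t).aemeasurable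
    _ = ∫⁻ s, (∫⁻ t in Shell T, ∫⁻ w, ‖Ef (fl l₁ l₂ s f) (t, w)‖ₑ ^ q) ∂(mh h) := by
        rw [lintegral_lintegral_swap]
        exact hm6.aemeasurable

theorem C1b (q : ℝ) (hq : 0 < q) (l₁ l₂ : ℝ) {T h : ℝ} (hT : 0 < T) (hh1 : h ≤ 1)
    (f : ℝ × ℝ → ℂ) (hf : Measurable f) :
    ∫⁻ s, (∫⁻ t in Shell T, ∫⁻ w, ‖Ef (fl l₁ l₂ s f) (t, w)‖ₑ ^ q) ∂(mh h) ≤
      ENNReal.ofReal (Real.exp ((|l₁| + |l₂|) * q + 3 * (|l₁| + |l₂|))) *
        ∫⁻ s, Nq q (bs l₁ l₂ s) f (Sh' l₁ T) ∂(mh h) := by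
  rw [← lintegral_const_mul _ (Nqbs_meas q l₁ l₂ f hf (Sh' l₁ T))]
  have hae : ∀ᵐ s ∂(mh h), s ∈ Ioc 0 h := by
    unfold mh
    exact Measure.ae_smul_measure (ae_restrict_mem measurableSet_Ioc) _
  refine lintegral_mono_ae ?_
  filter_upwards [hae] with s hs
  have hs1 : s ∈ Icc (0 : ℝ) 1 := ⟨hs.1.le, hs.2.trans hh1⟩
  have e1 := EfN q hq (Real.exp_pos (l₁ * s)) (Real.exp_pos (l₂ * s)) f hf (Shell T) (Shell_meas T)
  rw [bs_eq] at e1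
  calc ∫⁻ t in Shell T, ∫⁻ w, ‖Ef (fl l₁ l₂ s f) (t, w)‖ₑ ^ q
      = ENNReal.ofReal (Kd q (Real.exp (l₁ * s)) (Real.exp (l₂ * s))) *
        Nq q (bs l₁ l₂ s) f {t | Real.exp (l₁ * s) ^ 2 * t ∈ Shell T} := e1
    _ ≤ _ := by
        refine mul_le_mul (ENNReal.ofReal_le_ofReal (Kd_le q hq hs1)) ?_ zero_le zero_le
        exact lintegral_mono_set (Sh'_sub hT hs1)

/-- norms of averages -/
theorem C1 (q θ : ℝ) (hθ0 : 0 < θ) (hθ1 : θ < 1) (hθ2 : 2 * θ < q - 2) (R : ℝ) (hR : 0 < R)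
    (l₁ l₂ : ℝ) (hl : l₁ ≠ l₂) : ∃ C : ℝ≥0∞, C ≠ ∞ ∧ ∀ (T h : ℝ), 0 < T → 0 < h → h ≤ 1 →
    ∀ f : ℝ × ℝ → ℂ, Measurable f → (∀ p, p ∉ Bx R → f p = 0) → ∫⁻ p, ‖f p‖ₑ ^ q ≠ ∞ →
    ∫⁻ t in Shell T, ∫⁻ w, ‖Av l₁ l₂ h f (t, w)‖ₑ ^ q ≤
      C * ENNReal.ofReal (T ^ (1 - 2 * θ) * h ^ (-θ)) * ∫⁻ p, ‖f p‖ₑ ^ q := by
  have hq2 : 2 < q := by linarith
  obtain ⟨C, hC, hW⟩ := WN q θ hθ0 hθ1 hθ2 R hR
  set c := |2 * (l₁ - l₂)| * Real.exp (-|2 * (l₁ - l₂)|) with hcd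
  have hc : 0 < c := by
    have : 0 < |2 * (l₁ - l₂)| := abs_pos.2 (mul_ne_zero two_ne_zero (sub_ne_zero.2 hl))
    positivity
  set Km : ℝ := Real.exp ((|l₁| + |l₂|) * q + 3 * (|l₁| + |l₂|)) with hKm
  set L : ℝ := 4 * Real.exp (4 * |l₁|) * Real.exp (-(2 * |l₁|)) with hL
  set c' : ℝ := 2 * Real.exp (2 * |l₁|) / c with hc'
  have hc'0 : 0 < c' := by positivity
  have hL0 : 0 < L := by positivity
  refine ⟨ENNReal.ofReal Km * (C * ENNReal.ofReal (L ^ (1 - θ) * c' ^ θ)), ENNReal.mul_ne_top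
    ENNReal.ofReal_ne_top (ENNReal.mul_ne_top hC ENNReal.ofReal_ne_top), ?_⟩
  intro T h hT hh hh1 f hf hf0 hft
  have hadm := map_adm hl hT hh hh1
  rw [← hcd] at hadm
  have := mh_fin hh
  have h1 := hW _ _ _ (Measure.map (bs l₁ l₂) (mh h)) _ hadm f hf hf0 hft
  rw [lintegral_map (Nq_meas q f hf _) (bs_meas l₁ l₂)] at h1
  calc ∫⁻ t in Shell T, ∫⁻ w, ‖Av l₁ l₂ h f (t, w)‖ₑ ^ q
      ≤ ENNReal.ofReal Km * ∫⁻ s, Nq q (bs l₁ l₂ s) f (Sh' l₁ T) ∂(mh h) :=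
        (C1a q (by linarith) l₁ l₂ hh f hf).trans (C1b q (by linarith) l₁ l₂ hT hh1 f hf)
    _ ≤ ENNReal.ofReal Km * (C * (ENNReal.ofReal (4 * Real.exp (4 * |l₁|) *
          (T * Real.exp (-(2 * |l₁|)))) ^ (1 - θ) *
          ENNReal.ofReal (2 * Real.exp (2 * |l₁|) / c * (h * T)⁻¹) ^ θ) *
          ∫⁻ p, ‖f p‖ₑ ^ q) := mul_le_mul_right h1 _
    _ = _ := by
        have e1 : ENNReal.ofReal (4 * Real.exp (4 * |l₁|) * (T * Real.exp (-(2 * |l₁|)))) ^ (1 - θ) *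
            ENNReal.ofReal (2 * Real.exp (2 * |l₁|) / c * (h * T)⁻¹) ^ θ =
            ENNReal.ofReal (L ^ (1 - θ) * c' ^ θ) * ENNReal.ofReal (T ^ (1 - 2 * θ) * h ^ (-θ)) := by
          rw [ENNReal.ofReal_rpow_of_pos (by positivity), ENNReal.ofReal_rpow_of_pos (by positivity),
            ← ENNReal.ofReal_mul (by positivity), ← ENNReal.ofReal_mul (by positivity)]
          congr 1
          have e2 : 4 * Real.exp (4 * |l₁|) * (T * Real.exp (-(2 * |l₁|))) = L * T := by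
            rw [hL]; ring
          rw [e2, Real.mul_rpow hL0.le hT.le, Real.mul_rpow hc'0.le (by positivity),
            Real.inv_rpow (by positivity), Real.mul_rpow hh.le hT.le, mul_inv,
            ← Real.rpow_neg hh.le, ← Real.rpow_neg hT.le]
          have e3 : T ^ (1 - 2 * θ) = T ^ (1 - θ) * T ^ (-θ) := by
            rw [← Real.rpow_add hT]
            congr 1
            ring
          rw [e3]
          ring
        rw [e1]
        ring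

end Pool.Agent.K4H66.DF
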