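import Mathlib
import Pool.Agent.K4H66.DF.B8
set_option autoImplicit false

/-! Fractional regularity along the flow. -/

namespace Pool.Agent.K4H66.DF

open MeasureTheory Complex Set Filter Topology Metric
open scoped ENNReal NNReal ComplexConjugate
open Pool.Agent.R412.RT (ee ee_norm ee_add ee_conj ee_meas ee_cont)
open Pool.Agent.K4H66.RV (Ef pph Ef_meas pph_int Ef_add Ef_sub Ef_smul Ef_le)
open Pool.Agent.H438R2.PD.A3 (tsum_geo)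

theorem Ef_Ff (f : ℝ × ℝ → ℂ) (t : ℝ) (w : ℝ × ℝ) : Ef f (t, w) = Ff f (w.1, t) (w.2, 1 * t) := by
  unfold Ef Ff
  congr 1
  ext p
  congr 2
  unfold pph qph
  ring

/-- functions in `L^q` supported in a box are integrable -/
theorem box_int (q : ℝ) (hq : 1 < q) (R : ℝ) {f : ℝ × ℝ → ℂ} (hf : Measurable f)
    (hf0 : ∀ p, p ∉ Bx R → f p = 0) (hft : ∫⁻ p, ‖f p‖ₑ ^ q ≠ ∞) : Integrable f := by
  refine ⟨hf.aestronglyMeasurable, ?_⟩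
  have h1 : ∀ p, ‖f p‖ₑ ≤ (Bx R).indicator 1 p + ‖f p‖ₑ ^ q := by
    intro p
    by_cases hp : p ∈ Bx R
    · rw [indicator_of_mem hp, Pi.one_apply]
      rcases le_or_gt ‖f p‖ₑ 1 with h2 | h2
      · exact h2.trans le_self_add
      · refine le_trans ?_ le_add_self
        calc ‖f p‖ₑ = ‖f p‖ₑ ^ (1 : ℝ) := (ENNReal.rpow_one _).symm
          _ ≤ _ := ENNReal.rpow_le_rpow_of_exponent_le h2.le hq.le
    · rw [hf0 p hp, enorm_zero]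
      exact zero_le
  rw [hasFiniteIntegral_iff_enorm]
  calc ∫⁻ p, ‖f p‖ₑ ≤ ∫⁻ p, ((Bx R).indicator 1 p + ‖f p‖ₑ ^ q) := lintegral_mono h1
    _ = (∫⁻ p, (Bx R).indicator 1 p) + ∫⁻ p, ‖f p‖ₑ ^ q :=
        lintegral_add_left (measurable_one.indicator (Bx_meas R)) _
    _ < ∞ := by
        rw [lintegral_indicator_one (Bx_meas R)]
        exact ENNReal.add_lt_top.2 ⟨(Bx_ne R).lt_top, hft.lt_top⟩

theorem fl_box {l₁ l₂ s r : ℝ} (hs : s ∈ Icc (0 : ℝ) 1) {f : ℝ × ℝ → ℂ}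
    (hf0 : ∀ p, p ∉ Bx r → f p = 0) (p : ℝ × ℝ) (hp : p ∉ Bx (r * Real.exp (|l₁| + |l₂|))) :
    fl l₁ l₂ s f p = 0 := by
  refine hf0 _ fun h => hp ?_
  have hr : 0 ≤ r := by
    have := h.1.1.trans h.1.2
    linarith
  have key : ∀ l x : ℝ, |l| ≤ |l₁| + |l₂| → Real.exp (l * s) * x ∈ Icc (-r) r →
      x ∈ Icc (-(r * Real.exp (|l₁| + |l₂|))) (r * Real.exp (|l₁| + |l₂|)) := by
    intro l x hl hx
    have h1 : |Real.exp (l * s) * x| ≤ r := abs_le.2 hx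
    rw [abs_mul, abs_of_pos (Real.exp_pos _)] at h1
    have h2 : |l * s| ≤ |l₁| + |l₂| := by
      rw [abs_mul, abs_of_nonneg hs.1]
      exact (mul_le_of_le_one_right (abs_nonneg _) hs.2).trans hl
    have h3 : Real.exp (-(|l₁| + |l₂|)) ≤ Real.exp (l * s) :=
      Real.exp_le_exp.2 (neg_le_of_abs_le h2)
    refine abs_le.1 ?_
    have h4 : Real.exp (-(|l₁| + |l₂|)) * Real.exp (|l₁| + |l₂|) = 1 := by
      rw [← Real.exp_add, neg_add_cancel, Real.exp_zero]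
    calc |x| = (Real.exp (-(|l₁| + |l₂|)) * |x|) * Real.exp (|l₁| + |l₂|) := by
          rw [mul_right_comm, h4, one_mul]
      _ ≤ (Real.exp (l * s) * |x|) * Real.exp (|l₁| + |l₂|) := by gcongr
      _ ≤ r * Real.exp (|l₁| + |l₂|) := by gcongr
  exact ⟨key l₁ p.1 (le_add_of_nonneg_right (abs_nonneg _)) h.1,
    key l₂ p.2 (le_add_of_nonneg_left (abs_nonneg _)) h.2⟩

theorem box_mono {l₁ l₂ r : ℝ} {f : ℝ × ℝ → ℂ}
    (hf0 : ∀ p, p ∉ Bx r → f p = 0) (p : ℝ × ℝ) (hp : p ∉ Bx (r * Real.exp (|l₁| + |l₂|))) :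
    f p = 0 := by
  have h1 := fl_box (l₁ := l₁) (l₂ := l₂) (s := 0) ⟨le_rfl, zero_le_one⟩ hf0 p hp
  unfold fl dil at h1
  simpa using h1

theorem fl_norm (q : ℝ) (l₁ l₂ s : ℝ) {f : ℝ × ℝ → ℂ} (hf : Measurable f) :
    ∫⁻ p, ‖fl l₁ l₂ s f p‖ₑ ^ q = ENNReal.ofReal (Real.exp (-(l₁ * s))) *
      (ENNReal.ofReal (Real.exp (-(l₂ * s))) * ∫⁻ p, ‖f p‖ₑ ^ q) := by
  have h1 := lsc2 (Real.exp_ne_zero (l₁ * s)) (Real.exp_ne_zero (l₂ * s)) (fun p => ‖f p‖ₑ ^ q)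
    (hf.enorm.pow_const q)
  rw [abs_of_pos (by positivity), abs_of_pos (by positivity), ← Real.exp_neg, ← Real.exp_neg] at h1
  exact h1

theorem Efl_int {q : ℝ} (hq : 1 < q) {l₁ l₂ r : ℝ} {f : ℝ × ℝ → ℂ} (hf : Measurable f)
    (hf0 : ∀ p, p ∉ Bx r → f p = 0) (hft : ∫⁻ p, ‖f p‖ₑ ^ q ≠ ∞) (ω : ℝ × (ℝ × ℝ)) (a b : ℝ) :
    IntervalIntegrable (fun s => Ef (fl l₁ l₂ s f) ω) volume a b := by
  have hi := box_int q hq r hf hf0 hft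
  have h1 : ∀ s, ‖Ef (fl l₁ l₂ s f) ω‖ ≤ Real.exp (-(l₁ * s)) * Real.exp (-(l₂ * s)) *
      (∫⁻ p, ‖f p‖ₑ).toReal := by
    intro s
    have h2 := Ef_le (fl l₁ l₂ s f) ω
    have h3 := fl_norm 1 l₁ l₂ s hf
    simp only [ENNReal.rpow_one] at h3
    rw [h3, ← mul_assoc, ← ENNReal.ofReal_mul (by positivity)] at h2
    have h4 : ∫⁻ p, ‖f p‖ₑ ≠ ∞ := hi.2.ne
    have h5 := ENNReal.toReal_mono (ENNReal.mul_ne_top ENNReal.ofReal_ne_top h4) h2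
    rw [toReal_enorm, ENNReal.toReal_mul, ENNReal.toReal_ofReal (by positivity)] at h5
    exact h5
  have h2 : Continuous fun s : ℝ => Real.exp (-(l₁ * s)) * Real.exp (-(l₂ * s)) *
      (∫⁻ p, ‖f p‖ₑ).toReal := by fun_prop
  refine (h2.intervalIntegrable a b).mono_fun (Efl_meas1 l₁ l₂ f hf ω).aestronglyMeasurable ?_
  refine Eventually.of_forall fun s => ?_
  simp only
  rw [Real.norm_of_nonneg (by positivity)]
  exact h1 s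

/-- the increments -/
theorem Av_inc {q : ℝ} (hq : 1 < q) {l₁ l₂ r : ℝ} {f : ℝ × ℝ → ℂ} (hf : Measurable f)
    (hf0 : ∀ p, p ∉ Bx r → f p = 0) (hft : ∫⁻ p, ‖f p‖ₑ ^ q ≠ ∞)
    (hfl : ∀ s, Integrable (fl l₁ l₂ s f)) (h : ℝ) (hh : 0 < h) (ω : ℝ × (ℝ × ℝ)) :
    Av l₁ l₂ (h / 2) f ω - Av l₁ l₂ h f ω =
      Av l₁ l₂ (h / 2) (fun p => (1 / 2 : ℂ) * (f p - fl l₁ l₂ (h / 2) f p)) ω := by
  have hI := Efl_int hq (l₁ := l₁) (l₂ := l₂) hf hf0 hft ω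
  have h1 : ∀ s, Ef (fl l₁ l₂ s fun p => (1 / 2 : ℂ) * (f p - fl l₁ l₂ (h / 2) f p)) ω =
      (1 / 2 : ℂ) * (Ef (fl l₁ l₂ s f) ω - Ef (fl l₁ l₂ (s + h / 2) f) ω) := by
    intro s
    have e1 : (fl l₁ l₂ s fun p => (1 / 2 : ℂ) * (f p - fl l₁ l₂ (h / 2) f p)) =
        fun p => (1 / 2 : ℂ) * (fl l₁ l₂ s f p - fl l₁ l₂ (s + h / 2) f p) := by
      ext p
      rw [← fl_add]
      rfl
    rw [e1, Ef_smul, Ef_sub (hfl s) (hfl _)]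
  unfold Av
  simp_rw [h1]
  rw [intervalIntegral.integral_const_mul, intervalIntegral.integral_sub (hI _ _)
    (by
      have h2 := (hI (h / 2) h)
      have h3 := h2.comp_add_right (h / 2)
      have e : h - h / 2 = h / 2 := by ring
      rw [sub_self, e] at h3
      exact h3)]
  have h4 : ∫ s in (0 : ℝ)..(h / 2), Ef (fl l₁ l₂ (s + h / 2) f) ω =
      ∫ s in (h / 2)..h, Ef (fl l₁ l₂ s f) ω := by
    have h5 := intervalIntegral.integral_comp_add_right (a := 0) (b := h / 2)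
      (fun s => Ef (fl l₁ l₂ s f) ω) (h / 2)
    have e : h / 2 + h / 2 = h := by ring
    rw [zero_add, e] at h5
    exact h5
  have h6 : ∫ s in (0 : ℝ)..h, Ef (fl l₁ l₂ s f) ω = (∫ s in (0 : ℝ)..(h / 2), Ef (fl l₁ l₂ s f) ω) +
      ∫ s in (h / 2)..h, Ef (fl l₁ l₂ s f) ω :=
    (intervalIntegral.integral_add_adjacent_intervals (hI _ _) (hI _ _)).symm
  rw [h4, h6]
  have hhc : (h : ℂ) ≠ 0 := by exact_mod_cast hh.ne'
  push_cast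
  field_simp
  ring

/-- the last difference -/
theorem Av_end {q : ℝ} (hq : 1 < q) {l₁ l₂ r : ℝ} {f : ℝ × ℝ → ℂ} (hf : Measurable f)
    (hf0 : ∀ p, p ∉ Bx r → f p = 0) (hft : ∫⁻ p, ‖f p‖ₑ ^ q ≠ ∞) (hi : Integrable f)
    (hfl : ∀ s, Integrable (fl l₁ l₂ s f)) (h : ℝ) (hh : 0 < h) (ω : ℝ × (ℝ × ℝ)) :
    Ef f ω - Av l₁ l₂ h f ω =
      ((h⁻¹ : ℝ) : ℂ) * ∫ s in (0 : ℝ)..h, Ef (fun p => f p - fl l₁ l₂ s f p) ω := by
  have h1 : ∀ s, Ef (fun p => f p - fl l₁ l₂ s f p) ω = Ef f ω - Ef (fl l₁ l₂ s f) ω :=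
    fun s => Ef_sub hi (hfl s) ω
  simp_rw [h1]
  rw [intervalIntegral.integral_sub intervalIntegrable_const (Efl_int hq hf hf0 hft ω _ _),
    intervalIntegral.integral_const, sub_zero]
  unfold Av
  have hhc : (h : ℂ) ≠ 0 := by exact_mod_cast hh.ne'
  rw [Complex.real_smul]
  push_cast
  field_simp

theorem fl_int {q : ℝ} (hq : 1 < q) {l₁ l₂ r : ℝ} {f : ℝ × ℝ → ℂ} (hf : Measurable f)
    (hf0 : ∀ p, p ∉ Bx r → f p = 0) (hft : ∫⁻ p, ‖f p‖ₑ ^ q ≠ ∞) (s : ℝ) :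
    Integrable (fl l₁ l₂ s f) := by
  have hi := box_int q hq r hf hf0 hft
  refine ⟨(fl_meas hf).aestronglyMeasurable, ?_⟩
  rw [hasFiniteIntegral_iff_enorm]
  have h3 := fl_norm 1 l₁ l₂ s hf
  simp only [ENNReal.rpow_one] at h3
  rw [h3]
  exact ENNReal.mul_lt_top ENNReal.ofReal_lt_top (ENNReal.mul_lt_top ENNReal.ofReal_lt_top hi.2)

end Pool.Agent.K4H66.DF
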