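import Mathlib
import Pool.Agent.K4H66.DF.B9
set_option autoImplicit false

/-! Fractional regularity along the flow: the main estimate. -/

namespace Pool.Agent.K4H66.DF

open MeasureTheory Complex Set Filter Topology Metric
open scoped ENNReal NNReal ComplexConjugate
open Pool.Agent.R412.RT (ee ee_norm ee_add ee_conj ee_meas ee_cont)
open Pool.Agent.K4H66.RV (Ef pph Ef_meas pph_int Ef_add Ef_sub Ef_smul Ef_le)
open Pool.Agent.H438R2.PD.A3 (tsum_geo)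

theorem Eg_meas {X : Type*} [MeasurableSpace X] (g : ℝ → ℝ × ℝ → ℂ)
    (hg : Measurable (Function.uncurry g)) (a : X → ℝ) (ha : Measurable a)
    (b : X → ℝ × (ℝ × ℝ)) (hb : Measurable b) : Measurable fun x => Ef (g (a x)) (b x) := by
  have : StronglyMeasurable (Function.uncurry fun (x : X) (p : ℝ × ℝ) =>
      ee (pph (b x) p) * g (a x) p) := by
    refine Measurable.stronglyMeasurable (Measurable.mul (ee_meas.comp ?_) ?_)
    · unfold pph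
      fun_prop
    · exact hg.comp (by fun_prop : Measurable fun z : X × (ℝ × ℝ) => (a z.1, z.2))
  exact this.integral_prod_right.measurable

theorem swapavg (q : ℝ) (hq : 1 < q) (g : ℝ → ℝ × ℝ → ℂ) (hg : Measurable (Function.uncurry g))
    {h : ℝ} (hh : 0 < h) (Sh : Set ℝ) :
    ∫⁻ t in Sh, ∫⁻ w, ‖((h⁻¹ : ℝ) : ℂ) * ∫ s in (0 : ℝ)..h, Ef (g s) (t, w)‖ₑ ^ q ≤
      ∫⁻ s, (∫⁻ t in Sh, ∫⁻ w, ‖Ef (g s) (t, w)‖ₑ ^ q) ∂(mh h) := by
  have hm5 : ∀ t : ℝ, Measurable fun z : (ℝ × ℝ) × ℝ => ‖Ef (g z.2) (t, z.1)‖ₑ ^ q :=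
    fun t => (Eg_meas g hg _ measurable_snd _ (measurable_const.prodMk measurable_fst)).enorm.pow_const q
  have hm7 : Measurable fun y : (ℝ × ℝ) × (ℝ × ℝ) => ‖Ef (g y.1.2) (y.1.1, y.2)‖ₑ ^ q :=
    (Eg_meas g hg (fun y : (ℝ × ℝ) × (ℝ × ℝ) => y.1.2) (by fun_prop) (fun y => (y.1.1, y.2))
      (by fun_prop)).enorm.pow_const q
  have hm6 : Measurable fun z : ℝ × ℝ => ∫⁻ w : ℝ × ℝ, ‖Ef (g z.2) (z.1, w)‖ₑ ^ q :=
    hm7.lintegral_prod_right'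
  calc ∫⁻ t in Sh, ∫⁻ w, ‖((h⁻¹ : ℝ) : ℂ) * ∫ s in (0 : ℝ)..h, Ef (g s) (t, w)‖ₑ ^ q
      ≤ ∫⁻ t in Sh, ∫⁻ w, ∫⁻ s, ‖Ef (g s) (t, w)‖ₑ ^ q ∂(mh h) := by
        refine lintegral_mono fun t => lintegral_mono fun w => ?_
        exact avg_le q hq hh _ (Eg_meas g hg _ measurable_id _ measurable_const)
    _ = ∫⁻ t in Sh, ∫⁻ s, (∫⁻ w, ‖Ef (g s) (t, w)‖ₑ ^ q) ∂(mh h) := by
        refine lintegral_congr fun t => ?_
        rw [lintegral_lintegral_swap]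
        exact (hm5 t).aemeasurable
    _ = ∫⁻ s, (∫⁻ t in Sh, ∫⁻ w, ‖Ef (g s) (t, w)‖ₑ ^ q) ∂(mh h) := by
        rw [lintegral_lintegral_swap]
        exact hm6.aemeasurable

theorem Nq_one (q : ℝ) (f : ℝ × ℝ → ℂ) (Sh : Set ℝ) :
    ∫⁻ t in Sh, ∫⁻ w, ‖Ef f (t, w)‖ₑ ^ q = Nq q 1 f Sh := by
  unfold Nq
  refine lintegral_congr fun t => lintegral_congr fun w => ?_
  rw [Ef_Ff]

theorem sub_fl_meas (l₁ l₂ : ℝ) {f : ℝ × ℝ → ℂ} (hf : Measurable f) :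
    Measurable (Function.uncurry fun (s : ℝ) (p : ℝ × ℝ) => f p - fl l₁ l₂ s f p) := by
  refine (hf.comp measurable_snd).sub ?_
  unfold fl dil
  exact hf.comp (by fun_prop)

/-- the last difference -/
theorem C2 (q θ : ℝ) (hθ0 : 0 < θ) (hθ1 : θ < 1) (hθ2 : 2 * θ < q - 2) (r : ℝ) (hr : 0 < r)
    (l₁ l₂ : ℝ) : ∃ C : ℝ≥0∞, C ≠ ∞ ∧ ∀ (T h : ℝ) (D : ℝ≥0∞), 0 < T → 0 < h → h ≤ 1 → D ≠ ∞ →
    ∀ f : ℝ × ℝ → ℂ, Measurable f → (∀ p, p ∉ Bx r → f p = 0) → ∫⁻ p, ‖f p‖ₑ ^ q ≠ ∞ →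
    (∀ s ∈ Ioc (0 : ℝ) h, ∫⁻ p, ‖f p - fl l₁ l₂ s f p‖ₑ ^ q ≤ D) →
    ∫⁻ t in Shell T, ∫⁻ w, ‖Ef f (t, w) - Av l₁ l₂ h f (t, w)‖ₑ ^ q ≤
      C * ENNReal.ofReal (T ^ (1 - θ)) * D := by
  set R := r * Real.exp (|l₁| + |l₂|) with hR
  have hR0 : 0 < R := by positivity
  obtain ⟨C, hC, hD⟩ := WD q θ hθ0 hθ1 hθ2 R hR0
  refine ⟨C * ENNReal.ofReal (2 ^ (1 - θ)), ENNReal.mul_ne_top hC ENNReal.ofReal_ne_top, ?_⟩
  intro T h D hT hh hh1 hDt f hf hf0 hft hreg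
  have hq : 1 < q := by linarith
  have hi := box_int q hq r hf hf0 hft
  have hfl := fl_int hq (l₁ := l₁) (l₂ := l₂) hf hf0 hft
  simp_rw [Av_end hq hf hf0 hft hi hfl h hh]
  refine (swapavg q hq (fun s p => f p - fl l₁ l₂ s f p) (sub_fl_meas l₁ l₂ hf) hh _).trans ?_
  have hae : ∀ᵐ s ∂(mh h), s ∈ Ioc 0 h := by
    unfold mh
    exact Measure.ae_smul_measure (ae_restrict_mem measurableSet_Ioc) _
  have hbd : ∀ s ∈ Ioc (0 : ℝ) h, ∫⁻ t in Shell T, ∫⁻ w,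
      ‖Ef (fun p => f p - fl l₁ l₂ s f p) (t, w)‖ₑ ^ q ≤
      C * ENNReal.ofReal (2 ^ (1 - θ)) * ENNReal.ofReal (T ^ (1 - θ)) * D := by
    intro s hs
    have hs1 : s ∈ Icc (0 : ℝ) 1 := ⟨hs.1.le, hs.2.trans hh1⟩
    rw [Nq_one]
    have h1 := hD T 2 hT (Shell T) (Shell_meas T) (fun t ht => ht.1) (Shell_vol hT) 1
      (fun p => f p - fl l₁ l₂ s f p) (hf.sub (fl_meas hf)) (fun p hp => by
        rw [box_mono hf0 p hp, fl_box hs1 hf0 p hp, sub_zero])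
      (ne_top_of_le_ne_top hDt (hreg s hs))
    refine h1.trans ?_
    rw [ENNReal.ofReal_rpow_of_pos (by positivity), Real.mul_rpow (by norm_num) hT.le,
      ENNReal.ofReal_mul (by positivity), ← mul_assoc]
    exact mul_le_mul_right (hreg s hs) _
  calc ∫⁻ s, (∫⁻ t in Shell T, ∫⁻ w, ‖Ef (fun p => f p - fl l₁ l₂ s f p) (t, w)‖ₑ ^ q) ∂(mh h)
      ≤ ∫⁻ _, C * ENNReal.ofReal (2 ^ (1 - θ)) * ENNReal.ofReal (T ^ (1 - θ)) * D ∂(mh h) := by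
        refine lintegral_mono_ae ?_
        filter_upwards [hae] with s hs
        exact hbd s hs
    _ = _ := by rw [lintegral_const, mh_univ hh, mul_one]

/-- the norm over a shell -/
noncomputable def nS (q T : ℝ) (G : ℝ × (ℝ × ℝ) → ℂ) : ℝ≥0∞ :=
  eLpNorm G (ENNReal.ofReal q) ((volume.restrict (Shell T)).prod volume)

theorem nS_eq (q : ℝ) (hq : 1 < q) (T : ℝ) (G : ℝ × (ℝ × ℝ) → ℂ) (hG : Measurable G) :
    nS q T G = (∫⁻ t in Shell T, ∫⁻ w, ‖G (t, w)‖ₑ ^ q) ^ (1 / q) := by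
  unfold nS
  rw [eLpNorm_eq_lintegral_rpow_enorm_toReal (by simp; linarith) ENNReal.ofReal_ne_top,
    ENNReal.toReal_ofReal (by linarith), lintegral_prod _ (hG.enorm.pow_const q).aemeasurable]

theorem one_le_ofReal {q : ℝ} (hq : 1 < q) : (1 : ℝ≥0∞) ≤ ENNReal.ofReal q := by
  rw [← ENNReal.ofReal_one]
  exact ENNReal.ofReal_le_ofReal hq.le

theorem nS_add (q : ℝ) (hq : 1 < q) (T : ℝ) (G H : ℝ × (ℝ × ℝ) → ℂ) (hG : Measurable G)
    (hH : Measurable H) : nS q T (fun ω => G ω + H ω) ≤ nS q T G + nS q T H :=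
  eLpNorm_add_le hG.aestronglyMeasurable hH.aestronglyMeasurable (one_le_ofReal hq)

theorem nS_sum (q : ℝ) (hq : 1 < q) (T : ℝ) (n : ℕ) (G : ℕ → ℝ × (ℝ × ℝ) → ℂ)
    (hG : ∀ j, Measurable (G j)) : nS q T (fun ω => ∑ j ∈ Finset.range n, G j ω) ≤
      ∑ j ∈ Finset.range n, nS q T (G j) := by
  have h1 := eLpNorm_sum_le (μ := (volume.restrict (Shell T)).prod (volume : Measure (ℝ × ℝ)))
    (s := Finset.range n) (f := G) (fun j _ => (hG j).aestronglyMeasurable) (one_le_ofReal hq)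
  have h2 : (∑ j ∈ Finset.range n, G j) = fun ω => ∑ j ∈ Finset.range n, G j ω := by
    ext ω
    rw [Finset.sum_apply]
  rw [h2] at h1
  exact h1

theorem geo_le (ρ : ℝ) (hρ : 1 < ρ) (k : ℕ) :
    ∑ j ∈ Finset.range k, ρ ^ (j + 1) ≤ ρ / (ρ - 1) * ρ ^ k := by
  induction k with
  | zero =>
    rw [Finset.sum_range_zero, pow_zero, mul_one]
    exact div_nonneg (by linarith) (by linarith)
  | succ k ih =>
    rw [Finset.sum_range_succ]
    have h1 : ρ - 1 ≠ 0 := by linarith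
    have h2 : ρ / (ρ - 1) * ρ ^ (k + 1) = ρ / (ρ - 1) * ρ ^ k + ρ ^ (k + 1) := by
      rw [pow_succ]
      field_simp
      ring
    rw [h2]
    linarith

/-- one shell -/
theorem shell_reg (q σ θ : ℝ) (hθ0 : 0 < θ) (hθ1 : θ < 1) (hθ2 : 2 * θ < q - 2)
    (hσ : 0 < σ) (he : σ * q < θ) (r : ℝ) (hr : 0 < r)
    (l₁ l₂ : ℝ) (hl : l₁ ≠ l₂) : ∃ C : ℝ≥0∞, C ≠ ∞ ∧ ∀ (K : ℝ≥0∞), K ≠ ∞ → ∀ k : ℕ,
    ∀ f : ℝ × ℝ → ℂ, Measurable f → (∀ p, p ∉ Bx r → f p = 0) → ∫⁻ p, ‖f p‖ₑ ^ q ≠ ∞ →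
    (∀ s ∈ Icc (0 : ℝ) 1, ∫⁻ p, ‖f p - fl l₁ l₂ s f p‖ₑ ^ q ≤ K * ENNReal.ofReal (s ^ (σ * q))) →
    Nq q 1 f (Shell (2 ^ k)) ≤ C * ((∫⁻ p, ‖f p‖ₑ ^ q) + K) *
      ENNReal.ofReal (((2 : ℝ) ^ (1 - θ - σ * q)) ^ k) := by
  set R := r * Real.exp (|l₁| + |l₂|) with hR
  have hR0 : 0 < R := by positivity
  have hq : 1 < q := by linarith
  have hq0 : 0 < q := by linarith
  obtain ⟨C1', hC1, h1⟩ := C1 q θ hθ0 hθ1 hθ2 R hR0 l₁ l₂ hl
  obtain ⟨C2', hC2, h2⟩ := C2 q θ hθ0 hθ1 hθ2 r hr l₁ l₂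
  set Cm := C1' + C2' with hCm
  have hCmt : Cm ≠ ∞ := ENNReal.add_ne_top.2 ⟨hC1, hC2⟩
  set e : ℝ := θ - σ * q with hee
  have he0 : 0 < e := by linarith
  set ρ : ℝ := (2 : ℝ) ^ (e / q) with hρ
  have hρ1 : 1 < ρ := Real.one_lt_rpow (by norm_num) (by positivity)
  set c : ℝ := 1 + ρ / (ρ - 1) + 1 with hc
  have hc0 : 0 < c := by
    have : 0 < ρ / (ρ - 1) := div_pos (by linarith) (by linarith)
    positivity
  refine ⟨Cm * ENNReal.ofReal (c ^ q), ENNReal.mul_ne_top hCmt ENNReal.ofReal_ne_top, ?_⟩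
  intro K hK k f hf hf0 hft hreg
  set F := ∫⁻ p, ‖f p‖ₑ ^ q with hF
  have hi := box_int q hq r hf hf0 hft
  have hfl := fl_int hq (l₁ := l₁) (l₂ := l₂) hf hf0 hft
  have h20 : (0 : ℝ) < 2 := by norm_num
  set T : ℝ := 2 ^ k with hT
  have hT0 : 0 < T := by positivity
  set X : ℝ≥0∞ := (Cm * (F + K)) ^ (1 / q) with hX
  have hAm : ∀ h : ℝ, 0 < h → Measurable (Av l₁ l₂ h f) := fun h hh => Av_meas l₁ l₂ h hh f hf
  have hEm : Measurable (Ef f) := Ef_meas f hf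
  -- first term
  have t0 : nS q T (Av l₁ l₂ 1 f) ≤ X * ENNReal.ofReal ((2 : ℝ) ^ ((k : ℝ) * (1 - θ - σ * q) / q)) := by
    rw [nS_eq q hq T _ (hAm 1 one_pos)]
    have h3 := h1 T 1 hT0 one_pos le_rfl f hf (box_mono hf0) hft
    refine (ENNReal.rpow_le_rpow h3 (by positivity)).trans ?_
    have h4 : ENNReal.ofReal ((2 : ℝ) ^ ((k : ℝ) * (1 - θ - σ * q) / q)) =
        ENNReal.ofReal ((2 : ℝ) ^ ((k : ℝ) * (1 - θ - σ * q))) ^ (1 / q) := by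
      rw [ENNReal.ofReal_rpow_of_pos (by positivity), ← Real.rpow_mul h20.le]
      congr 2
      ring
    rw [h4, hX, ← ENNReal.mul_rpow_of_nonneg _ _ (by positivity)]
    refine ENNReal.rpow_le_rpow ?_ (by positivity)
    have h5 : T ^ (1 - 2 * θ) * 1 ^ (-θ) ≤ (2 : ℝ) ^ ((k : ℝ) * (1 - θ - σ * q)) := by
      rw [Real.one_rpow, mul_one, hT, ← Real.rpow_natCast, ← Real.rpow_mul h20.le]
      refine Real.rpow_le_rpow_of_exponent_le (by norm_num) ?_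
      have : (0 : ℝ) ≤ k := Nat.cast_nonneg k
      nlinarith
    calc C1' * ENNReal.ofReal (T ^ (1 - 2 * θ) * 1 ^ (-θ)) * F
        ≤ Cm * ENNReal.ofReal ((2 : ℝ) ^ ((k : ℝ) * (1 - θ - σ * q))) * (F + K) := by
          refine mul_le_mul (mul_le_mul le_self_add (ENNReal.ofReal_le_ofReal h5) zero_le zero_le)
            le_self_add zero_le zero_le
      _ = _ := by ring
  -- increments
  have tj : ∀ j : ℕ, nS q T (fun ω => Av l₁ l₂ ((1 / 2) ^ (j + 1)) f ω - Av l₁ l₂ ((1 / 2) ^ j) f ω) ≤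
      X * ENNReal.ofReal ((2 : ℝ) ^ ((k : ℝ) * (1 - 2 * θ) / q) * ρ ^ (j + 1)) := by
    intro j
    set h : ℝ := (1 / 2) ^ (j + 1) with hh
    have hh0 : 0 < h := by positivity
    have hh1 : h ≤ 1 := pow_le_one₀ (by norm_num) (by norm_num)
    have hh2 : (1 / 2 : ℝ) ^ j = 2 * h := by rw [hh, pow_succ]; ring
    set g : ℝ × ℝ → ℂ := fun p => (1 / 2 : ℂ) * (f p - fl l₁ l₂ h f p) with hg
    have hgm : Measurable g := (hf.sub (fl_meas hf)).const_mul _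
    have e1 : (fun ω => Av l₁ l₂ h f ω - Av l₁ l₂ ((1 / 2) ^ j) f ω) = Av l₁ l₂ h g := by
      ext ω
      have h3 := Av_inc hq (l₁ := l₁) (l₂ := l₂) hf hf0 hft hfl (2 * h) (by positivity) ω
      rw [show 2 * h / 2 = h by ring] at h3
      rw [hh2, h3]
    rw [e1, nS_eq q hq T _ (Av_meas l₁ l₂ h hh0 g hgm)]
    have hgn : ∫⁻ p, ‖g p‖ₑ ^ q ≤ K * ENNReal.ofReal (h ^ (σ * q)) := by
      refine le_trans (lintegral_mono fun p => ?_) (hreg h ⟨hh0.le, hh1⟩)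
      refine ENNReal.rpow_le_rpow ?_ hq0.le
      simp only [hg]
      rw [enorm_mul]
      have h5 : ‖(1 / 2 : ℂ)‖ₑ ≤ 1 := by
        rw [← ofReal_norm, ← ENNReal.ofReal_one]
        refine ENNReal.ofReal_le_ofReal ?_
        norm_num
      calc ‖(1 / 2 : ℂ)‖ₑ * ‖f p - fl l₁ l₂ h f p‖ₑ ≤ 1 * ‖f p - fl l₁ l₂ h f p‖ₑ :=
            mul_le_mul_left h5 _
        _ = _ := one_mul _
    have h3 := h1 T h hT0 hh0 hh1 g hgm (fun p hp => by
      simp only [hg]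
      rw [box_mono hf0 p hp, fl_box ⟨hh0.le, hh1⟩ hf0 p hp, sub_zero, mul_zero])
      (ne_top_of_le_ne_top (ENNReal.mul_ne_top hK ENNReal.ofReal_ne_top) hgn)
    refine (ENNReal.rpow_le_rpow h3 (by positivity)).trans ?_
    have h4 : ENNReal.ofReal ((2 : ℝ) ^ ((k : ℝ) * (1 - 2 * θ) / q) * ρ ^ (j + 1)) =
        ENNReal.ofReal ((2 : ℝ) ^ ((k : ℝ) * (1 - 2 * θ) + ((j + 1 : ℕ) : ℝ) * e)) ^ (1 / q) := by
      rw [ENNReal.ofReal_rpow_of_pos (by positivity), ← Real.rpow_mul h20.le]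
      congr 1
      rw [hρ, ← Real.rpow_natCast, ← Real.rpow_mul h20.le, ← Real.rpow_add h20]
      congr 1
      field_simp
    rw [h4, hX, ← ENNReal.mul_rpow_of_nonneg _ _ (by positivity)]
    refine ENNReal.rpow_le_rpow ?_ (by positivity)
    have h5 : T ^ (1 - 2 * θ) * h ^ (-θ) * h ^ (σ * q) =
        (2 : ℝ) ^ ((k : ℝ) * (1 - 2 * θ) + ((j + 1 : ℕ) : ℝ) * e) := by
      rw [mul_assoc, ← Real.rpow_add hh0, hT, hh, one_div, inv_pow, Real.inv_rpow (by positivity),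
        ← Real.rpow_neg (by positivity), ← Real.rpow_natCast, ← Real.rpow_natCast,
        ← Real.rpow_mul h20.le, ← Real.rpow_mul h20.le, ← Real.rpow_add h20]
      congr 1
      rw [hee]
      ring
    calc C1' * ENNReal.ofReal (T ^ (1 - 2 * θ) * h ^ (-θ)) * ∫⁻ p, ‖g p‖ₑ ^ q
        ≤ C1' * ENNReal.ofReal (T ^ (1 - 2 * θ) * h ^ (-θ)) * (K * ENNReal.ofReal (h ^ (σ * q))) :=
          mul_le_mul_right hgn _
      _ = C1' * K * ENNReal.ofReal (T ^ (1 - 2 * θ) * h ^ (-θ) * h ^ (σ * q)) := by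
          rw [ENNReal.ofReal_mul (by positivity : 0 ≤ T ^ (1 - 2 * θ) * h ^ (-θ))]
          ring
      _ ≤ _ := by
          rw [h5]
          refine mul_le_mul_left (mul_le_mul le_self_add le_add_self zero_le zero_le) _
  -- last term
  have tl : nS q T (fun ω => Ef f ω - Av l₁ l₂ ((1 / 2) ^ k) f ω) ≤
      X * ENNReal.ofReal ((2 : ℝ) ^ ((k : ℝ) * (1 - θ - σ * q) / q)) := by
    set h : ℝ := (1 / 2) ^ k with hh
    have hh0 : 0 < h := by positivity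
    have hh1 : h ≤ 1 := pow_le_one₀ (by norm_num) (by norm_num)
    have hml : Measurable fun ω => Ef f ω - Av l₁ l₂ h f ω := hEm.sub (hAm h hh0)
    rw [nS_eq q hq T _ hml]
    have h3 := h2 T h (K * ENNReal.ofReal (h ^ (σ * q))) hT0 hh0 hh1
      (ENNReal.mul_ne_top hK ENNReal.ofReal_ne_top) f hf hf0 hft (fun s hs => by
        refine (hreg s ⟨hs.1.le, hs.2.trans hh1⟩).trans (mul_le_mul_right ?_ _)
        refine ENNReal.ofReal_le_ofReal ?_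
        exact Real.rpow_le_rpow hs.1.le hs.2 (by positivity))
    refine (ENNReal.rpow_le_rpow h3 (by positivity)).trans ?_
    have h4 : ENNReal.ofReal ((2 : ℝ) ^ ((k : ℝ) * (1 - θ - σ * q) / q)) =
        ENNReal.ofReal ((2 : ℝ) ^ ((k : ℝ) * (1 - θ - σ * q))) ^ (1 / q) := by
      rw [ENNReal.ofReal_rpow_of_pos (by positivity), ← Real.rpow_mul h20.le]
      congr 2
      ring
    rw [h4, hX, ← ENNReal.mul_rpow_of_nonneg _ _ (by positivity)]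
    refine ENNReal.rpow_le_rpow ?_ (by positivity)
    have h5 : T ^ (1 - θ) * h ^ (σ * q) = (2 : ℝ) ^ ((k : ℝ) * (1 - θ - σ * q)) := by
      rw [hT, hh, one_div, inv_pow, Real.inv_rpow (by positivity),
        ← Real.rpow_neg (by positivity), ← Real.rpow_natCast,
        ← Real.rpow_mul h20.le, ← Real.rpow_mul h20.le, ← Real.rpow_add h20]
      congr 1
      ring
    calc C2' * ENNReal.ofReal (T ^ (1 - θ)) * (K * ENNReal.ofReal (h ^ (σ * q)))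
        = C2' * K * ENNReal.ofReal (T ^ (1 - θ) * h ^ (σ * q)) := by
          rw [ENNReal.ofReal_mul (by positivity)]
          ring
      _ ≤ _ := by
          rw [h5]
          refine mul_le_mul_left (mul_le_mul le_add_self le_add_self zero_le zero_le) _
  -- telescoping
  set G : ℕ → ℝ × (ℝ × ℝ) → ℂ := fun j ω =>
    Av l₁ l₂ ((1 / 2) ^ (j + 1)) f ω - Av l₁ l₂ ((1 / 2) ^ j) f ω with hG
  set H : ℝ × (ℝ × ℝ) → ℂ := fun ω => Ef f ω - Av l₁ l₂ ((1 / 2) ^ k) f ω with hH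
  have hmj : ∀ j : ℕ, Measurable (G j) := fun j =>
    (hAm _ (by positivity)).sub (hAm _ (by positivity))
  have hml : Measurable H := hEm.sub (hAm _ (by positivity))
  have hms : Measurable fun ω => ∑ j ∈ Finset.range k, G j ω :=
    Finset.measurable_sum _ fun j _ => hmj j
  have hm2 : Measurable fun ω => H ω + ∑ j ∈ Finset.range k, G j ω := hml.add hms
  have htel : Ef f = fun ω => (H ω + ∑ j ∈ Finset.range k, G j ω) + Av l₁ l₂ 1 f ω := by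
    ext ω
    simp only [hG, hH]
    rw [Finset.sum_range_sub (fun j => Av l₁ l₂ ((1 / 2) ^ j) f ω) k, pow_zero]
    ring
  have hsum : nS q T (Ef f) ≤ X * ENNReal.ofReal (c * (2 : ℝ) ^ ((k : ℝ) * (1 - θ - σ * q) / q)) := by
    rw [htel]
    refine (nS_add q hq T _ _ hm2 (hAm 1 one_pos)).trans ?_
    refine (add_le_add (nS_add q hq T _ _ hml hms) le_rfl).trans ?_
    refine (add_le_add (add_le_add tl (nS_sum q hq T k G hmj)) t0).trans ?_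
    have h6 : ∑ j ∈ Finset.range k, nS q T (G j) ≤
        X * ENNReal.ofReal (ρ / (ρ - 1) * (2 : ℝ) ^ ((k : ℝ) * (1 - θ - σ * q) / q)) := by
      calc ∑ j ∈ Finset.range k, nS q T (G j)
          ≤ ∑ j ∈ Finset.range k, X * ENNReal.ofReal ((2 : ℝ) ^ ((k : ℝ) * (1 - 2 * θ) / q) *
            ρ ^ (j + 1)) := Finset.sum_le_sum fun j _ => tj j
        _ = X * ENNReal.ofReal ((2 : ℝ) ^ ((k : ℝ) * (1 - 2 * θ) / q) *
            ∑ j ∈ Finset.range k, ρ ^ (j + 1)) := by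
            rw [Finset.mul_sum (Finset.range k) (fun j => ρ ^ (j + 1)),
              ENNReal.ofReal_sum_of_nonneg (fun j _ => by positivity), Finset.mul_sum]
        _ ≤ _ := by
            refine mul_le_mul_right (ENNReal.ofReal_le_ofReal ?_) _
            calc (2 : ℝ) ^ ((k : ℝ) * (1 - 2 * θ) / q) * ∑ j ∈ Finset.range k, ρ ^ (j + 1)
                ≤ (2 : ℝ) ^ ((k : ℝ) * (1 - 2 * θ) / q) * (ρ / (ρ - 1) * ρ ^ k) := by
                  gcongr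
                  exact geo_le ρ hρ1 k
              _ = ρ / (ρ - 1) * ((2 : ℝ) ^ ((k : ℝ) * (1 - 2 * θ) / q) * ρ ^ k) := by ring
              _ = _ := by
                  congr 1
                  rw [hρ, ← Real.rpow_natCast, ← Real.rpow_mul h20.le, ← Real.rpow_add h20]
                  congr 1
                  rw [hee]
                  field_simp
                  ring
    refine (add_le_add (add_le_add le_rfl h6) le_rfl).trans (le_of_eq ?_)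
    rw [← mul_add, ← mul_add, ← ENNReal.ofReal_add (by positivity) (by
      have : 0 < ρ / (ρ - 1) := div_pos (by linarith) (by linarith)
      positivity), ← ENNReal.ofReal_add (by
      have : 0 < ρ / (ρ - 1) := div_pos (by linarith) (by linarith)
      positivity) (by positivity)]
    congr 2
    rw [hc]
    ring
  rw [nS_eq q hq T _ hEm, Nq_one] at hsum
  have h7 := ENNReal.rpow_le_rpow hsum hq0.le
  rw [← ENNReal.rpow_mul, one_div_mul_cancel hq0.ne', ENNReal.rpow_one,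
    ENNReal.mul_rpow_of_nonneg _ _ hq0.le, hX, ← ENNReal.rpow_mul, one_div_mul_cancel hq0.ne',
    ENNReal.rpow_one, ENNReal.ofReal_rpow_of_pos (by positivity),
    Real.mul_rpow hc0.le (by positivity), ← Real.rpow_mul h20.le,
    ENNReal.ofReal_mul (by positivity)] at h7
  refine h7.trans (le_of_eq ?_)
  have h8 : (2 : ℝ) ^ ((k : ℝ) * (1 - θ - σ * q) / q * q) = ((2 : ℝ) ^ (1 - θ - σ * q)) ^ k := by
    rw [← Real.rpow_natCast, ← Real.rpow_mul h20.le]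
    congr 1
    field_simp
  rw [h8]
  ring

/-- fractional regularity along the flow -/
theorem TC0 (q σ : ℝ) (hq3 : 3 < q) (hσ : 0 < σ) (hσ1 : 4 - q < 2 * (σ * q)) (hσ2 : σ * q ≤ 1 / 2)
    (r : ℝ) (hr : 0 < r) (l₁ l₂ : ℝ) (hl : l₁ ≠ l₂) : ∃ C : ℝ≥0∞, C ≠ ∞ ∧ ∀ (K : ℝ≥0∞), K ≠ ∞ →
    ∀ f : ℝ × ℝ → ℂ, Measurable f → (∀ p, p ∉ Bx r → f p = 0) → ∫⁻ p, ‖f p‖ₑ ^ q ≠ ∞ →
    (∀ s ∈ Icc (0 : ℝ) 1, ∫⁻ p, ‖f p - fl l₁ l₂ s f p‖ₑ ^ q ≤ K * ENNReal.ofReal (s ^ (σ * q))) →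
    Nq q 1 f univ ≤ C * ((∫⁻ p, ‖f p‖ₑ ^ q) + K) := by
  obtain ⟨θ, h1, h2, h3⟩ : ∃ θ : ℝ, 1 - σ * q < θ ∧ θ < 1 ∧ 2 * θ < q - 2 := by
    have h4 : 1 - σ * q < min 1 ((q - 2) / 2) := by
      refine lt_min ?_ ?_
      · have : 0 < σ * q := by positivity
        linarith
      · linarith
    obtain ⟨θ, h5, h6⟩ := exists_between h4
    exact ⟨θ, h5, h6.trans_le (min_le_left _ _), by
      have := h6.trans_le (min_le_right _ _)
      linarith⟩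
  have hθ0 : 0 < θ := by linarith
  obtain ⟨C, hC, hS⟩ := shell_reg q σ θ hθ0 h2 h3 hσ (by linarith) r hr l₁ l₂ hl
  obtain ⟨C', hC', hL⟩ := low_sum q θ hθ0 h2 h3 r hr
  set ρ : ℝ := (2 : ℝ) ^ (1 - θ - σ * q) with hρ
  have hρ0 : 0 < ρ := Real.rpow_pos_of_pos (by norm_num) _
  have hρ1 : ρ < 1 := Real.rpow_lt_one_of_one_lt_of_neg (by norm_num) (by linarith)
  refine ⟨C * ENNReal.ofReal ((1 - ρ)⁻¹) + C', ENNReal.add_ne_top.2
    ⟨ENNReal.mul_ne_top hC ENNReal.ofReal_ne_top, hC'⟩, ?_⟩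
  intro K hK f hf hf0 hft hreg
  refine (tot_le q 1 f).trans ?_
  have h4 := hL (Measure.dirac 1) (by simp) f hf hf0 hft
  rw [lintegral_dirac' _ (Measurable.tsum fun k => Nq_meas q f hf _)] at h4
  have h5 : ∑' k : ℕ, Nq q 1 f (Shell (2 ^ k)) ≤
      C * ENNReal.ofReal ((1 - ρ)⁻¹) * ((∫⁻ p, ‖f p‖ₑ ^ q) + K) := by
    refine (ENNReal.tsum_le_tsum fun k => hS K hK k f hf hf0 hft hreg).trans (le_of_eq ?_)
    rw [ENNReal.tsum_mul_left, tsum_geo ρ hρ0.le hρ1]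
    ring
  have h6 : C' * (∫⁻ p, ‖f p‖ₑ ^ q) ≤ C' * ((∫⁻ p, ‖f p‖ₑ ^ q) + K) :=
    mul_le_mul_right le_self_add _
  refine (add_le_add h5 (h4.trans h6)).trans (le_of_eq ?_)
  ring

/-- fractional regularity along the flow -/
theorem TC (q σ : ℝ) (hq3 : 3 < q) (hσ : 0 < σ) (hσ1 : 4 - q < 2 * (σ * q))
    (r : ℝ) (hr : 0 < r) (l₁ l₂ : ℝ) (hl : l₁ ≠ l₂) : ∃ C : ℝ≥0∞, C ≠ ∞ ∧ ∀ (K : ℝ≥0∞), K ≠ ∞ →
    ∀ f : ℝ × ℝ → ℂ, Measurable f → (∀ p, p ∉ Bx r → f p = 0) → ∫⁻ p, ‖f p‖ₑ ^ q ≠ ∞ →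
    (∀ s ∈ Icc (0 : ℝ) 1, ∫⁻ p, ‖f p - fl l₁ l₂ s f p‖ₑ ^ q ≤ K * ENNReal.ofReal (s ^ (σ * q))) →
    Nq q 1 f univ ≤ C * ((∫⁻ p, ‖f p‖ₑ ^ q) + K) := by
  have hq0 : 0 < q := by linarith
  set σ' : ℝ := min σ (1 / (2 * q)) with hσ'
  have h0 : 0 < σ' := lt_min hσ (by positivity)
  have h1 : 4 - q < 2 * (σ' * q) := by
    rcases min_cases σ (1 / (2 * q)) with ⟨h, -⟩ | ⟨h, -⟩
    · rw [hσ', h]
      exact hσ1
    · rw [hσ', h]
      have : 1 / (2 * q) * q = 1 / 2 := by field_simp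
      rw [this]
      linarith
  have h2 : σ' * q ≤ 1 / 2 := by
    have h3 : σ' * q ≤ 1 / (2 * q) * q := mul_le_mul_of_nonneg_right (min_le_right _ _) hq0.le
    refine h3.trans (le_of_eq ?_)
    field_simp
  obtain ⟨C, hC, hT⟩ := TC0 q σ' hq3 h0 h1 h2 r hr l₁ l₂ hl
  refine ⟨C, hC, ?_⟩
  intro K hK f hf hf0 hft hreg
  refine hT K hK f hf hf0 hft fun s hs => (hreg s hs).trans (mul_le_mul_right ?_ _)
  refine ENNReal.ofReal_le_ofReal ?_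
  rcases eq_or_lt_of_le hs.1 with h3 | h3
  · rw [← h3, Real.zero_rpow (by positivity), Real.zero_rpow (by positivity)]
  · refine Real.rpow_le_rpow_of_exponent_ge h3 hs.2 ?_
    exact mul_le_mul_of_nonneg_right (min_le_left _ _) hq0.le

end Pool.Agent.K4H66.DF
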