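import Mathlib
import Pool.Agent.K4H66.DF.B10
set_option autoImplicit false

/-! Fractional regularity in one direction. -/

namespace Pool.Agent.K4H66.DF

open MeasureTheory Complex Set Filter Topology Metric
open scoped ENNReal NNReal ComplexConjugate
open Pool.Agent.R412.RT (ee ee_norm ee_add ee_conj ee_meas ee_cont)
open Pool.Agent.K4H66.RV (Ef pph Ef_meas pph_int Ef_add Ef_sub Ef_smul Ef_le)
open Pool.Agent.H438R2.PD.A3 (tsum_geo)

/-- the difference in the second direction -/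
noncomputable def dq (q : ℝ) (F : ℝ × ℝ → ℂ) (u : ℝ) : ℝ≥0∞ :=
  ∫⁻ p : ℝ × ℝ, ‖F (p.1, p.2 + u) - F p‖ₑ ^ q

theorem shift_lint (G : ℝ × ℝ → ℝ≥0∞) (u : ℝ) :
    ∫⁻ p : ℝ × ℝ, G (p.1, p.2 + u) = ∫⁻ p, G p := by
  have h1 := lintegral_add_right_eq_self (μ := (volume : Measure (ℝ × ℝ))) G ((0 : ℝ), u)
  rw [← h1]
  refine lintegral_congr fun p => ?_
  congr 1
  ext <;> simp

theorem dq_neg (q : ℝ) (F : ℝ × ℝ → ℂ) (u : ℝ) : dq q F (-u) = dq q F u := by
  unfold dq
  rw [← shift_lint (fun p : ℝ × ℝ => ‖F (p.1, p.2 + -u) - F p‖ₑ ^ q) u]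
  refine lintegral_congr fun p => ?_
  simp only
  rw [add_neg_cancel_right, ← enorm_neg, neg_sub]

theorem exp_bd {s : ℝ} (hs : s ∈ Icc (0 : ℝ) 1) : Real.exp s - 1 ≤ 2 * s := by
  have h1 : Real.exp s ≤ 1 + s + s ^ 2 := by
    have h2 := Real.abs_exp_sub_one_sub_id_le (x := s) (by rw [abs_of_nonneg hs.1]; exact hs.2)
    have h3 := (abs_le.1 h2).2
    linarith
  nlinarith [hs.1, hs.2]

/-- from translations to dilations -/
theorem trans_dil (q σ : ℝ) (hq : 1 < q) (hσ : 0 < σ) (K : ℝ≥0∞) (F : ℝ × ℝ → ℂ)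
    (hF : Measurable F) (hF0 : ∀ p, p ∉ Bx (1 / 2) → F p = 0)
    (hK : ∀ u, 0 ≤ u → dq q F u ≤ K * ENNReal.ofReal (u ^ (σ * q))) (s : ℝ)
    (hs : s ∈ Icc (0 : ℝ) 1) :
    ∫⁻ p, ‖F p - fl 0 1 s F p‖ₑ ^ q ≤
      (ENNReal.ofReal (2 ^ q * (1 + 4 * 2 ^ (σ * q))) * K) * ENNReal.ofReal (s ^ (σ * q)) := by
  have hq0 : 0 < q := by linarith
  have hfl : ∀ p : ℝ × ℝ, fl 0 1 s F p = F (p.1, Real.exp s * p.2) := by
    intro p
    unfold fl dil
    rw [zero_mul, Real.exp_zero, one_mul, one_mul]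
  simp_rw [hfl]
  rcases eq_or_lt_of_le hs.1 with h0 | h0
  · rw [← h0, Real.exp_zero]
    have : ∀ p : ℝ × ℝ, ‖F p - F (p.1, 1 * p.2)‖ₑ ^ q = 0 := by
      intro p
      rw [one_mul, Prod.mk.eta, sub_self, enorm_zero, ENNReal.zero_rpow_of_pos hq0]
    simp_rw [this]
    rw [lintegral_zero]
    exact zero_le
  have hKall : ∀ u, dq q F u ≤ K * ENNReal.ofReal (|u| ^ (σ * q)) := by
    intro u
    rcases le_total 0 u with h | h
    · rw [abs_of_nonneg h]
      exact hK u h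
    · rw [abs_of_nonpos h]
      have := hK (-u) (by linarith)
      rwa [dq_neg] at this
  -- the strip
  set S : Set (ℝ × ℝ) := {p | |p.2| ≤ 1 / 2} with hS
  have hSm : MeasurableSet S := by
    have h : Measurable fun p : ℝ × ℝ => |p.2| := by fun_prop
    exact h measurableSet_Iic
  have hout : ∀ p : ℝ × ℝ, p ∉ S → F p = 0 := by
    intro p hp
    refine hF0 p fun h => hp ?_
    exact abs_le.2 h.2
  have hes : 1 ≤ Real.exp s := Real.one_le_exp h0.le
  have h1 : ∫⁻ p : ℝ × ℝ, ‖F p - F (p.1, Real.exp s * p.2)‖ₑ ^ q ≤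
      ∫⁻ p in S, ‖F p - F (p.1, Real.exp s * p.2)‖ₑ ^ q := by
    rw [← lintegral_indicator hSm]
    refine lintegral_mono fun p => ?_
    by_cases hp : p ∈ S
    · rw [indicator_of_mem hp]
    · rw [hout p hp, hout (p.1, Real.exp s * p.2) (by
        intro h
        apply hp
        have h2 : |Real.exp s * p.2| ≤ 1 / 2 := h
        rw [abs_mul, abs_of_pos (Real.exp_pos s)] at h2
        have h3 := abs_nonneg p.2
        show |p.2| ≤ 1 / 2
        nlinarith), sub_zero, enorm_zero, ENNReal.zero_rpow_of_pos hq0]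
      exact zero_le
  -- pointwise
  have h2 : ∀ (p : ℝ × ℝ) (u : ℝ), ‖F p - F (p.1, Real.exp s * p.2)‖ₑ ^ q ≤
      2 ^ (q - 1) * (‖F (p.1, Real.exp s * p.2 + u) - F (p.1, Real.exp s * p.2)‖ₑ ^ q +
        ‖F (p.1, Real.exp s * p.2 + u) - F p‖ₑ ^ q) := by
    intro p u
    have h3 : ‖F p - F (p.1, Real.exp s * p.2)‖ₑ ≤
        ‖F (p.1, Real.exp s * p.2 + u) - F (p.1, Real.exp s * p.2)‖ₑ +
        ‖F (p.1, Real.exp s * p.2 + u) - F p‖ₑ := by
      have h4 : F p - F (p.1, Real.exp s * p.2) =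
          (F (p.1, Real.exp s * p.2 + u) - F (p.1, Real.exp s * p.2)) -
          (F (p.1, Real.exp s * p.2 + u) - F p) := by ring
      rw [h4]
      exact enorm_sub_le
    exact (ENNReal.rpow_le_rpow h3 hq0.le).trans (ENNReal.rpow_add_le_mul_rpow_add_rpow _ _ hq.le)
  have hm1 : Measurable fun z : (ℝ × ℝ) × ℝ =>
      ‖F (z.1.1, Real.exp s * z.1.2 + z.2) - F (z.1.1, Real.exp s * z.1.2)‖ₑ ^ q := by
    exact ((hF.comp (by fun_prop)).sub (hF.comp (by fun_prop))).enorm.pow_const q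
  have hm2 : Measurable fun z : (ℝ × ℝ) × ℝ =>
      ‖F (z.1.1, Real.exp s * z.1.2 + z.2) - F z.1‖ₑ ^ q := by
    exact ((hF.comp (by fun_prop)).sub (hF.comp (by fun_prop))).enorm.pow_const q
  have hm3 : Measurable fun z : (ℝ × ℝ) × ℝ => ‖F (z.1.1, z.1.2 + z.2) - F z.1‖ₑ ^ q := by
    exact ((hF.comp (by fun_prop)).sub (hF.comp (by fun_prop))).enorm.pow_const q
  have hmh : mh s univ = 1 := mh_univ h0
  -- first part
  have hI1 : ∫⁻ p in S, ∫⁻ u, ‖F (p.1, Real.exp s * p.2 + u) -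
      F (p.1, Real.exp s * p.2)‖ₑ ^ q ∂(mh s) ≤ K * ENNReal.ofReal (s ^ (σ * q)) := by
    calc ∫⁻ p in S, ∫⁻ u, ‖F (p.1, Real.exp s * p.2 + u) - F (p.1, Real.exp s * p.2)‖ₑ ^ q ∂(mh s)
        ≤ ∫⁻ p : ℝ × ℝ, (∫⁻ u, ‖F (p.1, Real.exp s * p.2 + u) -
          F (p.1, Real.exp s * p.2)‖ₑ ^ q ∂(mh s)) := setLIntegral_le_lintegral _ _
      _ = ∫⁻ u, (∫⁻ p : ℝ × ℝ, ‖F (p.1, Real.exp s * p.2 + u) -
          F (p.1, Real.exp s * p.2)‖ₑ ^ q) ∂(mh s) := by
          rw [lintegral_lintegral_swap]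
          exact hm1.aemeasurable
      _ ≤ ∫⁻ u, K * ENNReal.ofReal (s ^ (σ * q)) ∂(mh s) := by
          have hae : ∀ᵐ u ∂(mh s), u ∈ Ioc 0 s := by
            unfold mh
            exact Measure.ae_smul_measure (ae_restrict_mem measurableSet_Ioc) _
          refine lintegral_mono_ae ?_
          filter_upwards [hae] with u hu
          have h3 := lsc2 (a := 1) (b := Real.exp s) one_ne_zero (Real.exp_ne_zero s)
            (fun p : ℝ × ℝ => ‖F (p.1, p.2 + u) - F p‖ₑ ^ q)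
            (((hF.comp (by fun_prop)).sub hF).enorm.pow_const q)
          have h4 : ∫⁻ p : ℝ × ℝ, ‖F (p.1, Real.exp s * p.2 + u) -
              F (p.1, Real.exp s * p.2)‖ₑ ^ q = ENNReal.ofReal |(1 : ℝ)⁻¹| *
              (ENNReal.ofReal |(Real.exp s)⁻¹| * dq q F u) := by
            unfold dq
            rw [← h3]
            refine lintegral_congr fun p => ?_
            simp only [one_mul]
          rw [h4, inv_one, abs_one, ENNReal.ofReal_one, one_mul]
          calc ENNReal.ofReal |(Real.exp s)⁻¹| * dq q F u ≤ 1 * dq q F u := by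
                refine mul_le_mul_left ?_ _
                rw [← ENNReal.ofReal_one]
                refine ENNReal.ofReal_le_ofReal ?_
                rw [abs_of_pos (by positivity)]
                exact inv_le_one_of_one_le₀ hes
            _ ≤ K * ENNReal.ofReal (u ^ (σ * q)) := by
                rw [one_mul]
                exact hK u hu.1.le
            _ ≤ _ := by
                refine mul_le_mul_right (ENNReal.ofReal_le_ofReal ?_) _
                exact Real.rpow_le_rpow hu.1.le hu.2 (by positivity)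
      _ = _ := by rw [lintegral_const, hmh, mul_one]
  -- second part
  have hI2 : ∫⁻ p in S, ∫⁻ u, ‖F (p.1, Real.exp s * p.2 + u) - F p‖ₑ ^ q ∂(mh s) ≤
      (ENNReal.ofReal (4 * 2 ^ (σ * q)) * K) * ENNReal.ofReal (s ^ (σ * q)) := by
    calc ∫⁻ p in S, ∫⁻ u, ‖F (p.1, Real.exp s * p.2 + u) - F p‖ₑ ^ q ∂(mh s)
        ≤ ∫⁻ p in S, ENNReal.ofReal s⁻¹ *
          ∫⁻ v in Icc (-(2 * s)) (2 * s), ‖F (p.1, p.2 + v) - F p‖ₑ ^ q := by
          refine setLIntegral_mono' hSm fun p hp => ?_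
          unfold mh
          rw [lintegral_smul_measure, smul_eq_mul]
          refine mul_le_mul_right ?_ _
          have h3 : ∀ u, Real.exp s * p.2 + u = p.2 + (u + (Real.exp s - 1) * p.2) := by
            intro u; ring
          simp_rw [h3]
          have h8 := lintegral_add_right_eq_self (μ := (volume : Measure ℝ))
            ((Icc (-(2 * s)) (2 * s)).indicator fun v => ‖F (p.1, p.2 + v) - F p‖ₑ ^ q)
            ((Real.exp s - 1) * p.2)
          rw [← lintegral_indicator measurableSet_Ioc, ← lintegral_indicator measurableSet_Icc, ← h8]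
          refine lintegral_mono fun u => ?_
          by_cases hu : u ∈ Ioc 0 s
          · rw [indicator_of_mem hu, indicator_of_mem]
            have h4 : |(Real.exp s - 1) * p.2| ≤ s := by
              rw [abs_mul, abs_of_nonneg (by linarith)]
              have h5 := exp_bd hs
              have h6 : |p.2| ≤ 1 / 2 := hp
              have h7 := abs_nonneg p.2
              nlinarith
            have h5 := abs_le.1 h4
            constructor
            · linarith [hu.1, hu.2]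
            · linarith [hu.1, hu.2]
          · rw [indicator_of_notMem hu]
            exact zero_le
      _ ≤ ∫⁻ p : ℝ × ℝ, ENNReal.ofReal s⁻¹ *
          ∫⁻ v in Icc (-(2 * s)) (2 * s), ‖F (p.1, p.2 + v) - F p‖ₑ ^ q :=
          setLIntegral_le_lintegral _ _
      _ = ENNReal.ofReal s⁻¹ * ∫⁻ v in Icc (-(2 * s)) (2 * s), dq q F v := by
          rw [lintegral_const_mul]
          · congr 1
            unfold dq
            rw [lintegral_lintegral_swap]
            exact hm3.aemeasurable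
          · exact hm3.lintegral_prod_right'
      _ ≤ ENNReal.ofReal s⁻¹ * ∫⁻ v in Icc (-(2 * s)) (2 * s),
          K * ENNReal.ofReal ((2 * s) ^ (σ * q)) := by
          refine mul_le_mul_right (setLIntegral_mono' measurableSet_Icc fun v hv => ?_) _
          refine (hKall v).trans (mul_le_mul_right (ENNReal.ofReal_le_ofReal ?_) _)
          exact Real.rpow_le_rpow (abs_nonneg _) (abs_le.2 hv) (by positivity)
      _ ≤ _ := by
          rw [setLIntegral_const, Real.volume_Icc, Real.mul_rpow (by norm_num) h0.le]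
          have h3 : ENNReal.ofReal s⁻¹ * (K * ENNReal.ofReal (2 ^ (σ * q) * s ^ (σ * q)) *
              ENNReal.ofReal (2 * s - -(2 * s))) =
              (ENNReal.ofReal (4 * 2 ^ (σ * q)) * K) * ENNReal.ofReal (s ^ (σ * q)) := by
            have h4 : ENNReal.ofReal s⁻¹ * ENNReal.ofReal (2 * s - -(2 * s)) = ENNReal.ofReal 4 := by
              rw [← ENNReal.ofReal_mul (by positivity)]
              congr 1
              field_simp
              ring
            calc ENNReal.ofReal s⁻¹ * (K * ENNReal.ofReal (2 ^ (σ * q) * s ^ (σ * q)) *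
                  ENNReal.ofReal (2 * s - -(2 * s)))
                = (ENNReal.ofReal s⁻¹ * ENNReal.ofReal (2 * s - -(2 * s))) *
                  (K * ENNReal.ofReal (2 ^ (σ * q) * s ^ (σ * q))) := by ring
              _ = _ := by
                  rw [h4, ENNReal.ofReal_mul (by positivity : (0 : ℝ) ≤ 2 ^ (σ * q)),
                    ENNReal.ofReal_mul (by norm_num : (0 : ℝ) ≤ 4)]
                  ring
          rw [h3]
  -- conclusion
  have h2t : (2 : ℝ≥0∞) ^ (q - 1) ≠ ∞ := ENNReal.rpow_ne_top_of_nonneg (by linarith) (by norm_num)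
  have hA : ∀ p : ℝ × ℝ, ‖F p - F (p.1, Real.exp s * p.2)‖ₑ ^ q ≤
      2 ^ (q - 1) * ((∫⁻ u, ‖F (p.1, Real.exp s * p.2 + u) -
        F (p.1, Real.exp s * p.2)‖ₑ ^ q ∂(mh s)) +
        ∫⁻ u, ‖F (p.1, Real.exp s * p.2 + u) - F p‖ₑ ^ q ∂(mh s)) := by
    intro p
    have hm1' : Measurable fun u => ‖F (p.1, Real.exp s * p.2 + u) -
        F (p.1, Real.exp s * p.2)‖ₑ ^ q :=
      ((hF.comp (by fun_prop)).sub measurable_const).enorm.pow_const q
    have hm2' : Measurable fun u => ‖F (p.1, Real.exp s * p.2 + u) - F p‖ₑ ^ q :=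
      ((hF.comp (by fun_prop)).sub measurable_const).enorm.pow_const q
    calc ‖F p - F (p.1, Real.exp s * p.2)‖ₑ ^ q
        = ∫⁻ _, ‖F p - F (p.1, Real.exp s * p.2)‖ₑ ^ q ∂(mh s) := by
          rw [lintegral_const, hmh, mul_one]
      _ ≤ ∫⁻ u, 2 ^ (q - 1) * (‖F (p.1, Real.exp s * p.2 + u) -
          F (p.1, Real.exp s * p.2)‖ₑ ^ q + ‖F (p.1, Real.exp s * p.2 + u) - F p‖ₑ ^ q) ∂(mh s) :=
          lintegral_mono fun u => h2 p u
      _ = _ := by
          rw [lintegral_const_mul' _ _ h2t, lintegral_add_left hm1']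
  refine h1.trans ?_
  have hm1'' : Measurable fun p : ℝ × ℝ => ∫⁻ u, ‖F (p.1, Real.exp s * p.2 + u) -
      F (p.1, Real.exp s * p.2)‖ₑ ^ q ∂(mh s) := hm1.lintegral_prod_right'
  have hm2'' : Measurable fun p : ℝ × ℝ => ∫⁻ u, ‖F (p.1, Real.exp s * p.2 + u) - F p‖ₑ ^ q ∂(mh s) :=
    hm2.lintegral_prod_right'
  calc ∫⁻ p in S, ‖F p - F (p.1, Real.exp s * p.2)‖ₑ ^ q
      ≤ ∫⁻ p in S, 2 ^ (q - 1) * ((∫⁻ u, ‖F (p.1, Real.exp s * p.2 + u) -
        F (p.1, Real.exp s * p.2)‖ₑ ^ q ∂(mh s)) +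
        ∫⁻ u, ‖F (p.1, Real.exp s * p.2 + u) - F p‖ₑ ^ q ∂(mh s)) := lintegral_mono hA
    _ = 2 ^ (q - 1) * ((∫⁻ p in S, ∫⁻ u, ‖F (p.1, Real.exp s * p.2 + u) -
        F (p.1, Real.exp s * p.2)‖ₑ ^ q ∂(mh s)) +
        ∫⁻ p in S, ∫⁻ u, ‖F (p.1, Real.exp s * p.2 + u) - F p‖ₑ ^ q ∂(mh s)) := by
        rw [lintegral_const_mul' _ _ h2t, lintegral_add_left hm1'']
    _ ≤ 2 ^ (q - 1) * (K * ENNReal.ofReal (s ^ (σ * q)) +
        (ENNReal.ofReal (4 * 2 ^ (σ * q)) * K) * ENNReal.ofReal (s ^ (σ * q))) := by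
        gcongr
    _ = (2 ^ (q - 1) * (1 + ENNReal.ofReal (4 * 2 ^ (σ * q))) * K) *
        ENNReal.ofReal (s ^ (σ * q)) := by ring
    _ ≤ _ := by
        refine mul_le_mul_left (mul_le_mul_left ?_ _) _
        have e5 : ENNReal.ofReal (2 ^ q * (1 + 4 * 2 ^ (σ * q))) =
            2 ^ q * (1 + ENNReal.ofReal (4 * 2 ^ (σ * q))) := by
          rw [ENNReal.ofReal_mul (by positivity : (0 : ℝ) ≤ 2 ^ q),
            ENNReal.ofReal_add (by norm_num) (by positivity), ENNReal.ofReal_one,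
            ← ENNReal.ofReal_rpow_of_pos (show (0 : ℝ) < 2 by norm_num),
            show ENNReal.ofReal 2 = 2 by norm_num]
        rw [e5]
        refine mul_le_mul_left ?_ _
        exact ENNReal.rpow_le_rpow_of_exponent_le (by norm_num) (by linarith)

/-- fractional regularity in the second direction -/
theorem TD (q σ : ℝ) (hq3 : 3 < q) (hσ : 0 < σ) (hσ1 : 4 - q < 2 * (σ * q)) :
    ∃ C : ℝ≥0∞, C ≠ ∞ ∧ ∀ (K : ℝ≥0∞), K ≠ ∞ →
    ∀ f : ℝ × ℝ → ℂ, Measurable f → (∀ p, p ∉ Bx (1 / 2) → f p = 0) → ∫⁻ p, ‖f p‖ₑ ^ q ≠ ∞ →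
    (∀ u, 0 ≤ u → dq q f u ≤ K * ENNReal.ofReal (u ^ (σ * q))) →
    Nq q 1 f univ ≤ C * ((∫⁻ p, ‖f p‖ₑ ^ q) + K) := by
  obtain ⟨C, hC, hT⟩ := TC q σ hq3 hσ hσ1 (1 / 2) (by norm_num) 0 1 zero_ne_one
  set c := ENNReal.ofReal (2 ^ q * (1 + 4 * 2 ^ (σ * q))) with hc
  refine ⟨C * (1 + c), ENNReal.mul_ne_top hC (ENNReal.add_ne_top.2
    ⟨ENNReal.one_ne_top, ENNReal.ofReal_ne_top⟩), ?_⟩
  intro K hK f hf hf0 hft hreg
  have h1 := hT (c * K) (ENNReal.mul_ne_top ENNReal.ofReal_ne_top hK) f hf hf0 hft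
    (fun s hs => trans_dil q σ (by linarith) hσ K f hf hf0 hreg s hs)
  refine h1.trans ?_
  rw [mul_assoc]
  refine mul_le_mul_right ?_ _
  set F := ∫⁻ p, ‖f p‖ₑ ^ q
  calc F + c * K ≤ (1 + c) * F + (1 + c) * K := by
        refine add_le_add ?_ (mul_le_mul_left le_add_self _)
        calc F = 1 * F := (one_mul F).symm
          _ ≤ _ := mul_le_mul_left le_self_add _
    _ = _ := by ring

end Pool.Agent.K4H66.DF
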