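import Mathlib
import Pool.Agent.K4H66.DF.B11
import Pool.Agent.K4H66.RV.A10
set_option autoImplicit false

/-! Rigid motions and the transfer to `E 2`, `E 3`. -/

namespace Pool.Agent.K4H66.DF

open MeasureTheory Complex Set Filter Topology Metric
open scoped ENNReal NNReal RealInnerProductSpace
open Pool.Agent.R412.RT (E ee ee_norm ee_add ee_conj ee_meas ee_cont inner_eq)
open Pool.Agent.K4H66.RV (Ef pph Ef_meas T2 T2_apply T2_mp ext_norm)
open Pool.Agent.R412.RZ (ext)

/-- the extension operator on `E 2` for a fixed height -/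
noncomputable def Eg (g : E 2 → ℂ) (t : ℝ) (y : E 2) : ℂ := ∫ x : E 2, ee (⟪x, y⟫ + ⟪x, x⟫ * t) * g x

theorem T2s_mp : MeasurePreserving T2.symm volume volume := T2_mp.symm

theorem T2s_zero (w : ℝ × ℝ) : (T2.symm w) 0 = w.1 := by
  have h := T2_apply (T2.symm w)
  rw [MeasurableEquiv.apply_symm_apply] at h
  exact (congrArg Prod.fst h).symm

theorem T2s_one (w : ℝ × ℝ) : (T2.symm w) 1 = w.2 := by
  have h := T2_apply (T2.symm w)
  rw [MeasurableEquiv.apply_symm_apply] at h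
  exact (congrArg Prod.snd h).symm

theorem Ef_Eg (g : E 2 → ℂ) (t : ℝ) (w : ℝ × ℝ) :
    Ef (fun p => g (T2.symm p)) (t, w) = Eg g t (T2.symm w) := by
  unfold Ef Eg
  rw [← T2s_mp.integral_comp T2.symm.measurableEmbedding]
  refine integral_congr_ae (Eventually.of_forall fun p => ?_)
  simp only
  congr 2
  rw [inner_eq, inner_eq, Fin.sum_univ_two, Fin.sum_univ_two, T2s_zero, T2s_one, T2s_zero, T2s_one]
  unfold pph
  ring

theorem EgE_meas (g : E 2 → ℂ) (hg : Measurable g) (t : ℝ) : Measurable (Eg g t) := by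
  have : StronglyMeasurable (Function.uncurry fun (y : E 2) (x : E 2) =>
      ee (⟪x, y⟫ + ⟪x, x⟫ * t) * g x) := by
    refine Measurable.stronglyMeasurable (Measurable.mul (ee_meas.comp ?_)
      (hg.comp measurable_snd))
    fun_prop
  exact this.integral_prod_right.measurable

theorem Ef_Eg_norm (q : ℝ) (g : E 2 → ℂ) (hg : Measurable g) (t : ℝ) :
    ∫⁻ w, ‖Ef (fun p => g (T2.symm p)) (t, w)‖ₑ ^ q = ∫⁻ y, ‖Eg g t y‖ₑ ^ q := by
  simp_rw [Ef_Eg]
  exact T2s_mp.lintegral_comp ((EgE_meas g hg t).enorm.pow_const q)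

variable (v : OrthonormalBasis (Fin 2) ℝ (E 2)) (c : E 2)

/-- the rigid motion -/
noncomputable def rg (z : E 2) : E 2 := c + v.repr.symm z

theorem rg_mp : MeasurePreserving (rg v c) volume volume :=
  (measurePreserving_add_left volume c).comp v.repr.symm.measurePreserving

theorem rg_me : MeasurableEmbedding (rg v c) :=
  (MeasurableEquiv.addLeft c).measurableEmbedding.comp
    v.repr.symm.toHomeomorph.toMeasurableEquiv.measurableEmbedding

theorem Eg_rigid (g : E 2 → ℂ) (t : ℝ) (y : E 2) :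
    ‖Eg g t y‖ₑ = ‖Eg (fun z => g (rg v c z)) t (v.repr (y + (2 * t) • c))‖ₑ := by
  have h1 : Eg g t y = ee (⟪c, y⟫ + ⟪c, c⟫ * t) *
      Eg (fun z => g (rg v c z)) t (v.repr (y + (2 * t) • c)) := by
    unfold Eg
    rw [← (rg_mp v c).integral_comp (rg_me v c), ← integral_const_mul]
    refine integral_congr_ae (Eventually.of_forall fun z => ?_)
    simp only
    rw [← mul_assoc, ← ee_add]
    congr 2
    unfold rg
    have h2 : ⟪v.repr.symm z, v.repr.symm z⟫ = ⟪z, z⟫ := v.repr.symm.inner_map_map z z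
    have h3 : ∀ a : E 2, ⟪v.repr.symm z, a⟫ = ⟪z, v.repr a⟫ := by
      intro a
      rw [← v.repr.inner_map_map (v.repr.symm z) a, LinearIsometryEquiv.apply_symm_apply]
    rw [inner_add_left, inner_add_left, inner_add_right, inner_add_right, h2, h3,
      real_inner_comm (v.repr.symm z) c, h3 c, map_add, inner_add_right, map_smul,
      real_inner_smul_right]
    ring
  rw [h1, enorm_mul, ← ofReal_norm (ee _), ee_norm, ENNReal.ofReal_one, one_mul]

theorem Eg_rigid_norm (q : ℝ) (g : E 2 → ℂ) (hg : Measurable g) (t : ℝ) :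
    ∫⁻ y, ‖Eg g t y‖ₑ ^ q = ∫⁻ y, ‖Eg (fun z => g (rg v c z)) t y‖ₑ ^ q := by
  simp_rw [Eg_rigid v c g t]
  have hm : Measurable fun y => ‖Eg (fun z => g (rg v c z)) t y‖ₑ ^ q :=
    (EgE_meas _ (hg.comp (rg_mp v c).measurable) t).enorm.pow_const q
  have hm2 : Measurable fun y => ‖Eg (fun z => g (rg v c z)) t (v.repr y)‖ₑ ^ q :=
    hm.comp v.repr.continuous.measurable
  rw [lintegral_add_right_eq_self (fun y => ‖Eg (fun z => g (rg v c z)) t (v.repr y)‖ₑ ^ q)]
  exact v.repr.measurePreserving.lintegral_comp hm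

/-- the function in the coordinates of the frame -/
noncomputable def cf (g : E 2 → ℂ) (p : ℝ × ℝ) : ℂ := g (rg v c (T2.symm p))

theorem cf_meas (g : E 2 → ℂ) (hg : Measurable g) : Measurable (cf v c g) :=
  hg.comp ((rg_mp v c).measurable.comp T2.symm.measurable)

theorem cf_norm (q : ℝ) (g : E 2 → ℂ) (hg : Measurable g) :
    ∫⁻ p, ‖cf v c g p‖ₑ ^ q = ∫⁻ x, ‖g x‖ₑ ^ q := by
  unfold cf
  have h1 := ((rg_mp v c).comp T2s_mp).lintegral_comp (hg.enorm.pow_const q)
  exact h1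

theorem cf_total (q : ℝ) (g : E 2 → ℂ) (hg : Measurable g) :
    ∫⁻ t, ∫⁻ w, ‖Ef (fun p => g (T2.symm p)) (t, w)‖ₑ ^ q = Nq q 1 (cf v c g) univ := by
  rw [← Nq_one, Measure.restrict_univ]
  refine lintegral_congr fun t => ?_
  rw [Ef_Eg_norm q g hg, Eg_rigid_norm v c q g hg]
  have h := Ef_Eg_norm q (fun z => g (rg v c z)) (hg.comp (rg_mp v c).measurable) t
  rw [← h]
  rfl

theorem cf_box {g : E 2 → ℂ} (hg0 : ∀ x, x ∉ ball (0 : E 2) (1 / 2) → g x = 0) (p : ℝ × ℝ)
    (hp : p ∉ Bx (1 / 2 + ‖c‖)) : cf v c g p = 0 := by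
  unfold cf
  refine hg0 _ fun h => hp ?_
  rw [mem_ball_zero_iff] at h
  set z := T2.symm p with hz
  have h1 : ‖z‖ ≤ 1 / 2 + ‖c‖ := by
    have h2 : ‖z‖ = ‖rg v c z - c‖ := by
      unfold rg
      rw [add_sub_cancel_left, LinearIsometryEquiv.norm_map]
    rw [h2]
    exact (norm_sub_le _ _).trans (by linarith)
  have h3 : ∀ i, |z i| ≤ 1 / 2 + ‖c‖ := fun i => by
    have h4 := PiLp.norm_apply_le z i
    rw [Real.norm_eq_abs] at h4
    exact h4.trans h1
  constructor
  · have := abs_le.1 (h3 0)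
    rw [hz, T2s_zero] at this
    exact this
  · have := abs_le.1 (h3 1)
    rw [hz, T2s_one] at this
    exact this

/-- the flow -/
noncomputable def flw (l : Fin 2 → ℝ) (s : ℝ) (x : E 2) : E 2 :=
  c + ∑ i, (Real.exp (l i * s) * ⟪v i, x - c⟫) • v i

theorem flw_rg (l : Fin 2 → ℝ) (s : ℝ) (p : ℝ × ℝ) :
    flw v c l s (rg v c (T2.symm p)) =
      rg v c (T2.symm (Real.exp (l 0 * s) * p.1, Real.exp (l 1 * s) * p.2)) := by
  unfold flw rg
  congr 1
  have h1 : ∀ z : E 2, v.repr.symm z = ∑ i, z i • v i := by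
    intro z
    have := v.sum_repr (v.repr.symm z)
    rw [← this]
    refine Finset.sum_congr rfl fun i _ => ?_
    rw [LinearIsometryEquiv.apply_symm_apply]
  rw [add_sub_cancel_left, h1 (T2.symm (Real.exp (l 0 * s) * p.1, Real.exp (l 1 * s) * p.2))]
  refine Finset.sum_congr rfl fun i _ => ?_
  congr 1
  have h2 : ⟪v i, v.repr.symm (T2.symm p)⟫ = (T2.symm p) i := by
    rw [← v.repr_apply_apply, LinearIsometryEquiv.apply_symm_apply]
  rw [h2]
  fin_cases i
  · show Real.exp (l 0 * s) * (T2.symm p) 0 = (T2.symm _) 0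
    rw [T2s_zero, T2s_zero]
  · show Real.exp (l 1 * s) * (T2.symm p) 1 = (T2.symm _) 1
    rw [T2s_one, T2s_one]

theorem cf_flw (l : Fin 2 → ℝ) (s : ℝ) (g : E 2 → ℂ) :
    cf v c (fun x => g (flw v c l s x)) = fl (l 0) (l 1) s (cf v c g) := by
  ext p
  show g (flw v c l s (rg v c (T2.symm p))) =
    g (rg v c (T2.symm (Real.exp (l 0 * s) * p.1, Real.exp (l 1 * s) * p.2)))
  rw [flw_rg]

theorem flw_meas (l : Fin 2 → ℝ) (s : ℝ) : Measurable (flw v c l s) := by
  unfold flw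
  fun_prop

theorem cf_trans (g : E 2 → ℂ) (u : ℝ) (p : ℝ × ℝ) :
    cf v 0 g (p.1, p.2 + u) = cf v 0 (fun x => g (x + u • v 1)) p := by
  unfold cf rg
  have h1 : T2.symm (p.1, p.2 + u) = T2.symm p + u • EuclideanSpace.single (1 : Fin 2) (1 : ℝ) := by
    ext i
    fin_cases i
    · show (T2.symm (p.1, p.2 + u)) 0 = (T2.symm p) 0 + u * (EuclideanSpace.single (1 : Fin 2) (1 : ℝ)) 0
      rw [T2s_zero, T2s_zero]
      simp
    · show (T2.symm (p.1, p.2 + u)) 1 = (T2.symm p) 1 + u * (EuclideanSpace.single (1 : Fin 2) (1 : ℝ)) 1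
      rw [T2s_one, T2s_one]
      simp
  rw [h1, map_add, map_smul, zero_add, zero_add, v.repr_symm_single]

end Pool.Agent.K4H66.DF
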