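import Mathlib
import Pool.Agent.K4H66.DF.B12
set_option autoImplicit false

/-! The final statements. -/

namespace Pool.Agent.K4H66.DF

open MeasureTheory Complex Set Filter Topology Metric
open scoped ENNReal NNReal RealInnerProductSpace
open Pool.Agent.R412.RT (E ee ee_norm ee_add ee_conj ee_meas ee_cont inner_eq)
open Pool.Agent.K4H66.RV (Ef pph Ef_meas T2 T2_apply T2_mp ext_norm)
open Pool.Agent.R412.RZ (ext)

/-- the constant of the change of normalization -/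
noncomputable def nc : ℝ≥0∞ := ENNReal.ofReal ((2 * Real.pi) ^ 3)

theorem nc_ne : nc ≠ ∞ := ENNReal.ofReal_ne_top

theorem link (q : ℝ) (hq : 3 < q) (v : OrthonormalBasis (Fin 2) ℝ (E 2)) (c : E 2)
    (U : Set (E 2)) (hU : MeasurableSet U) (f : E 2 → ℂ) (hf : Measurable f) :
    eLpNorm (ext U f) (ENNReal.ofReal q) volume ^ q ≤ nc * Nq q 1 (cf v c (U.indicator f)) univ := by
  have hq0 : 0 < q := by linarith
  have hg : Measurable (U.indicator f) := hf.indicator hU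
  have hF : Measurable fun p : ℝ × ℝ => U.indicator f (T2.symm p) := hg.comp T2.symm.measurable
  have h1 := ext_norm q hq U hU f (fun p => U.indicator f (T2.symm p)) hF (fun x => by
    rw [MeasurableEquiv.symm_apply_apply])
  have h2 : eLpNorm (Ef fun p => U.indicator f (T2.symm p)) (ENNReal.ofReal q) volume =
      (Nq q 1 (cf v c (U.indicator f)) univ) ^ (1 / q) := by
    rw [eLpNorm_eq_lintegral_rpow_enorm_toReal (by simp; linarith) ENNReal.ofReal_ne_top,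
      ENNReal.toReal_ofReal (by linarith), ← cf_total v c q _ hg, Measure.volume_eq_prod,
      lintegral_prod _ ((Ef_meas _ hF).enorm.pow_const q).aemeasurable]
  have h3 := ENNReal.rpow_le_rpow h1 hq0.le
  rw [h2, ENNReal.mul_rpow_of_nonneg _ _ hq0.le, ← ENNReal.rpow_mul, ← ENNReal.rpow_mul,
    one_div_mul_cancel hq0.ne', ENNReal.rpow_one, ENNReal.rpow_one] at h3
  exact h3

theorem indic_flw (v : OrthonormalBasis (Fin 2) ℝ (E 2)) (c : E 2) (l : Fin 2 → ℝ) (s : ℝ)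
    (U : Set (E 2)) (f : E 2 → ℂ) : (flw v c l s ⁻¹' U).indicator (f ∘ flw v c l s) =
      fun x => U.indicator f (flw v c l s x) := by
  ext x
  by_cases hx : flw v c l s x ∈ U
  · rw [indicator_of_mem (show x ∈ flw v c l s ⁻¹' U from hx), indicator_of_mem hx]
    rfl
  · rw [indicator_of_notMem (show x ∉ flw v c l s ⁻¹' U from hx), indicator_of_notMem hx]

theorem link_flw (q : ℝ) (hq : 3 < q) (v : OrthonormalBasis (Fin 2) ℝ (E 2)) (c : E 2)
    (l : Fin 2 → ℝ) (s : ℝ) (U : Set (E 2)) (hU : MeasurableSet U) (f : E 2 → ℂ)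
    (hf : Measurable f) :
    eLpNorm (ext (flw v c l s ⁻¹' U) (f ∘ flw v c l s)) (ENNReal.ofReal q) volume ^ q ≤
      nc * (ENNReal.ofReal (Kd q (Real.exp (l 0 * s)) (Real.exp (l 1 * s))) *
        Nq q (bs (l 0) (l 1) s) (cf v c (U.indicator f)) univ) := by
  have h1 := link q hq v c _ (hU.preimage (flw_meas v c l s)) (f ∘ flw v c l s)
    (hf.comp (flw_meas v c l s))
  rw [indic_flw, cf_flw, ← Nq_one] at h1
  refine h1.trans (le_of_eq ?_)
  congr 1
  unfold fl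
  rw [EfN q (by linarith) (Real.exp_pos _) (Real.exp_pos _) _
    (cf_meas v c _ (hf.indicator hU)) univ MeasurableSet.univ, bs_eq]
  rfl

theorem lp_pow (q : ℝ) (hq : 3 < q) (U : Set (E 2)) (hU : MeasurableSet U) (f : E 2 → ℂ)
    (v : OrthonormalBasis (Fin 2) ℝ (E 2)) (c : E 2) (hf : Measurable f) :
    ∫⁻ p, ‖cf v c (U.indicator f) p‖ₑ ^ q =
      eLpNorm f (ENNReal.ofReal q) (volume.restrict U) ^ q := by
  have hq0 : 0 < q := by linarith
  rw [cf_norm v c q _ (hf.indicator hU), eLpNorm_eq_lintegral_rpow_enorm_toReal (by simp; linarith)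
    ENNReal.ofReal_ne_top, ENNReal.toReal_ofReal (by linarith), ← ENNReal.rpow_mul,
    one_div_mul_cancel hq0.ne', ENNReal.rpow_one, ← lintegral_indicator hU]
  refine lintegral_congr fun x => ?_
  by_cases hx : x ∈ U
  · rw [indicator_of_mem hx, indicator_of_mem hx]
  · rw [indicator_of_notMem hx, indicator_of_notMem hx, enorm_zero, ENNReal.zero_rpow_of_pos hq0]

theorem supp_box {U : Set (E 2)} (hUb : U ⊆ ball 0 (1 / 2)) (f : E 2 → ℂ) (x : E 2)
    (hx : x ∉ ball (0 : E 2) (1 / 2)) : U.indicator f x = 0 :=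
  indicator_of_notMem (fun h => hx (hUb h)) f

/-- pushing a Frostman measure on `[0, 1]` to the slopes -/
theorem frost {l₁ l₂ α K : ℝ} (hl : l₁ ≠ l₂) (hK : 0 < K) (μ : Measure ℝ)
    (h0 : μ (Icc 0 1)ᶜ = 0) (hF : ∀ x r, 0 < r → μ (Icc x (x + r)) ≤ ENNReal.ofReal (K * r ^ α))
    (x r : ℝ) (hr : 0 < r) : Measure.map (bs l₁ l₂) μ (Icc x (x + r)) ≤
      ENNReal.ofReal ((K * (2 / (|2 * (l₁ - l₂)| * Real.exp (-|2 * (l₁ - l₂)|))) ^ α) * r ^ α) := by
  have hc : 0 < |2 * (l₁ - l₂)| * Real.exp (-|2 * (l₁ - l₂)|) := by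
    have : 0 < |2 * (l₁ - l₂)| := abs_pos.2 (mul_ne_zero two_ne_zero (sub_ne_zero.2 hl))
    positivity
  set c := |2 * (l₁ - l₂)| * Real.exp (-|2 * (l₁ - l₂)|) with hcd
  rw [Measure.map_apply (bs_meas l₁ l₂) measurableSet_Icc]
  set A := bs l₁ l₂ ⁻¹' Icc x (x + r) ∩ Icc (0 : ℝ) 1 with hA
  have h1 : μ (bs l₁ l₂ ⁻¹' Icc x (x + r)) ≤ μ A := by
    calc μ (bs l₁ l₂ ⁻¹' Icc x (x + r)) ≤ μ (A ∪ (Icc 0 1)ᶜ) := by
          refine measure_mono fun s hs => ?_
          by_cases h : s ∈ Icc (0 : ℝ) 1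
          · exact Or.inl ⟨hs, h⟩
          · exact Or.inr h
      _ ≤ μ A + μ (Icc 0 1)ᶜ := measure_union_le _ _
      _ = μ A := by rw [h0, add_zero]
  refine h1.trans ?_
  rcases A.eq_empty_or_nonempty with hAe | ⟨s0, hs0⟩
  · rw [hAe, measure_empty]
    exact zero_le
  have h2 : A ⊆ Icc (s0 - r / c) (s0 - r / c + 2 * (r / c)) := by
    intro s hs
    have h3 := bs_lower (l₁ := l₁) (l₂ := l₂) hs.2 hs0.2
    rw [← hcd] at h3
    have h4 : |bs l₁ l₂ s - bs l₁ l₂ s0| ≤ r := by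
      rw [abs_le]
      have h5 := hs.1
      have h6 := hs0.1
      constructor
      · linarith [h5.1, h6.2]
      · linarith [h5.2, h6.1]
    have h5 : |s - s0| ≤ r / c := by
      rw [le_div_iff₀ hc, mul_comm]
      exact h3.trans h4
    have h6 := abs_le.1 h5
    exact ⟨by linarith [h6.1], by linarith [h6.2]⟩
  refine (measure_mono h2).trans ((hF _ _ (by positivity)).trans (le_of_eq ?_))
  congr 1
  rw [show 2 * (r / c) = 2 / c * r by ring, Real.mul_rpow (by positivity) hr.le]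
  ring

/-- **A.** averages -/
theorem finA (q α K : ℝ) (hq : 3 < q) (hα : 0 < α) (hqα : 4 - q < α * (q - 2)) (hK : 0 < K)
    (v : OrthonormalBasis (Fin 2) ℝ (E 2)) (c : E 2) (l : Fin 2 → ℝ) (hl : l 0 ≠ l 1) :
    ∃ C : ℝ≥0, ∀ μ : Measure ℝ, μ univ ≤ 1 → μ (Icc 0 1)ᶜ = 0 →
    (∀ x r, 0 < r → μ (Icc x (x + r)) ≤ ENNReal.ofReal (K * r ^ α)) →
    ∀ (U : Set (E 2)) (f : E 2 → ℂ), MeasurableSet U → U ⊆ ball 0 (1 / 2) → Measurable f →
    eLpNorm f (ENNReal.ofReal q) (volume.restrict U) ≠ ∞ →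
    ∫⁻ s, eLpNorm (ext (flw v c l s ⁻¹' U) (f ∘ flw v c l s)) (ENNReal.ofReal q) volume ^ q ∂μ ≤
      C * eLpNorm f (ENNReal.ofReal q) (volume.restrict U) ^ q := by
  set c' := 2 / (|2 * (l 0 - l 1)| * Real.exp (-|2 * (l 0 - l 1)|)) with hc'
  have hc'0 : 0 < c' := by
    have : 0 < |2 * (l 0 - l 1)| := abs_pos.2 (mul_ne_zero two_ne_zero (sub_ne_zero.2 hl))
    positivity
  have hR : 0 < 1 / 2 + ‖c‖ := by positivity
  obtain ⟨C, hC, hT⟩ := TA q α (K * c' ^ α) hα (by positivity) hqα (1 / 2 + ‖c‖) hR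
  set Km := ENNReal.ofReal (Real.exp ((|l 0| + |l 1|) * q + 3 * (|l 0| + |l 1|))) with hKm
  refine ⟨(nc * (Km * C)).toNNReal, ?_⟩
  rw [ENNReal.coe_toNNReal (ENNReal.mul_ne_top nc_ne (ENNReal.mul_ne_top ENNReal.ofReal_ne_top hC))]
  intro μ hm h0 hF U f hU hUb hf hft
  have : IsFiniteMeasure μ := ⟨hm.trans_lt ENNReal.one_lt_top⟩
  set G := cf v c (U.indicator f) with hG
  have hGm : Measurable G := cf_meas v c _ (hf.indicator hU)
  have hGn := lp_pow q hq U hU f v c hf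
  have hGt : ∫⁻ p, ‖G p‖ₑ ^ q ≠ ∞ := by
    rw [hG, hGn]
    exact ENNReal.rpow_ne_top_of_nonneg (by linarith) hft
  have h1 := hT (Measure.map (bs (l 0) (l 1)) μ) (by
    rw [Measure.map_apply (bs_meas _ _) MeasurableSet.univ, preimage_univ]
    exact hm) (fun x r hr => frost hl hK μ h0 hF x r hr) G hGm
    (cf_box v c (supp_box hUb f)) hGt
  rw [lintegral_map (Nq_meas q G hGm _) (bs_meas _ _)] at h1
  have hae : ∀ᵐ s ∂μ, s ∈ Icc (0 : ℝ) 1 := by
    rw [ae_iff]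
    exact h0
  calc ∫⁻ s, eLpNorm (ext (flw v c l s ⁻¹' U) (f ∘ flw v c l s)) (ENNReal.ofReal q) volume ^ q ∂μ
      ≤ ∫⁻ s, nc * (Km * Nq q (bs (l 0) (l 1) s) G univ) ∂μ := by
        refine lintegral_mono_ae ?_
        filter_upwards [hae] with s hs
        refine (link_flw q hq v c l s U hU f hf).trans ?_
        refine mul_le_mul_right (mul_le_mul_left ?_ _) _
        exact ENNReal.ofReal_le_ofReal (Kd_le q (by linarith) hs)
    _ = nc * (Km * ∫⁻ s, Nq q (bs (l 0) (l 1) s) G univ ∂μ) := by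
        rw [lintegral_const_mul' _ _ nc_ne, lintegral_const_mul' _ _ ENNReal.ofReal_ne_top]
    _ ≤ nc * (Km * (C * ∫⁻ p, ‖G p‖ₑ ^ q)) := by gcongr
    _ = _ := by
        rw [hG, hGn]
        ring

/-- **B.** exceptional times -/
theorem finB (q : ℝ) (hq : 3 < q) (hq4 : q ≤ 4)
    (v : OrthonormalBasis (Fin 2) ℝ (E 2)) (c : E 2) (l : Fin 2 → ℝ) (hl : l 0 ≠ l 1)
    (U : Set (E 2)) (f : E 2 → ℂ) (hU : MeasurableSet U) (hUb : U ⊆ ball 0 (1 / 2))
    (hf : Measurable f) (hft : eLpNorm f (ENNReal.ofReal q) (volume.restrict U) ≠ ∞) :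
    dimH {s : ℝ | eLpNorm (ext (flw v c l s ⁻¹' U) (f ∘ flw v c l s)) (ENNReal.ofReal q) volume = ∞} ≤
      ENNReal.ofReal ((4 - q) / (q - 2)) := by
  set G := cf v c (U.indicator f) with hG
  have hGm : Measurable G := cf_meas v c _ (hf.indicator hU)
  have hGn := lp_pow q hq U hU f v c hf
  have hGt : ∫⁻ p, ‖G p‖ₑ ^ q ≠ ∞ := by
    rw [hG, hGn]
    exact ENNReal.rpow_ne_top_of_nonneg (by linarith) hft
  have hR : 0 < 1 / 2 + ‖c‖ := by positivity
  have h1 := dimF q (by linarith) hq4 (1 / 2 + ‖c‖) hR G hGm (cf_box v c (supp_box hUb f)) hGt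
  have hm : (2 * (l 0 - l 1)) ≠ 0 := mul_ne_zero two_ne_zero (sub_ne_zero.2 hl)
  set L : ℝ → ℝ := fun b => Real.log b / (2 * (l 0 - l 1)) with hL
  have h2 : {s : ℝ | eLpNorm (ext (flw v c l s ⁻¹' U) (f ∘ flw v c l s)) (ENNReal.ofReal q)
      volume = ∞} ⊆ L '' ({b | Nq q b G univ = ∞} ∩ Ioi 0) := by
    intro s hs
    refine ⟨bs (l 0) (l 1) s, ⟨?_, Real.exp_pos _⟩, ?_⟩
    · by_contra hne
      have h3 := link_flw q hq v c l s U hU f hf
      have h4 : eLpNorm (ext (flw v c l s ⁻¹' U) (f ∘ flw v c l s)) (ENNReal.ofReal q) volume ^ q ≠ ∞ :=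
        ne_top_of_le_ne_top (ENNReal.mul_ne_top nc_ne (ENNReal.mul_ne_top ENNReal.ofReal_ne_top hne)) h3
      rw [Set.mem_setOf_eq] at hs
      rw [hs, ENNReal.top_rpow_of_pos (by linarith)] at h4
      exact h4 rfl
    · simp only [hL]
      unfold bs
      rw [Real.log_exp, mul_div_assoc, mul_comm, div_mul_cancel₀ _ hm]
  refine (dimH_mono h2).trans ?_
  have h3 : ContDiffOn ℝ 1 L (Ioi 0) := by
    simp only [hL]
    refine ContDiffOn.div_const ?_ _
    intro b hb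
    exact (Real.contDiffAt_log.2 (ne_of_gt hb)).contDiffWithinAt
  refine (h3.dimH_image_le (convex_Ioi 0) inter_subset_right).trans ?_
  exact (dimH_mono inter_subset_left).trans h1

theorem reg_pow (q σ K s : ℝ) (hq : 3 < q) (hK : 0 ≤ K) (hs : 0 ≤ s) (g : E 2 → ℂ)
    (h : eLpNorm g (ENNReal.ofReal q) volume ≤ ENNReal.ofReal (K * s ^ σ)) :
    ∫⁻ x, ‖g x‖ₑ ^ q ≤ ENNReal.ofReal (K ^ q) * ENNReal.ofReal (s ^ (σ * q)) := by
  have hq0 : 0 < q := by linarith
  rw [eLpNorm_eq_lintegral_rpow_enorm_toReal (by simp; linarith)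
    ENNReal.ofReal_ne_top, ENNReal.toReal_ofReal (by linarith)] at h
  have h1 := ENNReal.rpow_le_rpow h hq0.le
  rw [← ENNReal.rpow_mul, one_div_mul_cancel hq0.ne', ENNReal.rpow_one,
    ENNReal.ofReal_rpow_of_nonneg (by positivity) hq0.le, Real.mul_rpow hK (by positivity),
    ← Real.rpow_mul hs, ENNReal.ofReal_mul (by positivity)] at h1
  exact h1

theorem root_add (q : ℝ) (hq : 3 < q) (C X : ℝ≥0∞) (K : ℝ) (hK : 0 ≤ K) :
    (C * (X ^ q + ENNReal.ofReal (K ^ q))) ^ (1 / q) ≤ C ^ (1 / q) * (X + ENNReal.ofReal K) := by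
  have hq0 : 0 < q := by linarith
  rw [ENNReal.mul_rpow_of_nonneg _ _ (by positivity)]
  refine mul_le_mul_right ?_ _
  refine (ENNReal.rpow_add_le_add_rpow _ _ (by positivity) (by
    rw [div_le_one hq0]
    linarith)).trans (le_of_eq ?_)
  rw [← ENNReal.rpow_mul, mul_one_div_cancel hq0.ne', ENNReal.rpow_one,
    ← ENNReal.ofReal_rpow_of_nonneg hK hq0.le, ← ENNReal.rpow_mul, mul_one_div_cancel hq0.ne',
    ENNReal.rpow_one]

theorem expo {q σ : ℝ} (hq : 3 < q) (h : 2 / q - 1 / 2 < σ) : 4 - q < 2 * (σ * q) := by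
  have hq0 : 0 < q := by linarith
  have h1 := mul_lt_mul_of_pos_right h (by linarith : 0 < 2 * q)
  have h2 : (2 / q - 1 / 2) * (2 * q) = 4 - q := by field_simp; ring
  rw [h2] at h1
  linarith

/-- **C.** regularity along the flow -/
theorem finC (q σ : ℝ) (hq : 3 < q) (hσ : 0 < σ) (hσ1 : 2 / q - 1 / 2 < σ)
    (v : OrthonormalBasis (Fin 2) ℝ (E 2)) (c : E 2) (l : Fin 2 → ℝ) (hl : l 0 ≠ l 1) :
    ∃ C : ℝ≥0, ∀ (U : Set (E 2)) (f : E 2 → ℂ) (K : ℝ), MeasurableSet U → U ⊆ ball 0 (1 / 2) →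
    Measurable f → eLpNorm f (ENNReal.ofReal q) (volume.restrict U) ≠ ∞ → 0 ≤ K →
    (∀ s ∈ Icc (0 : ℝ) 1, eLpNorm (fun x => U.indicator f (flw v c l s x) - U.indicator f x)
      (ENNReal.ofReal q) volume ≤ ENNReal.ofReal (K * s ^ σ)) →
    eLpNorm (ext U f) (ENNReal.ofReal q) volume ≤
      C * (eLpNorm f (ENNReal.ofReal q) (volume.restrict U) + ENNReal.ofReal K) := by
  have hR : 0 < 1 / 2 + ‖c‖ := by positivity
  have hq0 : 0 < q := by linarith
  obtain ⟨C, hC, hT⟩ := TC q σ hq hσ (expo hq hσ1) (1 / 2 + ‖c‖) hR (l 0) (l 1) hl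
  have hCt : (nc * C) ^ (1 / q) ≠ ∞ :=
    ENNReal.rpow_ne_top_of_nonneg (by positivity) (ENNReal.mul_ne_top nc_ne hC)
  refine ⟨((nc * C) ^ (1 / q)).toNNReal, ?_⟩
  rw [ENNReal.coe_toNNReal hCt]
  intro U f K hU hUb hf hft hK hreg
  set G := cf v c (U.indicator f) with hG
  have hGm : Measurable G := cf_meas v c _ (hf.indicator hU)
  have hGn := lp_pow q hq U hU f v c hf
  have hGt : ∫⁻ p, ‖G p‖ₑ ^ q ≠ ∞ := by
    rw [hG, hGn]
    exact ENNReal.rpow_ne_top_of_nonneg hq0.le hft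
  have h1 := hT (ENNReal.ofReal (K ^ q)) ENNReal.ofReal_ne_top G hGm
    (cf_box v c (supp_box hUb f)) hGt (fun s hs => by
      have h2 := reg_pow q σ K s hq hK hs.1 _ (hreg s hs)
      have hm : Measurable fun x => U.indicator f (flw v c l s x) - U.indicator f x :=
        ((hf.indicator hU).comp (flw_meas v c l s)).sub (hf.indicator hU)
      have h3 := cf_norm v c q _ hm
      refine le_trans (le_of_eq ?_) h2
      rw [← h3]
      refine lintegral_congr fun p => ?_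
      have h4 : fl (l 0) (l 1) s G p = cf v c (fun x => U.indicator f (flw v c l s x)) p := by
        rw [cf_flw]
      rw [h4, ← enorm_neg, neg_sub]
      rfl)
  rw [hG, hGn] at h1
  have h2 := (link q hq v c U hU f hf).trans (mul_le_mul_right h1 _)
  have h3 := ENNReal.rpow_le_rpow h2 (by positivity : 0 ≤ 1 / q)
  rw [← ENNReal.rpow_mul, mul_one_div_cancel hq0.ne', ENNReal.rpow_one, ← mul_assoc] at h3
  exact h3.trans (root_add q hq _ _ K hK)

/-- a frame with a given second vector -/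
theorem frame (e : E 2) (he : ‖e‖ = 1) : ∃ v : OrthonormalBasis (Fin 2) ℝ (E 2), v 1 = e := by
  have h1 : Orthonormal ℝ (({1} : Set (Fin 2)).restrict fun _ => e) := by
    constructor
    · intro i
      exact he
    · intro i j hij
      exact absurd (Subsingleton.elim i j) hij
  obtain ⟨b, hb⟩ := h1.exists_orthonormalBasis_extension_of_card_eq (by simp)
  exact ⟨b, hb 1 rfl⟩

/-- **D.** regularity in one direction -/
theorem finD (q σ : ℝ) (hq : 3 < q) (hσ : 0 < σ) (hσ1 : 2 / q - 1 / 2 < σ) :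
    ∃ C : ℝ≥0, ∀ e : E 2, ‖e‖ = 1 → ∀ (U : Set (E 2)) (f : E 2 → ℂ) (K : ℝ), MeasurableSet U →
    U ⊆ ball 0 (1 / 2) →
    Measurable f → eLpNorm f (ENNReal.ofReal q) (volume.restrict U) ≠ ∞ → 0 ≤ K →
    (∀ τ : ℝ, 0 ≤ τ → eLpNorm (fun x => U.indicator f (x + τ • e) - U.indicator f x)
      (ENNReal.ofReal q) volume ≤ ENNReal.ofReal (K * τ ^ σ)) →
    eLpNorm (ext U f) (ENNReal.ofReal q) volume ≤
      C * (eLpNorm f (ENNReal.ofReal q) (volume.restrict U) + ENNReal.ofReal K) := by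
  have hq0 : 0 < q := by linarith
  obtain ⟨C, hC, hT⟩ := TD q σ hq hσ (expo hq hσ1)
  have hCt : (nc * C) ^ (1 / q) ≠ ∞ :=
    ENNReal.rpow_ne_top_of_nonneg (by positivity) (ENNReal.mul_ne_top nc_ne hC)
  refine ⟨((nc * C) ^ (1 / q)).toNNReal, ?_⟩
  rw [ENNReal.coe_toNNReal hCt]
  intro e he U f K hU hUb hf hft hK hreg
  obtain ⟨v, hv⟩ := frame e he
  set G := cf v 0 (U.indicator f) with hG
  have hGm : Measurable G := cf_meas v 0 _ (hf.indicator hU)
  have hGn := lp_pow q hq U hU f v 0 hf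
  have hGt : ∫⁻ p, ‖G p‖ₑ ^ q ≠ ∞ := by
    rw [hG, hGn]
    exact ENNReal.rpow_ne_top_of_nonneg hq0.le hft
  have h1 := hT (ENNReal.ofReal (K ^ q)) ENNReal.ofReal_ne_top G hGm
    (fun p hp => cf_box v 0 (supp_box hUb f) p (by rwa [norm_zero, add_zero])) hGt (fun u hu => by
      have h2 := reg_pow q σ K u hq hK hu _ (hreg u hu)
      have hm : Measurable fun x => U.indicator f (x + u • e) - U.indicator f x :=
        ((hf.indicator hU).comp (by fun_prop)).sub (hf.indicator hU)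
      have h3 := cf_norm v 0 q _ hm
      refine le_trans (le_of_eq ?_) h2
      rw [← h3]
      unfold dq
      refine lintegral_congr fun p => ?_
      rw [hG, cf_trans, hv]
      rfl)
  rw [hG, hGn] at h1
  have h2 := (link q hq v 0 U hU f hf).trans (mul_le_mul_right h1 _)
  have h3 := ENNReal.rpow_le_rpow h2 (by positivity : 0 ≤ 1 / q)
  rw [← ENNReal.rpow_mul, mul_one_div_cancel hq0.ne', ENNReal.rpow_one, ← mul_assoc] at h3
  exact h3.trans (root_add q hq _ _ K hK)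

end Pool.Agent.K4H66.DF
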